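import Mathlib

-- merged part: Pool.Agent.Work.MP_6078fc_co.Defs
section
set_option autoImplicit false

namespace Pool.Agent.Work.MP_6078fc_co

/-- A group acting faithfully, vertex-transitively and locally quasiprimitively on a connected graph. -/
structure Setup (G : Type) {V : Type} [Group G] [MulAction G V] (Γ : SimpleGraph V) : Prop where
  conn : Γ.Connected
  adj : ∀ (g : G) (u v : V), Γ.Adj u v → Γ.Adj (g • u) (g • v)
  faith : ∀ g : G, (∀ v : V, g • v = v) → g = 1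
  vt : ∀ x y : V, ∃ g : G, g • x = y
  qp : ∀ (v : V) (N : Subgroup G), (∀ n ∈ N, n • v = v) →
    (∀ g : G, g • v = v → ∀ n ∈ N, g * n * g⁻¹ ∈ N) →
    (∀ n ∈ N, ∀ u : V, Γ.Adj v u → n • u = u) ∨
    (∀ u w : V, Γ.Adj v u → Γ.Adj v w → ∃ n ∈ N, n • u = w)

section Grp
variable {G : Type} [Group G]

/-- binary logarithm of the order of a subgroup -/
noncomputable def lg (H : Subgroup G) : ℝ := Real.logb 2 (Nat.card H)

/-- commensurability distance of two subgroups -/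
noncomputable def dm (X Y : Subgroup G) : ℝ := lg X + lg Y - 2 * lg (X ⊓ Y)

/-- triangle defect of a family of subgroups at three positions -/
noncomputable def tri (F : ℕ → Subgroup G) (i c B : ℕ) : ℝ :=
  dm (F i) (F c) + dm (F c) (F B) - dm (F i) (F B)

/-- `H` normalises `X` -/
def Nm (H X : Subgroup G) : Prop := ∀ h ∈ H, ∀ a ∈ X, h * a * h⁻¹ ∈ X

/-- centraliser of a subgroup -/
abbrev Cz (X : Subgroup G) : Subgroup G := Subgroup.centralizer (X : Set G)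

/-- centraliser of an element -/
abbrev Ce (a : G) : Subgroup G := Subgroup.centralizer ({a} : Set G)

end Grp

section Act
variable (G : Type) {V : Type} [Group G] [MulAction G V] (Γ : SimpleGraph V)

/-- pointwise stabiliser of the ball of radius `k` around `x` -/
def K (k : ℕ) (x : V) : Subgroup G where
  carrier := {g | ∀ y : V, Γ.dist x y ≤ k → g • y = y}
  one_mem' := fun y _ => one_smul G y
  mul_mem' := fun {a b} ha hb y hy => by rw [mul_smul, hb y hy, ha y hy]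
  inv_mem' := fun {a} ha y hy => by rw [inv_smul_eq_iff, ha y hy]

/-- centre of the stabiliser of the ball of radius two -/
def D (x : V) : Subgroup G := K G Γ 2 x ⊓ Cz (K G Γ 2 x)

/-- the subgroup generated by the groups `D y` with `y` at distance less than `s` from `x` -/
def U (s : ℕ) (x : V) : Subgroup G := ⨆ y : {y : V // Γ.dist x y < s}, D G Γ y.1

variable {G}

/-- equivariant family of subgroups -/
def Eqv (F : V → Subgroup G) : Prop :=
  ∀ (g : G) (x : V) (a : G), a ∈ F x → g * a * g⁻¹ ∈ F (g • x)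

/-- `H` is transitive on the neighbours of `x` -/
def Tr (H : Subgroup G) (x : V) : Prop :=
  ∀ u w : V, Γ.Adj x u → Γ.Adj x w → ∃ h ∈ H, h • u = w

variable (G)

/-- the situation after the Thompson-Wielandt theorem: `e` bounds the local index, `b` is the critical distance -/
structure Data (e b : ℕ) : Prop extends Setup G Γ where
  he1 : 1 ≤ e
  he : ∀ x : V, lg (K G Γ 0 x) ≤ lg (K G Γ 2 x) + e
  pgrp : ∃ p : ℕ, p.Prime ∧ ∀ u v : V, Γ.Adj u v → IsPGroup p (K G Γ 1 u ⊓ K G Γ 1 v : Subgroup G)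
  K3 : ∀ x : V, K G Γ 3 x ≠ ⊥
  hb : ∀ x : V, D G Γ x ≤ K G Γ b x
  hb' : ∀ x : V, ¬ D G Γ x ≤ K G Γ (b + 1) x

end Act

/-- twice the number of `m < i` with `m % M < j` (for `j ≤ M`) -/
def la (M j i : ℕ) : ℕ := 2 * ∑ l ∈ Finset.range j, (i + M - 1 - l) / M

/-- level at position `i` of the line number `j` starting at level `t0` -/
def lev (M t0 j i : ℕ) : ℕ := t0 + la M j i - i

section Lines
variable (G : Type) {V : Type} [Group G] [MulAction G V] (Γ : SimpleGraph V)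

/-- ball stabilisers along a line -/
def FK (x : ℕ → V) (M t0 j : ℕ) : ℕ → Subgroup G := fun i => K G Γ (lev M t0 j i) (x i)

/-- the groups `U` along a line -/
def FU (x : ℕ → V) (M t0 j : ℕ) : ℕ → Subgroup G := fun i => U G Γ (lev M t0 j i) (x i)

end Lines

/-- number of slopes -/
def pM (e : ℕ) : ℕ := 136 * e * (1 + e) * (2 * e ^ 2) ^ 2 * (8 * e ^ 2) + 7
/-- ratio of the interval length to the resolution -/
def pZ1 (e : ℕ) : ℕ := 64 * e * pM e
/-- inverse defect -/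
def pZ (e : ℕ) : ℕ := 8 * (pM e + 1) * (32 * e ^ 3) * pZ1 e * (pZ1 e + 1) + 1
/-- ratio of scales -/
def pQ (e : ℕ) : ℕ := 24 * pZ e * pZ1 e
/-- number of scales -/
def pR (e : ℕ) : ℕ := 48 * e * pZ e
/-- length of the regular range -/
def pq (e : ℕ) : ℕ := 10 * pQ e ^ pR e
/-- bound for the critical distance -/
def pB (e : ℕ) : ℕ := 2 * pq e ^ (pq e + 1)

end Pool.Agent.Work.MP_6078fc_co
end

-- merged part: Pool.Agent.Work.MP_6078fc_co.Lg
section
set_option autoImplicit false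

namespace Pool.Agent.Work.MP_6078fc_co

variable {G : Type} [Group G] [Finite G]

theorem lg_aux_pos (H : Subgroup G) : (0 : ℝ) < Nat.card H := by
  exact_mod_cast Nat.card_pos

theorem lg_aux_rel {X Y : Subgroup G} (h : X ≤ Y) :
    Nat.card Y = X.relIndex Y * Nat.card X := by
  rw [← Subgroup.relIndex_bot_left, ← Subgroup.relIndex_bot_left, mul_comm,
    Subgroup.relIndex_mul_relIndex ⊥ X Y bot_le h]

theorem lg_aux_ne (X Y : Subgroup G) : X.relIndex Y ≠ 0 :=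
  Subgroup.index_ne_zero_of_finite

theorem lg_aux_sub {X Y : Subgroup G} (h : X ≤ Y) :
    lg Y - lg X = Real.logb 2 (X.relIndex Y) := by
  have h0 : ((X.relIndex Y : ℕ) : ℝ) ≠ 0 := by exact_mod_cast lg_aux_ne X Y
  rw [lg, lg, lg_aux_rel h, Nat.cast_mul, Real.logb_mul h0 (lg_aux_pos X).ne']
  ring

theorem lg_aux_le {m n : ℕ} (hm : m ≠ 0) (h : m ≤ n) : Real.logb 2 m ≤ Real.logb 2 n :=
  Real.logb_le_logb_of_le one_lt_two (by exact_mod_cast Nat.pos_of_ne_zero hm)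
    (by exact_mod_cast h)

theorem lg_nonneg (H : Subgroup G) : 0 ≤ lg H :=
  Real.logb_nonneg one_lt_two (by exact_mod_cast Nat.card_pos)

theorem lg_bot : lg (⊥ : Subgroup G) = 0 := by
  simp [lg]

theorem lg_mono {X Y : Subgroup G} (h : X ≤ Y) : lg X ≤ lg Y :=
  lg_aux_le Nat.card_pos.ne' (Subgroup.card_le_of_le h)

theorem lg_L2 {X Y B : Subgroup G} (hX : X ≤ B) (hY : Y ≤ B) :
    lg X + lg Y ≤ lg B + lg (X ⊓ Y) := by
  have h1 := lg_aux_sub (inf_le_left : X ⊓ Y ≤ X)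
  have h2 := lg_aux_sub hY
  rw [Subgroup.inf_relIndex_left] at h1
  have h3 := lg_aux_le (lg_aux_ne Y X) (Subgroup.relIndex_le_of_le_right hX (lg_aux_ne Y B))
  linarith only [h1, h2, h3]

theorem lg_lt {X Y : Subgroup G} (h : X ≤ Y) (hne : ¬ Y ≤ X) : lg X + 1 ≤ lg Y := by
  have h1 := lg_aux_sub h
  have h2 : X.relIndex Y ≠ 1 := fun h3 => hne (Subgroup.relIndex_eq_one.1 h3)
  have h3 : 2 ≤ X.relIndex Y := by
    have := lg_aux_ne X Y
    omega
  have h4 := lg_aux_le two_ne_zero h3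
  rw [Nat.cast_ofNat, Real.logb_self_eq_one one_lt_two] at h4
  linarith only [h1, h4]

theorem co_mono {H H' : Subgroup G} (C : Subgroup G) (h : H ≤ H') :
    lg H - lg (H ⊓ C) ≤ lg H' - lg (H' ⊓ C) := by
  have h1 := lg_L2 h (inf_le_left : H' ⊓ C ≤ H')
  rw [← inf_assoc, inf_eq_left.2 h] at h1
  linarith only [h1]

theorem co_finset {ι : Type} (t : Finset ι) (H : Subgroup G) (C : ι → Subgroup G) (κ : ℝ)
    (h : ∀ i ∈ t, lg H - lg (H ⊓ C i) ≤ κ) :
    lg H - lg (H ⊓ ⨅ i ∈ t, C i) ≤ κ * t.card := by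
  classical
  induction t using Finset.induction_on with
  | empty => simp
  | insert i t hi ih =>
    have h1 := ih fun j hj => h j (Finset.mem_insert_of_mem hj)
    have h2 := h i (Finset.mem_insert_self _ _)
    have h3 := lg_L2 (inf_le_left : H ⊓ C i ≤ H) (inf_le_left : H ⊓ ⨅ j ∈ t, C j ≤ H)
    rw [← inf_inf_distrib_left] at h3
    rw [Finset.iInf_insert, Finset.card_insert_of_notMem hi]
    push_cast
    linarith only [h1, h2, h3]

theorem lg_aux_greedy {ι : Type} (s : Finset ι) (W : Subgroup G) (A : ι → Subgroup G) :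
    ∃ t ⊆ s, (∀ i ∈ s, A i ≤ W ⊔ ⨆ j ∈ t, A j) ∧
      (t.card : ℝ) ≤ lg (W ⊔ ⨆ j ∈ t, A j) - lg W := by
  classical
  induction s using Finset.induction_on with
  | empty => exact ⟨∅, subset_rfl, by simp, by simp⟩
  | insert i s hi ih =>
    obtain ⟨t, h1, h2, h3⟩ := ih
    by_cases h : A i ≤ W ⊔ ⨆ j ∈ t, A j
    · refine ⟨t, h1.trans (Finset.subset_insert _ _), fun j hj => ?_, h3⟩
      rcases Finset.mem_insert.1 hj with rfl | hj
      · exact h
      · exact h2 j hj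
    · have h4 : W ⊔ ⨆ j ∈ t, A j ≤ W ⊔ ⨆ j ∈ insert i t, A j := by
        rw [Finset.iSup_insert]
        exact sup_le_sup_left le_sup_right _
      have h5 : A i ≤ W ⊔ ⨆ j ∈ insert i t, A j := by
        rw [Finset.iSup_insert]
        exact le_sup_left.trans le_sup_right
      refine ⟨insert i t, Finset.insert_subset_insert _ h1, fun j hj => ?_, ?_⟩
      · rcases Finset.mem_insert.1 hj with rfl | hj
        · exact h5
        · exact (h2 j hj).trans h4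
      · have h6 := lg_lt h4 fun h7 => h (h5.trans h7)
        rw [Finset.card_insert_of_notMem fun h7 => hi (h1 h7)]
        push_cast
        linarith only [h3, h6]

theorem greedy {ι : Type} (s : Finset ι) (W B : Subgroup G) (A : ι → Subgroup G) (hW : W ≤ B)
    (hA : ∀ i ∈ s, A i ≤ B) :
    ∃ t ⊆ s, (∀ i ∈ s, A i ≤ W ⊔ ⨆ j ∈ t, A j) ∧ (t.card : ℝ) ≤ lg B - lg W := by
  obtain ⟨t, h1, h2, h3⟩ := lg_aux_greedy s W A
  refine ⟨t, h1, h2, h3.trans (sub_le_sub_right (lg_mono ?_) _)⟩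
  exact sup_le hW (iSup₂_le fun j hj => hA j (h1 hj))

theorem card_fiber {α : Type} (H C : Subgroup G) (S : Finset α) (f : G → α)
    (hf : ∀ h ∈ H, f h ∈ S) (hC : ∀ h ∈ H, ∀ h' ∈ H, f h = f h' → h⁻¹ * h' ∈ C) :
    Nat.card H ≤ S.card * Nat.card (H ⊓ C : Subgroup G) := by
  classical
  let r : α → G := fun a => if h : ∃ g ∈ H, f g = a then h.choose else 1
  have hr : ∀ h ∈ H, r (f h) ∈ H ∧ f (r (f h)) = f h := fun h hh => by
    have e : ∃ g ∈ H, f g = f h := ⟨h, hh, rfl⟩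
    simp only [r, dif_pos e]
    exact e.choose_spec
  let φ : H → S × (H ⊓ C : Subgroup G) := fun h =>
    (⟨f h, hf h h.2⟩, ⟨(r (f h))⁻¹ * h, H.mul_mem (H.inv_mem (hr h h.2).1) h.2,
      hC _ (hr h h.2).1 _ h.2 (hr h h.2).2⟩)
  have hφ : Function.Injective φ := fun a b hab => by
    have h1 : f a = f b := congrArg (fun x => (x.1 : α)) hab
    have h2 : (r (f a))⁻¹ * a = (r (f b))⁻¹ * b := congrArg (fun x => (x.2 : G)) hab
    rw [h1] at h2
    exact Subtype.ext (mul_left_cancel h2)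
  have := Nat.card_le_card_of_injective φ hφ
  rwa [Nat.card_prod, Nat.card_eq_fintype_card (α := S), Fintype.card_coe] at this

theorem lg_fiber2 (H C A B A' B' : Subgroup G) (hB : B ≤ A) (hB' : B' ≤ A') (f f' : G → G)
    (hf : ∀ h ∈ H, f h ∈ A) (hf' : ∀ h ∈ H, f' h ∈ A')
    (hC : ∀ h ∈ H, ∀ h' ∈ H, (f h)⁻¹ * f h' ∈ B → (f' h)⁻¹ * f' h' ∈ B' → h⁻¹ * h' ∈ C) :
    lg H - lg (H ⊓ C) ≤ (lg A - lg B) + (lg A' - lg B') := by
  classical
  let F : G → (A ⧸ B.subgroupOf A) × (A' ⧸ B'.subgroupOf A') := fun g =>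
    if h : g ∈ H then (QuotientGroup.mk ⟨f g, hf g h⟩, QuotientGroup.mk ⟨f' g, hf' g h⟩)
    else (QuotientGroup.mk 1, QuotientGroup.mk 1)
  haveI : Fintype ((A ⧸ B.subgroupOf A) × (A' ⧸ B'.subgroupOf A')) := Fintype.ofFinite _
  have h1 := card_fiber H C Finset.univ F (fun _ _ => Finset.mem_univ _) fun h hh h' hh' e => by
    simp only [F, dif_pos hh, dif_pos hh', Prod.mk.injEq, QuotientGroup.eq] at e
    exact hC h hh h' hh' e.1 e.2
  rw [Finset.card_univ, ← Nat.card_eq_fintype_card, Nat.card_prod] at h1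
  have h2 : Nat.card H ≤ B.relIndex A * B'.relIndex A' * Nat.card (H ⊓ C : Subgroup G) := h1
  have h3 := lg_aux_le Nat.card_pos.ne' h2
  have a1 : ((B.relIndex A : ℕ) : ℝ) ≠ 0 := by exact_mod_cast lg_aux_ne B A
  have a2 : ((B'.relIndex A' : ℕ) : ℝ) ≠ 0 := by exact_mod_cast lg_aux_ne B' A'
  rw [Nat.cast_mul, Nat.cast_mul, Real.logb_mul (mul_ne_zero a1 a2) (lg_aux_pos _).ne',
    Real.logb_mul a1 a2] at h3
  rw [lg_aux_sub hB, lg_aux_sub hB', lg, lg]
  linarith only [h3]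

theorem card_le_of_lg (H : Subgroup G) (n : ℕ) (h : lg H ≤ n) : Nat.card H ≤ 2 ^ n := by
  rw [lg, Real.logb_le_iff_le_rpow one_lt_two (lg_aux_pos H), Real.rpow_natCast] at h
  exact_mod_cast h

theorem lg_le_of_card (H H' : Subgroup G) (m n : ℕ) (hm : m ≤ 2 ^ n)
    (h : Nat.card H ≤ m * Nat.card H') : lg H ≤ lg H' + n := by
  have h1 := lg_aux_le Nat.card_pos.ne' (h.trans (Nat.mul_le_mul_right _ hm))
  rw [Nat.cast_mul, Real.logb_mul (by positivity) (lg_aux_pos _).ne', Nat.cast_pow,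
    Real.logb_pow, Nat.cast_ofNat, Real.logb_self_eq_one one_lt_two] at h1
  rw [lg, lg]
  linarith only [h1]

end Pool.Agent.Work.MP_6078fc_co
end

-- merged part: Pool.Agent.Work.MP_6078fc_co.Comm
section
set_option autoImplicit false

namespace Pool.Agent.Work.MP_6078fc_co

open scoped commutatorElement

variable {G : Type} [Group G] [Finite G]

theorem dm_comm (X Y : Subgroup G) : dm X Y = dm Y X := by
  unfold dm
  rw [inf_comm X Y]
  ring

theorem dm_nonneg (X Y : Subgroup G) : 0 ≤ dm X Y := by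
  unfold dm
  have h1 : lg (X ⊓ Y) ≤ lg X := lg_mono inf_le_left
  have h2 : lg (X ⊓ Y) ≤ lg Y := lg_mono inf_le_right
  linarith only [h1, h2]

theorem dm_triangle (X Y Z : Subgroup G) : dm X Z ≤ dm X Y + dm Y Z := by
  unfold dm
  have h1 : lg (X ⊓ Y) + lg (Y ⊓ Z) ≤ lg Y + lg ((X ⊓ Y) ⊓ (Y ⊓ Z)) :=
    lg_L2 inf_le_right inf_le_left
  have h2 : lg ((X ⊓ Y) ⊓ (Y ⊓ Z)) ≤ lg (X ⊓ Z) :=
    lg_mono (le_inf (inf_le_left.trans inf_le_left) (inf_le_right.trans inf_le_right))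
  linarith only [h1, h2]

theorem tri_nonneg (F : ℕ → Subgroup G) (i c B : ℕ) : 0 ≤ tri F i c B := by
  unfold tri
  have := dm_triangle (F i) (F c) (F B)
  linarith

/-- elements of `H` whose commutators with `Y` lie in `Ξ` -/
def comm_aux1 {G : Type} [Group G] (H Ξ Y : Subgroup G) (hΞ : Nm H Ξ) : Subgroup G where
  carrier := {h | h ∈ H ∧ ∀ y ∈ Y, h * y * h⁻¹ * y⁻¹ ∈ Ξ}
  one_mem' := ⟨H.one_mem, fun y _ => by simpa using Ξ.one_mem⟩
  mul_mem' := by
    rintro a b ⟨ha, ha'⟩ ⟨hb, hb'⟩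
    refine ⟨H.mul_mem ha hb, fun y hy => ?_⟩
    have e : a * b * y * (a * b)⁻¹ * y⁻¹
        = (a * (b * y * b⁻¹ * y⁻¹) * a⁻¹) * (a * y * a⁻¹ * y⁻¹) := by group
    rw [e]
    exact Ξ.mul_mem (hΞ a ha _ (hb' y hy)) (ha' y hy)
  inv_mem' := by
    rintro a ⟨ha, ha'⟩
    refine ⟨H.inv_mem ha, fun y hy => ?_⟩
    have e : a⁻¹ * y * a⁻¹⁻¹ * y⁻¹ = a⁻¹ * (a * y * a⁻¹ * y⁻¹)⁻¹ * a⁻¹⁻¹ := by group
    rw [e]
    exact hΞ a⁻¹ (H.inv_mem ha) _ (Ξ.inv_mem (ha' y hy))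

omit [Finite G] in
theorem comm_aux2 (H Ξ Y X : Subgroup G) (hΞ : Nm H Ξ) (hX : X ≤ H) (h : ⁅X, Y⁆ ≤ Ξ) :
    X ≤ comm_aux1 H Ξ Y hΞ := by
  intro a ha
  refine ⟨hX ha, fun y hy => ?_⟩
  have := Subgroup.commutator_le.mp h a ha y hy
  simpa [commutatorElement_def] using this

omit [Finite G] in
theorem comm_aux3 (H Ξ Y X : Subgroup G) (hΞ : Nm H Ξ) (h : X ≤ comm_aux1 H Ξ Y hΞ) :
    ⁅X, Y⁆ ≤ Ξ := by
  refine Subgroup.commutator_le.mpr fun a ha y hy => ?_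
  have := (h ha).2 y hy
  simpa [commutatorElement_def] using this

omit [Finite G] in
/-- commutator bounds pass to suprema (left argument) -/
theorem comm_iSup_left {ι : Sort _} (H Ξ Y : Subgroup G) (hΞ : Nm H Ξ) (X : ι → Subgroup G)
    (hX : ∀ i, X i ≤ H) (h : ∀ i, ⁅X i, Y⁆ ≤ Ξ) : ⁅⨆ i, X i, Y⁆ ≤ Ξ :=
  comm_aux3 H Ξ Y _ hΞ (iSup_le fun i => comm_aux2 H Ξ Y (X i) hΞ (hX i) (h i))

omit [Finite G] in
theorem comm_sup_left (H Ξ Y X X' : Subgroup G) (hΞ : Nm H Ξ) (hX : X ≤ H) (hX' : X' ≤ H)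
    (h : ⁅X, Y⁆ ≤ Ξ) (h' : ⁅X', Y⁆ ≤ Ξ) : ⁅X ⊔ X', Y⁆ ≤ Ξ :=
  comm_aux3 H Ξ Y _ hΞ (sup_le (comm_aux2 H Ξ Y X hΞ hX h) (comm_aux2 H Ξ Y X' hΞ hX' h'))

omit [Finite G] in
theorem Nm.comm {H X Y : Subgroup G} (hX : Nm H X) (hY : Nm H Y) : Nm H ⁅X, Y⁆ := by
  intro h hh a ha
  have key : ⁅X, Y⁆ ≤ (⁅X, Y⁆ : Subgroup G).comap (MulAut.conj h).toMonoidHom := by
    refine Subgroup.commutator_le.mpr fun x hx y hy => ?_
    rw [Subgroup.mem_comap]
    have e : (MulAut.conj h).toMonoidHom ⁅x, y⁆ = ⁅h * x * h⁻¹, h * y * h⁻¹⁆ := by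
      simp only [MulEquiv.coe_toMonoidHom, MulAut.conj_apply, commutatorElement_def]
      group
    rw [e]
    exact Subgroup.commutator_mem_commutator (hX h hh x hx) (hY h hh y hy)
  have := key ha
  rw [Subgroup.mem_comap] at this
  simpa using this

omit [Finite G] in
theorem Nm.comm_le_left {X Y : Subgroup G} (h : Nm Y X) : ⁅X, Y⁆ ≤ X := by
  refine Subgroup.commutator_le.mpr fun x hx y hy => ?_
  have e : ⁅x, y⁆ = x * (y * x⁻¹ * y⁻¹) := by
    simp only [commutatorElement_def]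
    group
  rw [e]
  exact X.mul_mem hx (h y hy _ (X.inv_mem hx))

/-- conjugation action of a normalising subgroup -/
@[reducible] def comm_aux4 {G : Type} [Group G] (P Y : Subgroup G) (hN : Nm P Y) :
    MulAction P Y where
  smul g y := ⟨g.1 * y.1 * g.1⁻¹, hN g.1 g.2 y.1 y.2⟩
  one_smul y := by
    apply Subtype.ext
    show (1 : G) * y.1 * (1 : G)⁻¹ = y.1
    group
  mul_smul a b y := by
    apply Subtype.ext
    show (a.1 * b.1) * y.1 * (a.1 * b.1)⁻¹ = a.1 * (b.1 * y.1 * b.1⁻¹) * a.1⁻¹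
    group

/-- a nontrivial normal subgroup of a `p`-group meets the centre -/
theorem pgroup_center {p : ℕ} (hp : p.Prime) (P Y : Subgroup G) (hP : IsPGroup p P) (hY : Y ≤ P)
    (hN : Nm P Y) (hne : Y ≠ ⊥) : Y ⊓ Cz P ≠ ⊥ := by
  haveI : Fact p.Prime := ⟨hp⟩
  letI : MulAction P Y := comm_aux4 P Y hN
  have hYp : IsPGroup p Y := hP.to_le hY
  have hdvd : p ∣ Nat.card Y := by
    obtain ⟨n, hn⟩ := IsPGroup.iff_card.mp hYp
    rcases n with _ | n
    · exfalso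
      apply hne
      rw [pow_zero] at hn
      exact Subgroup.card_eq_one.mp hn
    · rw [hn]
      exact dvd_pow_self p (Nat.succ_ne_zero n)
  have h1 : (1 : Y) ∈ MulAction.fixedPoints P Y := by
    intro g
    apply Subtype.ext
    show g.1 * (1 : G) * g.1⁻¹ = 1
    group
  obtain ⟨b, hb, hb1⟩ := hP.exists_fixed_point_of_prime_dvd_card_of_fixed_point Y hdvd h1
  intro hbot
  have hmem : b.1 ∈ Y ⊓ Cz P := by
    refine ⟨b.2, ?_⟩
    show b.1 ∈ Subgroup.centralizer (P : Set G)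
    rw [Subgroup.mem_centralizer_iff]
    intro g hg
    have h2 : g * b.1 * g⁻¹ = b.1 := congrArg Subtype.val (hb ⟨g, hg⟩)
    calc g * b.1 = (g * b.1 * g⁻¹) * g := by group
      _ = b.1 * g := by rw [h2]
  rw [hbot, Subgroup.mem_bot] at hmem
  exact hb1 (Subtype.ext hmem.symm)

end Pool.Agent.Work.MP_6078fc_co
end

-- merged part: Pool.Agent.Work.MP_6078fc_co.Graph
section
set_option autoImplicit false

namespace Pool.Agent.Work.MP_6078fc_co

variable {G : Type} {V : Type} [Group G] [MulAction G V] {Γ : SimpleGraph V}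

theorem mem_K {k : ℕ} {x : V} {g : G} : g ∈ K G Γ k x ↔ ∀ y : V, Γ.dist x y ≤ k → g • y = y :=
  Iff.rfl

theorem K_anti {k k' : ℕ} (h : k ≤ k') (x : V) : K G Γ k' x ≤ K G Γ k x := by
  exact fun g hg y hy => hg y (hy.trans h)

theorem Setup.dist_smul (h : Setup G Γ) (g : G) (x y : V) :
    Γ.dist (g • x) (g • y) = Γ.dist x y := by
  have key : ∀ (g : G) (x y : V), Γ.dist (g • x) (g • y) ≤ Γ.dist x y := by
    intro g x y
    obtain ⟨p, hp⟩ := h.conn.exists_walk_length_eq_dist x y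
    let f : Γ →g Γ := ⟨fun v => g • v, fun {a b} hab => h.adj g a b hab⟩
    have := SimpleGraph.dist_le (p.map f)
    rwa [SimpleGraph.Walk.length_map, hp] at this
  refine le_antisymm (key g x y) ?_
  have := key g⁻¹ (g • x) (g • y)
  rwa [inv_smul_smul, inv_smul_smul] at this

theorem Setup.K_shift (h : Setup G Γ) {k k' : ℕ} {x y : V} (hk : Γ.dist x y + k ≤ k') :
    K G Γ k' x ≤ K G Γ k y := by
  intro g hg z hz
  refine hg z ?_
  have := h.conn.dist_triangle (u := x) (v := y) (w := z)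
  omega

theorem Setup.mem_K_zero (h : Setup G Γ) {x : V} {g : G} : g ∈ K G Γ 0 x ↔ g • x = x := by
  refine ⟨fun hg => hg x (by simp), fun hg y hy => ?_⟩
  have : x = y := h.conn.dist_eq_zero_iff.1 (Nat.le_zero.1 hy)
  rw [← this, hg]

theorem Setup.mem_K_one (h : Setup G Γ) {x : V} {g : G} :
    g ∈ K G Γ 1 x ↔ g • x = x ∧ ∀ y : V, Γ.Adj x y → g • y = y := by
  refine ⟨fun hg => ⟨hg x (by simp), fun y hy => hg y ?_⟩, fun hg y hy => ?_⟩
  · exact (SimpleGraph.dist_eq_one_iff_adj.2 hy).le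
  · rcases Nat.le_one_iff_eq_zero_or_eq_one.1 hy with h0 | h1
    · rw [← h.conn.dist_eq_zero_iff.1 h0, hg.1]
    · exact hg.2 y (SimpleGraph.dist_eq_one_iff_adj.1 h1)

theorem Setup.mem_K_succ (h : Setup G Γ) {k : ℕ} {x : V} {g : G}
    (hg : ∀ y : V, Γ.dist x y ≤ k → g ∈ K G Γ 1 y) : g ∈ K G Γ (k + 1) x := by
  intro z hz
  obtain ⟨p, hp⟩ := h.conn.exists_walk_length_eq_dist z x
  cases p with
  | nil => exact hg x (by simp) x (by simp)
  | cons hadj q =>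
    rename_i y
    rw [SimpleGraph.Walk.length_cons, SimpleGraph.dist_comm] at hp
    have h1 := SimpleGraph.dist_le q
    rw [SimpleGraph.dist_comm] at h1
    exact hg y (by omega) z (SimpleGraph.dist_eq_one_iff_adj.2 hadj.symm).le

theorem Setup.exists_vertex (h : Setup G Γ) {k : ℕ} {x : V} {g : G} (hg : g ∈ K G Γ k x)
    (hg' : g ∉ K G Γ (k + 1) x) : ∃ v : V, Γ.dist x v ≤ k ∧ g ∈ K G Γ 0 v ∧ g ∉ K G Γ 1 v := by
  by_contra hne
  refine hg' (h.mem_K_succ fun y hy => ?_)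
  by_contra hy'
  exact hne ⟨y, hy, h.mem_K_zero.2 (hg y hy), hy'⟩

theorem Setup.dist_path (h : Setup G Γ) (x : ℕ → V) (hx : ∀ i, Γ.dist (x i) (x (i + 1)) ≤ 1)
    {i k : ℕ} (hik : i ≤ k) : Γ.dist (x i) (x k) ≤ k - i ∧ Γ.dist (x k) (x i) ≤ k - i := by
  have key : Γ.dist (x i) (x k) ≤ k - i := by
    induction k, hik using Nat.le_induction with
    | base => simp
    | succ k hik ih =>
      have h1 := h.conn.dist_triangle (u := x i) (v := x k) (w := x (k + 1))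
      have h2 := hx k
      omega
  exact ⟨key, by rwa [SimpleGraph.dist_comm]⟩

theorem Setup.eqv_K (h : Setup G Γ) (k : ℕ) : Eqv (K G Γ k) := by
  intro g x a ha y hy
  have h1 : Γ.dist x (g⁻¹ • y) ≤ k := by
    rwa [← h.dist_smul g, smul_inv_smul]
  rw [mul_smul, mul_smul, ha _ h1, smul_inv_smul]

theorem graph_eqv_iff {F : V → Subgroup G} :
    Eqv F ↔ ∀ (g : G) (x : V), (F x).map (MulAut.conj g).toMonoidHom ≤ F (g • x) := by
  constructor
  · rintro hF g x _ ⟨a, ha, rfl⟩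
    exact hF g x a ha
  · exact fun hF g x a ha => hF g x ⟨a, ha, rfl⟩

theorem Eqv.inf {F F' : V → Subgroup G} (hF : Eqv F) (hF' : Eqv F') :
    Eqv (fun x => F x ⊓ F' x) := by
  exact fun g x a ha => ⟨hF g x a ha.1, hF' g x a ha.2⟩

theorem Eqv.cz {F : V → Subgroup G} (hF : Eqv F) : Eqv (fun x => Cz (F x)) := by
  intro g x a ha
  rw [Subgroup.mem_centralizer_iff] at ha ⊢
  intro b hb
  have h1 := hF g⁻¹ (g • x) b hb
  rw [inv_smul_smul, inv_inv] at h1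
  have h2 := ha _ h1
  calc b * (g * a * g⁻¹) = g * (g⁻¹ * b * g * a) * g⁻¹ := by group
    _ = g * (a * (g⁻¹ * b * g)) * g⁻¹ := by rw [h2]
    _ = g * a * g⁻¹ * b := by group

theorem Eqv.comm {F F' : V → Subgroup G} (hF : Eqv F) (hF' : Eqv F') :
    Eqv (fun x => ⁅F x, F' x⁆) := by
  rw [graph_eqv_iff] at hF hF' ⊢
  intro g x
  rw [Subgroup.map_commutator]
  exact Subgroup.commutator_mono (hF g x) (hF' g x)

theorem eqv_bot : Eqv (fun _ : V => (⊥ : Subgroup G)) := by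
  intro g x a ha
  rw [Subgroup.mem_bot] at ha ⊢
  rw [ha, mul_one, mul_inv_cancel]

theorem Setup.eqv_D (h : Setup G Γ) : Eqv (D G Γ) := by
  exact (h.eqv_K 2).inf (h.eqv_K 2).cz

theorem Setup.eqv_U (h : Setup G Γ) (s : ℕ) : Eqv (U G Γ s) := by
  have hD := graph_eqv_iff.1 h.eqv_D
  rw [graph_eqv_iff]
  intro g x
  rw [U, U, Subgroup.map_iSup]
  refine iSup_le fun y => (hD g y.1).trans ?_
  exact le_iSup (fun y : {y : V // Γ.dist (g • x) y < s} => D G Γ y.1)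
    ⟨g • y.1, by rw [h.dist_smul]; exact y.2⟩

theorem Setup.nm (h : Setup G Γ) {F : V → Subgroup G} (hF : Eqv F) (x : V) :
    Nm (K G Γ 0 x) (F x) := by
  intro g hg a ha
  have := hF g x a ha
  rwa [h.mem_K_zero.1 hg] at this

theorem Setup.le_transfer (h : Setup G Γ) {F F' : V → Subgroup G} (hF : Eqv F) (hF' : Eqv F')
    {x : V} (hx : F x ≤ F' x) (y : V) : F y ≤ F' y := by
  obtain ⟨g, rfl⟩ := h.vt x y
  intro a ha
  have h1 := hF g⁻¹ (g • x) a ha
  rw [inv_smul_smul] at h1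
  have h2 := hF' g x _ (hx h1)
  have e : g * (g⁻¹ * a * g⁻¹⁻¹) * g⁻¹ = a := by group
  rwa [e] at h2

theorem Setup.lg_eq [Finite G] (h : Setup G Γ) {F : V → Subgroup G} (hF : Eqv F) (x y : V) :
    lg (F x) = lg (F y) := by
  have key : ∀ x y : V, Nat.card (F x) ≤ Nat.card (F y) := by
    intro x y
    obtain ⟨g, rfl⟩ := h.vt x y
    refine Nat.card_le_card_of_injective
      (fun a : F x => (⟨g * a * g⁻¹, hF g x a a.2⟩ : F (g • x))) fun a b hab => ?_
    have := congrArg Subtype.val hab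
    exact Subtype.ext (mul_left_cancel (mul_right_cancel this))
  rw [lg, lg, le_antisymm (key x y) (key y x)]

theorem Setup.eq_bot_of_adj (h : Setup G Γ) (F : V → Subgroup G) (hF : ∀ x, F x ≤ K G Γ 0 x)
    (hadj : ∀ x y, Γ.Adj x y → F x ≤ F y) (x : V) : F x = ⊥ := by
  have key : ∀ {u v : V} (p : Γ.Walk u v), F u ≤ F v := by
    intro u v p
    induction p with
    | nil => exact le_rfl
    | cons hab _ ih => exact (hadj _ _ hab).trans ih
  rw [eq_bot_iff]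
  intro g hg
  rw [Subgroup.mem_bot]
  refine h.faith g fun v => ?_
  obtain ⟨p⟩ := h.conn.preconnected x v
  exact h.mem_K_zero.1 (hF v (key p hg))

theorem Setup.exists_adj (h : Setup G Γ) {x : V} (hx : K G Γ 0 x ≠ ⊥) : ∃ y, Γ.Adj x y := by
  by_contra hne
  refine hx (eq_bot_iff.2 fun g hg => Subgroup.mem_bot.2 (h.faith g fun v => ?_))
  obtain ⟨p⟩ := h.conn.preconnected x v
  cases p with
  | nil => exact h.mem_K_zero.1 hg
  | cons hab _ => exact absurd ⟨_, hab⟩ hne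

theorem Setup.exists_K_bot [Finite V] (h : Setup G Γ) : ∃ k, ∀ x : V, K G Γ k x = ⊥ := by
  obtain ⟨k, hk⟩ := (Set.finite_range fun p : V × V => Γ.dist p.1 p.2).bddAbove
  refine ⟨k, fun x => eq_bot_iff.2 fun g hg => Subgroup.mem_bot.2 (h.faith g fun v => ?_)⟩
  exact hg v (hk ⟨(x, v), rfl⟩)

end Pool.Agent.Work.MP_6078fc_co
end

-- merged part: Pool.Agent.Work.MP_6078fc_co.Crit
section
set_option autoImplicit false

namespace Pool.Agent.Work.MP_6078fc_co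

variable {G : Type} {V : Type} [Group G] [MulAction G V] {Γ : SimpleGraph V}

theorem crit_aux_nm {H X : Subgroup G} (h : Nm H X) : H ≤ Subgroup.normalizer (X : Set G) :=
  fun k hk => Subgroup.mem_normalizer_iff.2 fun a => ⟨h k hk a, fun ha => by
    simpa [mul_assoc] using h k⁻¹ (inv_mem hk) _ ha⟩

theorem Setup.lemma0 (h : Setup G Γ) {u v : V} (huv : Γ.Adj u v) (X Hu Hv : Subgroup G)
    (hXu : X ≤ K G Γ 0 u) (hXv : X ≤ K G Γ 0 v) (hu : Nm Hu X) (hv : Nm Hv X)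
    (hHu : Hu ≤ K G Γ 0 u) (hHv : Hv ≤ K G Γ 0 v) (tu : Tr Γ Hu u) (tv : Tr Γ Hv v) : X = ⊥ := by
  have hN : ∀ n ∈ Hu ⊔ Hv, ∀ a ∈ X, n⁻¹ * a * n ∈ X := fun n hn a ha => by
    have h1 : n⁻¹ ∈ Subgroup.normalizer (X : Set G) :=
      inv_mem (sup_le (crit_aux_nm hu) (crit_aux_nm hv) hn)
    simpa using (Subgroup.mem_normalizer_iff.1 h1 a).1 ha
  have hw : ∀ w : V, ∃ n ∈ Hu ⊔ Hv, w = n • u ∨ w = n • v := fun w => by
    have hr := (SimpleGraph.reachable_iff_reflTransGen u w).1 (h.conn.preconnected u w)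
    induction hr with
    | refl => exact ⟨1, one_mem _, Or.inl (one_smul G u).symm⟩
    | tail _ hadj ih =>
      obtain ⟨n, hn, rfl | rfl⟩ := ih
      · have h1 := h.adj n⁻¹ _ _ hadj
        rw [inv_smul_smul] at h1
        obtain ⟨k, hk, e⟩ := tu v _ huv h1
        exact ⟨n * k, mul_mem hn (Subgroup.mem_sup_left hk),
          Or.inr (by rw [mul_smul, e, smul_inv_smul])⟩
      · have h1 := h.adj n⁻¹ _ _ hadj
        rw [inv_smul_smul] at h1
        obtain ⟨k, hk, e⟩ := tv u _ huv.symm h1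
        exact ⟨n * k, mul_mem hn (Subgroup.mem_sup_right hk),
          Or.inl (by rw [mul_smul, e, smul_inv_smul])⟩
  refine (Subgroup.eq_bot_iff_forall X).2 fun a ha => h.faith a fun w => ?_
  obtain ⟨n, hn, rfl | rfl⟩ := hw w
  · have h1 := h.mem_K_zero.1 (hXu (hN n hn a ha))
    rwa [mul_smul, mul_smul, inv_smul_eq_iff] at h1
  · have h1 := h.mem_K_zero.1 (hXv (hN n hn a ha))
    rwa [mul_smul, mul_smul, inv_smul_eq_iff] at h1

/-- the elements of the stabiliser of `x` that act trivially on the section `A x / B x` -/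
def critH (h : Setup G Γ) {A B : V → Subgroup G} (hA : Eqv A) (hB : Eqv B) (x : V) :
    Subgroup G where
  carrier := {g | g ∈ K G Γ 0 x ∧ ∀ a ∈ A x, g * a * g⁻¹ * a⁻¹ ∈ B x}
  one_mem' := ⟨one_mem _, fun a _ => by simp⟩
  mul_mem' := fun {g k} hg hk => ⟨mul_mem hg.1 hk.1, fun a ha => by
    have h1 := mul_mem (h.nm hB x g hg.1 _ (hk.2 a ha)) (hg.2 a ha)
    simpa [mul_assoc] using h1⟩
  inv_mem' := fun {g} hg => ⟨inv_mem hg.1, fun a ha => by
    have h1 := inv_mem (hg.2 _ (h.nm hA x g⁻¹ (inv_mem hg.1) a ha))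
    simpa [mul_assoc] using h1⟩

theorem crit_aux_eqv (h : Setup G Γ) {A B : V → Subgroup G} (hA : Eqv A) (hB : Eqv B) :
    Eqv (critH h hA hB) := fun g x c hc => ⟨h.eqv_K 0 g x c hc.1, fun a ha => by
  have h1 := hA g⁻¹ _ a ha
  rw [inv_smul_smul] at h1
  have h2 := hB g x _ (hc.2 _ h1)
  simpa [mul_assoc] using h2⟩

/-- either the elements acting trivially on the section lie in `K 1`, or they act transitively everywhere -/
theorem Setup.dichotomy (h : Setup G Γ) {A B : V → Subgroup G} (hA : Eqv A) (hB : Eqv B) :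
    (∀ x, ∀ g ∈ K G Γ 0 x, (∀ a ∈ A x, g * a * g⁻¹ * a⁻¹ ∈ B x) → g ∈ K G Γ 1 x) ∨
    (∀ x, ∃ H : Subgroup G, H ≤ K G Γ 0 x ∧ Tr Γ H x ∧
      ∀ g ∈ H, ∀ a ∈ A x, g * a * g⁻¹ * a⁻¹ ∈ B x) := by
  by_cases hc : ∀ x, critH h hA hB x ≤ K G Γ 1 x
  · exact Or.inl fun x g hg hg' => hc x ⟨hg, hg'⟩
  · refine Or.inr fun x => ⟨critH h hA hB x, fun g hg => hg.1, ?_, fun g hg => hg.2⟩
    rcases h.qp x (critH h hA hB x) (fun n hn => h.mem_K_zero.1 hn.1)
      (fun g hg n hn => h.nm (crit_aux_eqv h hA hB) x g (h.mem_K_zero.2 hg) n hn) with h1 | h1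
    · exact absurd (h.le_transfer (crit_aux_eqv h hA hB) (h.eqv_K 1) (x := x)
        fun n hn => h.mem_K_one.2 ⟨h.mem_K_zero.1 hn.1, h1 n hn⟩) hc
    · exact h1

theorem Setup.crit (h : Setup G Γ) {A B : V → Subgroup G} (hA : Eqv A) (hB : Eqv B)
    (hA0 : ∀ x, A x ≤ K G Γ 0 x) {u v : V} (huv : Γ.Adj u v) (X : Subgroup G) (hX : X ≠ ⊥)
    (hBu : B u ≤ X) (hBv : B v ≤ X) (hAu : X ≤ A u) (hAv : X ≤ A v)
    (x : V) (g : G) (hg : g ∈ K G Γ 0 x) (hc : ∀ a ∈ A x, g * a * g⁻¹ * a⁻¹ ∈ B x) :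
    g ∈ K G Γ 1 x := by
  rcases h.dichotomy hA hB with h1 | h1
  · exact h1 x g hg hc
  · obtain ⟨Hu, u1, u2, u3⟩ := h1 u
    obtain ⟨Hv, v1, v2, v3⟩ := h1 v
    refine absurd (h.lemma0 huv X Hu Hv (hAu.trans (hA0 u)) (hAv.trans (hA0 v))
      (fun k hk a ha => ?_) (fun k hk a ha => ?_) u1 v1 u2 v2) hX
    · simpa using X.mul_mem (hBu (u3 k hk a (hAu ha))) ha
    · simpa using X.mul_mem (hBv (v3 k hk a (hAv ha))) ha

end Pool.Agent.Work.MP_6078fc_co
end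

-- merged part: Pool.Agent.Work.MP_6078fc_co.LemA
section
set_option autoImplicit false

namespace Pool.Agent.Work.MP_6078fc_co

variable {G : Type} {V : Type} [Group G] [Finite G] [MulAction G V] {Γ : SimpleGraph V}

omit [Finite G] in
theorem lemA_dist_adj {u v : V} (huv : Γ.Adj u v) : Γ.dist u v = 1 :=
  SimpleGraph.dist_eq_one_iff_adj.mpr huv

omit [Finite G] in
theorem lemA_succ_le (h : Setup G Γ) {u v : V} (huv : Γ.Adj u v) (s : ℕ) :
    K G Γ (s + 1) u ≤ K G Γ s v :=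
  h.K_shift (by rw [lemA_dist_adj huv]; omega)

omit [Finite G] in
/-- an element of `K 0` outside `K 1` acts nontrivially on each section above the last level -/
theorem lemA_exists (h : Setup G Γ) {b s : ℕ} (hb : ∀ x : V, K G Γ b x ≠ ⊥) (hs : s < b) {c : V}
    {g : G} (hg : g ∈ K G Γ 0 c) (hg' : g ∉ K G Γ 1 c) :
    ∃ a ∈ K G Γ s c, g * a * g⁻¹ * a⁻¹ ∉ K G Γ (s + 1) c := by
  by_contra hcon
  push Not at hcon
  have h0 : K G Γ 0 c ≠ ⊥ := fun h0 => hb c (le_bot_iff.mp (h0 ▸ K_anti (Nat.zero_le b) c))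
  obtain ⟨v, hv⟩ := h.exists_adj h0
  have h1 : K G Γ (s + 1) c ≤ K G Γ s c ⊓ K G Γ s v :=
    le_inf (K_anti (Nat.le_succ s) c) (lemA_succ_le h hv s)
  have h2 : K G Γ (s + 1) v ≤ K G Γ s c ⊓ K G Γ s v :=
    le_inf (lemA_succ_le h hv.symm s) (K_anti (Nat.le_succ s) v)
  have hX : K G Γ s c ⊓ K G Γ s v ≠ ⊥ := fun hX =>
    hb c (le_bot_iff.mp (hX ▸ (K_anti (Nat.succ_le_of_lt hs) c).trans h1))
  exact hg' (h.crit (h.eqv_K s) (h.eqv_K (s + 1)) (fun x => K_anti (Nat.zero_le s) x) hv _ hX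
    h1 h2 inf_le_left inf_le_right c g hg hcon)

omit [Finite G] in
theorem lemA_not_le (h : Setup G Γ) {b s : ℕ} (hb : ∀ x : V, K G Γ b x ≠ ⊥) (hs : s < b) {c : V}
    {g : G} (hg : g ∈ K G Γ 0 c) (hg' : g ∉ K G Γ 1 c) :
    ¬ K G Γ s c ≤ (K G Γ s c ⊓ Ce g) ⊔ K G Γ (s + 1) c := by
  intro hle
  obtain ⟨a, ha, hna⟩ := lemA_exists h hb hs hg hg'
  have hN : Nm (K G Γ 0 c) (K G Γ (s + 1) c) := h.nm (h.eqv_K (s + 1)) c
  let T : Subgroup G :=
    { carrier := {a | a ∈ K G Γ 0 c ∧ g * a * g⁻¹ * a⁻¹ ∈ K G Γ (s + 1) c}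
      one_mem' := ⟨one_mem _, by simp⟩
      mul_mem' := by
        rintro a a' ⟨ha0, ha1⟩ ⟨hb0, hb1⟩
        refine ⟨mul_mem ha0 hb0, ?_⟩
        have := mul_mem ha1 (hN a ha0 _ hb1)
        have e : g * (a * a') * g⁻¹ * (a * a')⁻¹ =
            g * a * g⁻¹ * a⁻¹ * (a * (g * a' * g⁻¹ * a'⁻¹) * a⁻¹) := by group
        rw [e]; exact this
      inv_mem' := by
        rintro a ⟨ha0, ha1⟩
        refine ⟨inv_mem ha0, ?_⟩
        have := hN a⁻¹ (inv_mem ha0) _ (inv_mem ha1)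
        have e : g * a⁻¹ * g⁻¹ * a⁻¹⁻¹ = a⁻¹ * (g * a * g⁻¹ * a⁻¹)⁻¹ * a⁻¹⁻¹ := by group
        rw [e]; exact this }
  have hT : (K G Γ s c ⊓ Ce g) ⊔ K G Γ (s + 1) c ≤ T := by
    refine sup_le ?_ ?_
    · rintro a ⟨ha0, ha1⟩
      refine ⟨K_anti (Nat.zero_le s) c ha0, ?_⟩
      have hc : g * a = a * g := Subgroup.mem_centralizer_iff.mp ha1 g rfl
      have e : g * a * g⁻¹ * a⁻¹ = 1 := by rw [hc]; group
      rw [e]; exact one_mem _
    · intro a ha1
      exact ⟨K_anti (Nat.zero_le _) c ha1, mul_mem (hN g hg a ha1) (inv_mem ha1)⟩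
  exact hna (hT (hle ha)).2

theorem lemA_step (h : Setup G Γ) {b s : ℕ} (hb : ∀ x : V, K G Γ b x ≠ ⊥) (hs : s < b) {c : V}
    {g : G} (hg : g ∈ K G Γ 0 c) (hg' : g ∉ K G Γ 1 c) :
    lg (K G Γ (s + 1) c) - lg (K G Γ (s + 1) c ⊓ Ce g) + 1 ≤
      lg (K G Γ s c) - lg (K G Γ s c ⊓ Ce g) := by
  have hle : (K G Γ s c ⊓ Ce g) ⊔ K G Γ (s + 1) c ≤ K G Γ s c :=
    sup_le inf_le_left (K_anti (Nat.le_succ s) c)
  have h1 := lg_lt hle (lemA_not_le h hb hs hg hg')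
  have h2 := lg_L2 (X := K G Γ s c ⊓ Ce g) (Y := K G Γ (s + 1) c) le_sup_left le_sup_right
  have h3 : lg (K G Γ s c ⊓ Ce g ⊓ K G Γ (s + 1) c) ≤ lg (K G Γ (s + 1) c ⊓ Ce g) :=
    lg_mono (le_inf inf_le_right (inf_le_left.trans inf_le_right))
  linarith only [h1, h2, h3]

theorem Setup.lemmaA (h : Setup G Γ) {b t : ℕ} (hb : ∀ x : V, K G Γ b x ≠ ⊥) (ht : t ≤ b) {c : V}
    {g : G} (hg : g ∈ K G Γ 0 c) (hg' : g ∉ K G Γ 1 c) :
    (b : ℝ) - t ≤ lg (K G Γ t c) - lg (K G Γ t c ⊓ Ce g) := by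
  induction ht using Nat.decreasingInduction with
  | self =>
    have := lg_mono (inf_le_left : K G Γ b c ⊓ Ce g ≤ K G Γ b c)
    linarith only [this]
  | of_succ k hk ih =>
    have := lemA_step h hb hk hg hg'
    push_cast at ih
    linarith only [this, ih]

/-- an element with few conjugates is deep -/
theorem Setup.deep_of_few (h : Setup G Γ) {b f : ℕ} (hb : ∀ x : V, K G Γ b x ≠ ⊥) {x : V} {y : G}
    (hy : y ∈ K G Γ 0 x) (hf : lg (K G Γ 0 x) - lg (K G Γ 0 x ⊓ Ce y) ≤ f) :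
    y ∈ K G Γ (b - f) x := by
  have key : ∀ δ : ℕ, δ ≤ b - f → y ∈ K G Γ δ x := by
    intro δ
    induction δ with
    | zero => exact fun _ => hy
    | succ δ ih =>
      intro hδ
      have hyδ := ih (by omega)
      by_contra hn
      obtain ⟨v, hv, hv0, hv1⟩ := h.exists_vertex hyδ hn
      have hle : K G Γ δ v ≤ K G Γ 0 x := h.K_shift (by rw [SimpleGraph.dist_comm]; omega)
      have h1 := co_mono (Ce y) hle
      have h2 := h.lemmaA hb (show δ ≤ b by omega) hv0 hv1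
      have h3 : ((δ + f + 1 : ℕ) : ℝ) ≤ b := by exact_mod_cast (show δ + f + 1 ≤ b by omega)
      push_cast at h3
      linarith only [hf, h1, h2, h3]
  exact key _ le_rfl

theorem Setup.K_succ_ne (h : Setup G Γ) {b t : ℕ} (hb : ∀ x : V, K G Γ b x ≠ ⊥) (ht : t ≤ b)
    (x : V) : ¬ K G Γ t x ≤ K G Γ (t + 1) x := by
  intro hle
  have hall : ∀ y, K G Γ t y ≤ K G Γ (t + 1) y :=
    h.le_transfer (h.eqv_K t) (h.eqv_K (t + 1)) hle
  have hbot : K G Γ t x = ⊥ :=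
    h.eq_bot_of_adj (K G Γ t) (fun y => K_anti (Nat.zero_le t) y)
      (fun u v huv => (hall u).trans (lemA_succ_le h huv t)) x
  exact hb x (le_bot_iff.mp (hbot ▸ K_anti ht x))

end Pool.Agent.Work.MP_6078fc_co
end

-- merged part: Pool.Agent.Work.MP_6078fc_co.Mass
section
set_option autoImplicit false

namespace Pool.Agent.Work.MP_6078fc_co

variable {G : Type} {V : Type} [Group G] [Finite G] [Finite V] [MulAction G V] {Γ : SimpleGraph V}
  {e b : ℕ}

omit [Finite G] [Finite V] in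
theorem mass_mid (h : Setup G Γ) (t n : ℕ) (x y : V) (hxy : Γ.dist x y ≤ t + n) :
    ∃ z : V, Γ.dist x z ≤ t ∧ Γ.dist z y ≤ n := by
  obtain ⟨p, hp⟩ := h.conn.exists_walk_length_eq_dist x y
  refine ⟨p.getVert t, ?_, ?_⟩
  · have h1 := SimpleGraph.dist_le (p.take t)
    rw [SimpleGraph.Walk.take_length] at h1
    exact h1.trans (min_le_left _ _)
  · have h1 := SimpleGraph.dist_le (p.drop t)
    rw [SimpleGraph.Walk.drop_length] at h1
    omega

omit [Finite G] [Finite V] in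
theorem mass_adj_dist {u v : V} (huv : Γ.Adj u v) : Γ.dist u v ≤ 1 :=
  (SimpleGraph.dist_eq_one_iff_adj.2 huv).le

theorem Setup.D_inf_ne (h : Setup G Γ)
    (hp : ∃ p : ℕ, p.Prime ∧
      ∀ u v : V, Γ.Adj u v → IsPGroup p (K G Γ 1 u ⊓ K G Γ 1 v : Subgroup G))
    {u v : V} (huv : Γ.Adj u v) (Y : Subgroup G) (hY : Y ≠ ⊥) (hu : Y ≤ K G Γ 2 u)
    (hv : Y ≤ K G Γ 2 v) (hN : Nm (K G Γ 0 u ⊓ K G Γ 0 v) Y) :
    Y ⊓ (D G Γ u ⊓ D G Γ v) ≠ ⊥ := by
  obtain ⟨p, hpp, hp⟩ := hp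
  have d1 := mass_adj_dist huv
  have d2 := mass_adj_dist huv.symm
  have hu2 : K G Γ 2 u ≤ K G Γ 1 u ⊓ K G Γ 1 v :=
    le_inf (K_anti (by omega) u) (h.K_shift (by omega))
  have hv2 : K G Γ 2 v ≤ K G Γ 1 u ⊓ K G Γ 1 v :=
    le_inf (h.K_shift (by omega)) (K_anti (by omega) v)
  have hN' : Nm (K G Γ 1 u ⊓ K G Γ 1 v) Y := fun g hg a ha =>
    hN g ⟨K_anti (Nat.zero_le 1) u hg.1, K_anti (Nat.zero_le 1) v hg.2⟩ a ha
  have h1 := pgroup_center hpp _ Y (hp u v huv) (hu.trans hu2) hN' hY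
  intro h2
  apply h1
  rw [eq_bot_iff, ← h2]
  intro a ha
  exact ⟨ha.1, ⟨hu ha.1, Subgroup.centralizer_le (by exact_mod_cast hu2) ha.2⟩,
    ⟨hv ha.1, Subgroup.centralizer_le (by exact_mod_cast hv2) ha.2⟩⟩

theorem mass_DD (h : Setup G Γ)
    (hp : ∃ p : ℕ, p.Prime ∧
      ∀ u v : V, Γ.Adj u v → IsPGroup p (K G Γ 1 u ⊓ K G Γ 1 v : Subgroup G))
    (h3 : ∀ x : V, K G Γ 3 x ≠ ⊥) {u v : V} (huv : Γ.Adj u v) :
    D G Γ u ⊓ D G Γ v ≠ ⊥ := by
  have d1 := mass_adj_dist huv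
  have h1 : K G Γ 3 u ≤ K G Γ 2 u ⊓ K G Γ 2 v :=
    le_inf (K_anti (by omega) u) (h.K_shift (by omega))
  have h2 : K G Γ 2 u ⊓ K G Γ 2 v ≠ ⊥ := fun h0 => h3 u (eq_bot_iff.2 (h0 ▸ h1))
  have h4 := h.D_inf_ne hp huv _ h2 inf_le_left inf_le_right (fun g hg a ha =>
    ⟨h.nm (h.eqv_K 2) u g hg.1 a ha.1, h.nm (h.eqv_K 2) v g hg.2 a ha.2⟩)
  intro h0
  apply h4
  rw [h0, inf_bot_eq]

omit [Finite G] [Finite V] in
theorem mass_ex_adj (h : Setup G Γ) (h3 : ∀ x : V, K G Γ 3 x ≠ ⊥) (x : V) : ∃ y, Γ.Adj x y :=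
  h.exists_adj (fun h0 => h3 x (eq_bot_iff.2 (h0 ▸ K_anti (Nat.zero_le 3) x)))

theorem Setup.exists_data (h : Setup G Γ) (he1 : 1 ≤ e)
    (he : ∀ x : V, lg (K G Γ 0 x) ≤ lg (K G Γ 2 x) + e)
    (hp : ∃ p : ℕ, p.Prime ∧
      ∀ u v : V, Γ.Adj u v → IsPGroup p (K G Γ 1 u ⊓ K G Γ 1 v : Subgroup G))
    (h3 : ∀ x : V, K G Γ 3 x ≠ ⊥) : ∃ b, Data G Γ e b := by
  classical
  obtain ⟨x0⟩ := h.conn.nonempty
  obtain ⟨y0, hy0⟩ := mass_ex_adj h h3 x0
  have hD : D G Γ x0 ≠ ⊥ := fun h0 => mass_DD h hp h3 hy0 (by rw [h0, bot_inf_eq])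
  have hex : ∃ k, ¬ D G Γ x0 ≤ K G Γ (k + 1) x0 := by
    obtain ⟨k, hk⟩ := h.exists_K_bot
    refine ⟨k, fun h1 => hD (eq_bot_iff.2 ?_)⟩
    rw [← hk x0]
    exact h1.trans (K_anti (Nat.le_succ k) x0)
  refine ⟨Nat.find hex, h, he1, he, hp, h3, ?_, ?_⟩
  · refine h.le_transfer h.eqv_D (h.eqv_K _) (x := x0) ?_
    rcases Nat.eq_zero_or_pos (Nat.find hex) with h0 | h0
    · rw [h0]
      exact inf_le_left.trans (K_anti (Nat.zero_le 2) x0)
    · have h1 := Nat.find_min hex (m := Nat.find hex - 1) (by omega)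
      rw [not_not, Nat.sub_add_cancel h0] at h1
      exact h1
  · intro x hx
    exact Nat.find_spec hex (h.le_transfer h.eqv_D (h.eqv_K _) hx x0)

theorem Data.two_le (h : Data G Γ e b) : 2 ≤ b := by
  obtain ⟨x0⟩ := h.conn.nonempty
  by_contra h1
  exact h.hb' x0 (inf_le_left.trans (K_anti (by omega) x0))

theorem Data.K_ne (h : Data G Γ e b) (x : V) : K G Γ b x ≠ ⊥ := by
  intro h0
  apply h.hb' x
  have h1 := h.hb x
  rw [h0] at h1
  exact h1.trans bot_le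

theorem Data.cent_D (h : Data G Γ e b) (x : V) : K G Γ 0 x ⊓ Cz (D G Γ x) ≤ K G Γ 1 x := by
  obtain ⟨y, hy⟩ := mass_ex_adj h.toSetup h.K3 x
  intro g hg
  refine h.toSetup.crit h.toSetup.eqv_D eqv_bot
    (fun z => inf_le_left.trans (K_anti (Nat.zero_le 2) z)) hy (D G Γ x ⊓ D G Γ y)
    (mass_DD h.toSetup h.pgrp h.K3 hy) bot_le bot_le inf_le_left inf_le_right x g hg.1 ?_
  intro a ha
  have h1 : a * g = g * a := Subgroup.mem_centralizer_iff.1 hg.2 a ha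
  rw [Subgroup.mem_bot, ← h1]
  group

theorem Data.co_K2 (h : Data G Γ e b) {H : Subgroup G} {x : V} (hH : H ≤ K G Γ 0 x) :
    lg H - lg (H ⊓ K G Γ 2 x) ≤ e := by
  have h1 := co_mono (K G Γ 2 x) hH
  rw [inf_eq_right.2 (K_anti (Nat.zero_le 2) x)] at h1
  have h2 := h.he x
  linarith only [h1, h2]

theorem Data.co_dist (h : Data G Γ e b) (n : ℕ) {H : Subgroup G} {x y : V} (hH : H ≤ K G Γ 0 x)
    (hn : Γ.dist x y ≤ n) : lg H - lg (H ⊓ K G Γ 0 y) ≤ e * n := by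
  induction n generalizing y with
  | zero =>
    have h1 : x = y := (h.conn.dist_eq_zero_iff).1 (Nat.le_zero.1 hn)
    subst h1
    rw [inf_eq_left.2 hH]
    simp
  | succ n ih =>
    obtain ⟨z, hz1, hz2⟩ := mass_mid h.toSetup n 1 x y hn
    have h1 := ih hz1
    have h2 := h.co_K2 (H := H ⊓ K G Γ 0 z) (x := z) inf_le_right
    have h3 : H ⊓ K G Γ 0 z ⊓ K G Γ 2 z ≤ H ⊓ K G Γ 0 y :=
      le_inf (inf_le_left.trans inf_le_left)
        (inf_le_right.trans (h.toSetup.K_shift (by omega)))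
    have h4 := lg_mono h3
    push_cast
    linarith only [h1, h2, h4]

theorem Data.critical (h : Data G Γ e b) (x : V) :
    ∃ (y : V) (a : G), Γ.dist x y ≤ b ∧ a ∈ D G Γ y ∧ a ∈ K G Γ 0 x ∧ a ∉ K G Γ 1 x := by
  have h1 := h.hb' x
  rw [SetLike.not_le_iff_exists] at h1
  obtain ⟨a, ha, ha'⟩ := h1
  obtain ⟨v, hv, h0, h1⟩ := h.toSetup.exists_vertex (h.hb x ha) ha'
  obtain ⟨g, hg⟩ := h.vt v x
  refine ⟨g • x, g * a * g⁻¹, ?_, h.toSetup.eqv_D g x a ha, ?_, ?_⟩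
  · have h2 := h.toSetup.dist_smul g v x
    rw [hg] at h2
    rw [h2, SimpleGraph.dist_comm]
    exact hv
  · have h2 := h.toSetup.eqv_K 0 g v a h0
    rwa [hg] at h2
  · intro h2
    apply h1
    have h3 := h.toSetup.eqv_K 1 g⁻¹ x _ h2
    rw [← hg, inv_smul_smul] at h3
    have h4 : g⁻¹ * (g * a * g⁻¹) * g⁻¹⁻¹ = a := by group
    rwa [h4] at h3

theorem mass_orbit (h : Data G Γ e b) {t : ℕ} {x y : V} (hxy : Γ.dist x y ≤ b) :
    lg (K G Γ t x) - lg (K G Γ t x ⊓ K G Γ 2 y) ≤ e * (((b - t : ℕ) : ℝ) + 1) := by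
  obtain ⟨z, hz1, hz2⟩ := mass_mid h.toSetup t (b - t) x y (by omega)
  have h1 := h.co_dist (b - t) (H := K G Γ t x) (x := z) (h.toSetup.K_shift (by omega)) hz2
  have h2 := h.co_K2 (H := K G Γ t x ⊓ K G Γ 0 y) (x := y) inf_le_right
  have h3 : K G Γ t x ⊓ K G Γ 0 y ⊓ K G Γ 2 y ≤ K G Γ t x ⊓ K G Γ 2 y :=
    le_inf (inf_le_left.trans inf_le_left) inf_le_right
  have h4 := lg_mono h3
  linarith only [h1, h2, h4]

/-- elements acting on the neighbours of `x` like an element of `H` -/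
def massM (Γ : SimpleGraph V) (hadj : ∀ (g : G) (u v : V), Γ.Adj u v → Γ.Adj (g • u) (g • v))
    (x : V) (H : Subgroup G) (hH : ∀ g ∈ H, g • x = x) : Subgroup G where
  carrier := {g | ∃ k ∈ H, ∀ y : V, Γ.Adj x y → g • y = k • y}
  one_mem' := ⟨1, H.one_mem, fun _ _ => rfl⟩
  mul_mem' := by
    rintro g g' ⟨k, hk, h1⟩ ⟨k', hk', h2⟩
    refine ⟨k * k', H.mul_mem hk hk', fun y hy => ?_⟩
    have h3 := hadj k' x y hy
    rw [hH k' hk'] at h3
    rw [mul_smul, mul_smul, h2 y hy, h1 _ h3]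
  inv_mem' := by
    rintro g ⟨k, hk, h1⟩
    refine ⟨k⁻¹, H.inv_mem hk, fun y hy => ?_⟩
    have h3 := hadj k⁻¹ x y hy
    rw [hH k⁻¹ (H.inv_mem hk)] at h3
    rw [inv_smul_eq_iff, h1 _ h3, smul_inv_smul]

theorem mass_H (h : Data G Γ e b) (x : V) :
    ∃ H : Subgroup G, H ≤ K G Γ 0 x ∧ Tr Γ H x ∧ ∀ t : ℕ,
      lg (K G Γ t x) - lg (K G Γ t x ⊓ Cz H) ≤ e * (((b - t : ℕ) : ℝ) + 1) * e := by
  classical
  obtain ⟨y, a, hxy, haD, ha0, ha1⟩ := h.critical x
  let s : Finset G := (Set.toFinite (K G Γ 0 x : Set G)).toFinset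
  have hs : ∀ g, g ∈ s ↔ g ∈ K G Γ 0 x := fun g => by simp [s]
  let A : G → Subgroup G := fun g => Subgroup.zpowers (g * a * g⁻¹)
  have hA : ∀ g ∈ s, A g ≤ K G Γ 0 x := fun g hg =>
    (Subgroup.zpowers_le).2 (h.toSetup.nm (h.toSetup.eqv_K 0) x g ((hs g).1 hg) a ha0)
  obtain ⟨T, hT, hT1, hT2⟩ := greedy s (K G Γ 1 x) (K G Γ 0 x) A (K_anti (Nat.zero_le 1) x) hA
  have hH : (⨆ j ∈ T, A j) ≤ K G Γ 0 x := iSup₂_le fun j hj => hA j (hT hj)
  have hcard : (T.card : ℝ) ≤ e := by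
    have h1 := lg_mono (K_anti (G := G) (Γ := Γ) (show 1 ≤ 2 by omega) x)
    have h2 := h.he x
    linarith only [hT2, h1, h2]
  refine ⟨⨆ j ∈ T, A j, hH, ?_, ?_⟩
  · have hN0 : K G Γ 1 x ⊔ (⨆ j ∈ T, A j) ≤ K G Γ 0 x := sup_le (K_anti (Nat.zero_le 1) x) hH
    have hfix : ∀ g ∈ (⨆ j ∈ T, A j), g • x = x := fun g hg => h.toSetup.mem_K_zero.1 (hH hg)
    rcases h.qp x (K G Γ 1 x ⊔ (⨆ j ∈ T, A j))
      (fun n hn => h.toSetup.mem_K_zero.1 (hN0 hn)) (by
        intro g hg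
        have hg0 : g ∈ K G Γ 0 x := h.toSetup.mem_K_zero.2 hg
        have h1 : K G Γ 1 x ⊔ (⨆ j ∈ T, A j) ≤
            (K G Γ 1 x ⊔ (⨆ j ∈ T, A j)).comap (MulAut.conj g).toMonoidHom := by
          refine sup_le (fun n hn => ?_) (iSup₂_le fun j hj => (Subgroup.zpowers_le).2 ?_)
          · exact (le_sup_left : K G Γ 1 x ≤ _) (h.toSetup.nm (h.toSetup.eqv_K 1) x g hg0 n hn)
          · have h2 := hT1 (g * j) ((hs _).2 ((K G Γ 0 x).mul_mem hg0 ((hs j).1 (hT hj))))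
              (Subgroup.mem_zpowers _)
            have h3 : g * j * a * (g * j)⁻¹ = g * (j * a * j⁻¹) * g⁻¹ := by group
            rw [h3] at h2
            exact h2
        exact fun n hn => h1 hn) with h1 | h1
    · exfalso
      apply ha1
      have h2 := hT1 1 ((hs _).2 (K G Γ 0 x).one_mem) (Subgroup.mem_zpowers _)
      rw [one_mul, inv_one, mul_one] at h2
      exact h.toSetup.mem_K_one.2 ⟨h.toSetup.mem_K_zero.1 ha0, h1 a h2⟩
    · have h2 : K G Γ 1 x ⊔ (⨆ j ∈ T, A j) ≤ massM Γ h.adj x _ hfix := by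
        refine sup_le (fun g hg => ⟨1, Subgroup.one_mem _, fun z hz => ?_⟩)
          (fun g hg => ⟨g, hg, fun _ _ => rfl⟩)
        rw [one_smul]
        exact (h.toSetup.mem_K_one.1 hg).2 z hz
      intro u w hu hw
      obtain ⟨n, hn, hnu⟩ := h1 u w hu hw
      obtain ⟨k, hk, hk'⟩ := h2 hn
      exact ⟨k, hk, by rw [← hk' u hu, hnu]⟩
  · intro t
    have h1 := co_finset T (K G Γ t x) (fun g => Cz (A g)) (e * (((b - t : ℕ) : ℝ) + 1)) (by
      intro g hg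
      have hg0 : g • x = x := h.toSetup.mem_K_zero.1 ((hs g).1 (hT hg))
      have h2 : Γ.dist x (g • y) ≤ b := by
        have h3 := h.toSetup.dist_smul g x y
        rw [hg0] at h3
        omega
      have h3 := mass_orbit h (t := t) h2
      have h4 : K G Γ t x ⊓ K G Γ 2 (g • y) ≤ K G Γ t x ⊓ Cz (A g) := by
        refine inf_le_inf_left _ ?_
        rw [Subgroup.le_centralizer_iff]
        exact (Subgroup.zpowers_le).2 (h.toSetup.eqv_D g y a haD).2
      have h5 := lg_mono h4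
      linarith only [h3, h5])
    have h2 : K G Γ t x ⊓ (⨅ i ∈ T, Cz (A i)) ≤ K G Γ t x ⊓ Cz (⨆ j ∈ T, A j) := by
      refine inf_le_inf_left _ ?_
      rw [Subgroup.le_centralizer_iff]
      refine iSup₂_le fun j hj => ?_
      rw [Subgroup.le_centralizer_iff]
      exact iInf₂_le j hj
    have h3 := lg_mono h2
    have h4 : (e : ℝ) * (((b - t : ℕ) : ℝ) + 1) * T.card ≤ e * (((b - t : ℕ) : ℝ) + 1) * e :=
      mul_le_mul_of_nonneg_left hcard (by positivity)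
    linarith only [h1, h3, h4]

theorem Data.mass (h : Data G Γ e b) {s : ℕ} (hs : 1 ≤ s) (hsb : s ≤ b + 1) (x : V) :
    lg (K G Γ s x) ≤ 2 * (e : ℝ) ^ 2 * ((b : ℝ) - s + 2) := by
  obtain ⟨v, hv⟩ := mass_ex_adj h.toSetup h.K3 x
  obtain ⟨Hu, hu0, hu1, hu2⟩ := mass_H h x
  obtain ⟨Hv, hv0, hv1, hv2⟩ := mass_H h v
  have d1 := mass_adj_dist hv
  have hK : K G Γ s x ≤ K G Γ (s - 1) v := h.toSetup.K_shift (by omega)
  have hnm : ∀ (H X : Subgroup G), X ≤ Cz H → Nm H X := by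
    intro H X hX g hg a ha
    have h1 : g * a = a * g := Subgroup.mem_centralizer_iff.1 (hX ha) g hg
    rw [h1, mul_inv_cancel_right]
    exact ha
  have hX : K G Γ s x ⊓ Cz Hu ⊓ Cz Hv = ⊥ :=
    h.toSetup.lemma0 hv _ Hu Hv
      (inf_le_left.trans (inf_le_left.trans (K_anti (Nat.zero_le _) x)))
      (inf_le_left.trans (inf_le_left.trans (hK.trans (K_anti (Nat.zero_le _) v))))
      (hnm _ _ (inf_le_left.trans inf_le_right)) (hnm _ _ inf_le_right) hu0 hv0 hu1 hv1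
  have h1 := co_mono (H := K G Γ s x ⊓ Cz Hu) (Cz Hv) (inf_le_left.trans hK)
  rw [hX, lg_bot] at h1
  have h2 := hu2 s
  have h3 := hv2 (s - 1)
  have h4 : ((b - s : ℕ) : ℝ) ≤ (b : ℝ) - s + 1 := by
    have h5 : (b - s : ℕ) + s ≤ b + 1 := by omega
    have h6 : (((b - s : ℕ) + s : ℕ) : ℝ) ≤ ((b + 1 : ℕ) : ℝ) := by exact_mod_cast h5
    push_cast at h6
    linarith only [h6]
  have h5 : ((b - (s - 1) : ℕ) : ℝ) ≤ (b : ℝ) - s + 1 := by
    have h5 : (b - (s - 1) : ℕ) + s ≤ b + 1 := by omega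
    have h6 : (((b - (s - 1) : ℕ) + s : ℕ) : ℝ) ≤ ((b + 1 : ℕ) : ℝ) := by exact_mod_cast h5
    push_cast at h6
    linarith only [h6]
  have h6 : (0 : ℝ) ≤ (e : ℝ) ^ 2 := by positivity
  linarith only [h1, h2, h3, h4, h6, h5, mul_le_mul_of_nonneg_left h4 h6, mul_le_mul_of_nonneg_left h5 h6]

end Pool.Agent.Work.MP_6078fc_co
end

-- merged part: Pool.Agent.Work.MP_6078fc_co.Fam
section
set_option autoImplicit false

namespace Pool.Agent.Work.MP_6078fc_co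

variable {G : Type} {V : Type} [Group G] [Finite G] [Finite V] [MulAction G V] {Γ : SimpleGraph V}
  {e b : ℕ}

omit [Finite G] [Finite V] in
theorem U_mono {s s' : ℕ} (h : s ≤ s') (x : V) : U G Γ s x ≤ U G Γ s' x := by
  unfold U
  exact iSup_le fun y => le_iSup_of_le (f := fun y : {y : V // Γ.dist x y < s'} => D G Γ y.1)
    ⟨y.1, lt_of_lt_of_le y.2 h⟩ le_rfl

omit [Finite G] [Finite V] in
theorem U_zero (x : V) : U G Γ 0 x = ⊥ := by
  unfold U
  exact eq_bot_iff.2 (iSup_le fun y => absurd y.2 (Nat.not_lt_zero _))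

omit [Finite G] [Finite V] in
theorem fam_D_le_U {s : ℕ} {x y : V} (hy : Γ.dist x y < s) : D G Γ y ≤ U G Γ s x := by
  unfold U
  exact le_iSup_of_le (f := fun y : {y : V // Γ.dist x y < s} => D G Γ y.1) ⟨y, hy⟩ le_rfl

omit [Finite G] [Finite V] in
theorem fam_U_le {s : ℕ} {x : V} {H : Subgroup G} (hH : ∀ y, Γ.dist x y < s → D G Γ y ≤ H) :
    U G Γ s x ≤ H := by
  unfold U
  exact iSup_le fun y => hH y.1 y.2

omit [Finite G] in
theorem fam_Cz_anti {X Y : Subgroup G} (h : X ≤ Y) : Cz Y ≤ Cz X :=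
  Subgroup.centralizer_le h

omit [Finite G] [Finite V] in
theorem Setup.U_shift (h : Setup G Γ) {s s' : ℕ} {x y : V} (hs : Γ.dist x y + s ≤ s') :
    U G Γ s y ≤ U G Γ s' x := by
  refine fam_U_le fun z hz => fam_D_le_U ?_
  have := h.conn.dist_triangle (u := x) (v := y) (w := z)
  omega

omit [Finite G] [Finite V] in
theorem Setup.K_cent_U (h : Setup G Γ) {s t : ℕ} (hst : s + 1 ≤ t) (x : V) :
    K G Γ t x ≤ Cz (U G Γ s x) := by
  rw [Subgroup.le_centralizer_iff]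
  refine fam_U_le fun y hy => ?_
  exact le_trans (inf_le_right : D G Γ y ≤ Cz (K G Γ 2 y)) (fam_Cz_anti (h.K_shift (by omega)))

omit [Finite G] [Finite V] in
theorem Setup.comm_K_U (h : Setup G Γ) {s t : ℕ} (hst : s + 1 ≤ t) (x : V) :
    ⁅K G Γ t x, U G Γ s x⁆ = ⊥ :=
  Subgroup.commutator_eq_bot_iff_le_centralizer.2 (h.K_cent_U hst x)

theorem Data.U_le_K (h : Data G Γ e b) {s k : ℕ} (hs : s + k ≤ b + 1) (x : V) :
    U G Γ s x ≤ K G Γ k x := by
  refine fam_U_le fun y hy => (h.hb y).trans (h.toSetup.K_shift ?_)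
  rw [SimpleGraph.dist_comm]
  omega

theorem Data.cent_U (h : Data G Γ e b) (s : ℕ) (x : V) :
    K G Γ 0 x ⊓ Cz (U G Γ s x) ≤ K G Γ s x := by
  induction s with
  | zero => exact inf_le_left
  | succ s ih =>
    intro g hg
    have h1 : g ∈ K G Γ s x := ih ⟨hg.1, fam_Cz_anti (U_mono (Nat.le_succ s) x) hg.2⟩
    refine h.toSetup.mem_K_succ fun y hy => h.cent_D y ⟨?_, ?_⟩
    · exact h.toSetup.K_shift (k := 0) (by omega) h1
    · exact fam_Cz_anti (fam_D_le_U (by omega)) hg.2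

theorem Data.lg_U (h : Data G Γ e b) {s : ℕ} (hs : s ≤ b) (x : V) :
    lg (U G Γ s x) ≤ 2 * (e : ℝ) ^ 2 * (s + 1) := by
  have h1 := lg_mono (h.U_le_K (s := s) (k := b + 1 - s) (by omega) x)
  have h2 := h.mass (s := b + 1 - s) (by omega) (by omega) x
  have h3 : ((b + 1 - s : ℕ) : ℝ) = (b : ℝ) + 1 - s := by
    rw [Nat.cast_sub (by omega)]; push_cast; ring
  rw [h3] at h2
  refine h1.trans (h2.trans (le_of_eq ?_))
  ring

theorem Data.fam_step (h : Data G Γ e b) (s : ℕ) (x : V) :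
    lg (K G Γ 0 x ⊓ Cz (U G Γ s x)) - lg (K G Γ 0 x ⊓ Cz (U G Γ (s + 1) x))
      ≤ e * (lg (U G Γ (s + 1) x) - lg (U G Γ s x)) := by
  classical
  have hmem : ∀ y, y ∈ (Set.toFinite {y : V | Γ.dist x y < s + 1}).toFinset ↔
      Γ.dist x y < s + 1 := fun y => by simp
  obtain ⟨t, ht, hA, hc⟩ := greedy (Set.toFinite {y : V | Γ.dist x y < s + 1}).toFinset
    (U G Γ s x) (U G Γ (s + 1) x) (D G Γ) (U_mono (Nat.le_succ s) x)
    (fun i hi => fam_D_le_U ((hmem i).1 hi))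
  have h1 := co_finset t (K G Γ 0 x ⊓ Cz (U G Γ s x)) (fun z => K G Γ 2 z) e fun z hz =>
    h.co_K2 ((h.cent_U s x).trans (h.toSetup.K_shift (k := 0)
      (by have := (hmem z).1 (ht hz); omega)))
  have h2 : (K G Γ 0 x ⊓ Cz (U G Γ s x)) ⊓ ⨅ z ∈ t, K G Γ 2 z
      ≤ K G Γ 0 x ⊓ Cz (U G Γ (s + 1) x) := by
    refine le_inf (inf_le_left.trans inf_le_left) ?_
    rw [Subgroup.le_centralizer_iff]
    refine fam_U_le fun y hy => (hA y ((hmem y).2 hy)).trans (sup_le ?_ ?_)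
    · rw [Subgroup.le_centralizer_iff]
      exact inf_le_left.trans inf_le_right
    · refine iSup_le fun j => iSup_le fun hj => ?_
      refine le_trans (inf_le_right : D G Γ j ≤ Cz (K G Γ 2 j)) (fam_Cz_anti ?_)
      exact inf_le_right.trans (iInf_le_of_le j (iInf_le _ hj))
  have h3 := lg_mono h2
  have h4 := mul_le_mul_of_nonneg_left hc (Nat.cast_nonneg (α := ℝ) e)
  linarith only [h1, h3, h4]

theorem Data.fam_tele (h : Data G Γ e b) {s s' : ℕ} (hs : s ≤ s') (x : V) :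
    lg (K G Γ 0 x ⊓ Cz (U G Γ s x)) - lg (K G Γ 0 x ⊓ Cz (U G Γ s' x))
      ≤ e * (lg (U G Γ s' x) - lg (U G Γ s x)) := by
  induction s', hs using Nat.le_induction with
  | base => simp
  | succ n _ ih =>
    have := h.fam_step n x
    linarith only [ih, this]

omit [Finite G] [Finite V] in
theorem Setup.fam_K_cent_pred (h : Setup G Γ) (t : ℕ) (x : V) :
    K G Γ t x ≤ Cz (U G Γ (t - 1) x) := by
  rcases Nat.eq_zero_or_pos t with rfl | ht
  · rw [Subgroup.le_centralizer_iff, Nat.zero_sub, U_zero]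
    exact bot_le
  · exact h.K_cent_U (by omega) x

theorem Data.top_growth (h : Data G Γ e b) {t t' : ℕ} (ht : t ≤ t') (x : V) :
    lg (K G Γ t x) - lg (K G Γ t' x) ≤ e * (lg (U G Γ t' x) - lg (U G Γ (t - 1) x)) := by
  have h1 := h.fam_tele (s := t - 1) (s' := t') (by omega) x
  have h2 := lg_mono (le_inf (K_anti (Nat.zero_le t) x) (h.toSetup.fam_K_cent_pred t x))
  have h3 := lg_mono (h.cent_U t' x)
  linarith only [h1, h2, h3]

omit [Finite G] in
theorem fam_conj_comm {τ m g g' : G}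
    (h1 : (g' * m * g'⁻¹) * ((g * τ * g⁻¹)⁻¹ * (g' * τ * g'⁻¹))
      = ((g * τ * g⁻¹)⁻¹ * (g' * τ * g'⁻¹)) * (g' * m * g'⁻¹))
    (h2 : ((g * m * g⁻¹)⁻¹ * (g' * m * g'⁻¹)) * (g * τ * g⁻¹)
      = (g * τ * g⁻¹) * ((g * m * g⁻¹)⁻¹ * (g' * m * g'⁻¹))) :
    (τ * m * τ⁻¹ * m⁻¹) * (g⁻¹ * g') = (g⁻¹ * g') * (τ * m * τ⁻¹ * m⁻¹) := by
  have key : ∀ a a' c c' : G, c' * (a⁻¹ * a') = (a⁻¹ * a') * c' →
      (c⁻¹ * c') * a = a * (c⁻¹ * c') → a' * c' * a'⁻¹ * c'⁻¹ = a * c * a⁻¹ * c⁻¹ := by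
    intro a a' c c' k1 k2
    calc a' * c' * a'⁻¹ * c'⁻¹ = a * ((a⁻¹ * a') * c') * a'⁻¹ * c'⁻¹ := by group
      _ = a * (c' * (a⁻¹ * a')) * a'⁻¹ * c'⁻¹ := by rw [k1]
      _ = a * c * a⁻¹ * (a * (c⁻¹ * c')) * a⁻¹ * c'⁻¹ := by group
      _ = a * c * a⁻¹ * ((c⁻¹ * c') * a) * a⁻¹ * c'⁻¹ := by rw [k2]
      _ = a * c * a⁻¹ * c⁻¹ := by group
  have k := key _ _ _ _ h1 h2
  calc (τ * m * τ⁻¹ * m⁻¹) * (g⁻¹ * g')
      = g⁻¹ * ((g * τ * g⁻¹) * (g * m * g⁻¹) * (g * τ * g⁻¹)⁻¹ * (g * m * g⁻¹)⁻¹) * g' := by group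
    _ = g⁻¹ * ((g' * τ * g'⁻¹) * (g' * m * g'⁻¹) * (g' * τ * g'⁻¹)⁻¹ * (g' * m * g'⁻¹)⁻¹) * g' := by
        rw [k]
    _ = (g⁻¹ * g') * (τ * m * τ⁻¹ * m⁻¹) := by group

theorem Data.deep_comm (h : Data G Γ e b) {t t' f : ℕ} (ht : t ≤ t') (ht' : t' ≤ b + 1) (x : V)
    (hf : (1 + (e : ℝ)) * (lg (U G Γ (t' + 1) x) - lg (U G Γ (t - 1) x)) ≤ f) :
    ⁅K G Γ t x, U G Γ t' x⁆ ≤ K G Γ (b - f) x := by
  rw [Subgroup.commutator_le]
  intro τ hτ m hm
  rw [commutatorElement_def]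
  have hτ0 : τ ∈ K G Γ 0 x := K_anti (Nat.zero_le t) x hτ
  have hm0 : m ∈ K G Γ 0 x := h.U_le_K (k := 0) (by omega) x hm
  refine h.toSetup.deep_of_few h.K_ne
    (mul_mem (mul_mem (mul_mem hτ0 hm0) (inv_mem hτ0)) (inv_mem hm0)) ?_
  have nK := h.toSetup.nm (h.toSetup.eqv_K t) x
  have nU := h.toSetup.nm (h.toSetup.eqv_U t') x
  have h1 := lg_fiber2 (K G Γ 0 x) (Ce (τ * m * τ⁻¹ * m⁻¹)) (K G Γ t x) (K G Γ (t' + 1) x)
    (U G Γ t' x) (U G Γ (t - 1) x) (K_anti (by omega) x) (U_mono (by omega) x)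
    (fun g => g * τ * g⁻¹) (fun g => g * m * g⁻¹) (fun g hg => nK g hg τ hτ)
    (fun g hg => nU g hg m hm) (fun g hg g' hg' k1 k2 => by
      rw [Subgroup.mem_centralizer_singleton_iff]
      refine (fam_conj_comm ?_ ?_).symm
      · exact h.toSetup.K_cent_U le_rfl x k1 _ (nU g' hg' m hm)
      · exact h.toSetup.fam_K_cent_pred t x (nK g hg τ hτ) _ k2)
  have h2 := h.top_growth (t := t) (t' := t' + 1) (by omega) x
  have h3 := lg_mono (U_mono (G := G) (Γ := Γ) (Nat.le_succ t') x)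
  linarith only [hf, h1, h2, h3]

end Pool.Agent.Work.MP_6078fc_co
end

-- merged part: Pool.Agent.Work.MP_6078fc_co.Slope
section
set_option autoImplicit false

namespace Pool.Agent.Work.MP_6078fc_co

variable {G : Type} [Group G] [Finite G]

theorem slope_aux0 (B X Y : Subgroup G) :
    0 ≤ lg B + lg (B ⊓ X ⊓ Y) - lg (B ⊓ X) - lg (B ⊓ Y) := by
  have h := lg_L2 (inf_le_left : B ⊓ X ≤ B) (inf_le_left : B ⊓ Y ≤ B)
  have h' : lg (B ⊓ X ⊓ (B ⊓ Y)) ≤ lg (B ⊓ X ⊓ Y) :=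
    lg_mono (le_inf inf_le_left (inf_le_right.trans inf_le_right))
  linarith only [h, h']

theorem slope_aux1 (B X Y : Subgroup G) :
    lg B + lg (B ⊓ X ⊓ Y) - lg (B ⊓ X) - lg (B ⊓ Y) ≤ dm Y B + dm B X - dm Y X := by
  have h := slope_aux0 B X Y
  have h' : lg (B ⊓ X ⊓ Y) ≤ lg (Y ⊓ X) :=
    lg_mono (le_inf inf_le_right (inf_le_left.trans inf_le_right))
  unfold dm
  rw [inf_comm Y B]
  linarith only [h, h']

theorem slope_aux2 (M : ℕ) (B : Subgroup G) (X Y : ℕ → Subgroup G)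
    (hX : ∀ j, j < M → X (j + 1) ≤ X j) (hY : B ≤ Y M) (d : ℕ) : ∀ k, k + d + 1 = M →
    ∃ P : Subgroup G, P ≤ (⨆ j : Fin M, B ⊓ X j ⊓ Y (j + 1)) ∧ P ≤ B ⊓ X k ∧
      lg (B ⊓ X k) - lg P ≤ ∑ j ∈ Finset.Ioc k M,
        (lg B + lg (B ⊓ X j ⊓ Y j) - lg (B ⊓ X j) - lg (B ⊓ Y j)) := by
  induction d with
  | zero =>
    intro k hk
    refine ⟨B ⊓ X k, ?_, le_rfl, ?_⟩
    · refine le_trans ?_ (le_iSup (fun j : Fin M => B ⊓ X j ⊓ Y (j + 1)) ⟨k, by omega⟩)
      refine le_inf le_rfl (inf_le_left.trans ?_)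
      have : k + 1 = M := by omega
      simpa only [this] using hY
    · rw [sub_self]
      exact Finset.sum_nonneg fun j _ => slope_aux0 B (X j) (Y j)
  | succ d ih =>
    intro k hk
    obtain ⟨P, h₁, h₂, h₃⟩ := ih (k + 1) (by omega)
    have hk' : B ⊓ X (k + 1) ≤ B ⊓ X k := inf_le_inf_left B (hX k (by omega))
    refine ⟨P ⊔ (B ⊓ X k ⊓ Y (k + 1)), sup_le h₁
      (le_iSup (fun j : Fin M => B ⊓ X j ⊓ Y (j + 1)) ⟨k, by omega⟩),
      sup_le (h₂.trans hk') inf_le_left, ?_⟩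
    have e : Finset.Ioc k M = insert (k + 1) (Finset.Ioc (k + 1) M) := by
      ext j
      simp only [Finset.mem_Ioc, Finset.mem_insert]
      omega
    rw [e, Finset.sum_insert (by simp)]
    have a₁ := lg_L2 (le_sup_left : P ≤ P ⊔ (B ⊓ X k ⊓ Y (k + 1)))
      (le_sup_right : B ⊓ X k ⊓ Y (k + 1) ≤ P ⊔ (B ⊓ X k ⊓ Y (k + 1)))
    have a₂ : lg (P ⊓ (B ⊓ X k ⊓ Y (k + 1))) ≤ lg (B ⊓ X (k + 1) ⊓ Y (k + 1)) :=
      lg_mono (le_inf (inf_le_left.trans h₂) (inf_le_right.trans inf_le_right))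
    have a₃ := slope_aux0 B (X k) (Y (k + 1))
    linarith only [h₃, a₁, a₂, a₃]

theorem class_lemma (M : ℕ) (hM : 1 ≤ M) (B : Subgroup G) (X Y : ℕ → Subgroup G)
    (hX : ∀ j, j < M → X (j + 1) ≤ X j) (h0 : B ≤ X 0) (hY : B ≤ Y M) :
    lg B - lg (⨆ j : Fin M, B ⊓ X j ⊓ Y (j + 1)) ≤
      ∑ j ∈ Finset.range (M + 1), (dm (Y j) B + dm B (X j) - dm (Y j) (X j)) := by
  obtain ⟨P, h₁, -, h₃⟩ := slope_aux2 M B X Y hX hY (M - 1) 0 (by omega)
  rw [inf_eq_left.2 h0] at h₃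
  have h₄ := lg_mono h₁
  have h₅ : ∑ j ∈ Finset.Ioc 0 M, (lg B + lg (B ⊓ X j ⊓ Y j) - lg (B ⊓ X j) - lg (B ⊓ Y j)) ≤
      ∑ j ∈ Finset.range (M + 1), (lg B + lg (B ⊓ X j ⊓ Y j) - lg (B ⊓ X j) - lg (B ⊓ Y j)) :=
    Finset.sum_le_sum_of_subset_of_nonneg
      (fun j hj => Finset.mem_range.2 (Nat.lt_succ_of_le (Finset.mem_Ioc.1 hj).2))
      fun j _ _ => slope_aux0 B (X j) (Y j)
  have h₆ := Finset.sum_le_sum (s := Finset.range (M + 1))
    fun j _ => slope_aux1 B (X j) (Y j)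
  linarith only [h₃, h₄, h₅, h₆]

open Classical in
theorem slope_aux3 (P A A' : Subgroup G) (h : A' ≤ A) :
    (if ¬ A ≤ (P ⊓ A) ⊔ A' then (1 : ℝ) else 0) ≤
      (lg A - lg (P ⊓ A)) - (lg A' - lg (P ⊓ A')) := by
  have a₁ := lg_L2 (le_sup_left : P ⊓ A ≤ (P ⊓ A) ⊔ A') (le_sup_right : A' ≤ (P ⊓ A) ⊔ A')
  have a₂ : lg (P ⊓ A ⊓ A') ≤ lg (P ⊓ A') :=
    lg_mono (le_inf (inf_le_left.trans inf_le_left) inf_le_right)
  have a₃ : (P ⊓ A) ⊔ A' ≤ A := sup_le inf_le_right h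
  split_ifs with hc
  · have := lg_mono a₃
    linarith only [a₁, a₂, this]
  · have := lg_lt a₃ hc
    linarith

theorem slope_aux4 (B P A : Subgroup G) (hP : P ≤ B) (hA : A ≤ B) :
    0 ≤ lg A - lg (P ⊓ A) ∧ lg A - lg (P ⊓ A) ≤ lg B - lg P := by
  have a₁ := lg_L2 hP hA
  have a₂ : lg (P ⊓ A) ≤ lg A := lg_mono inf_le_right
  constructor <;> linarith only [a₂, a₁]

open Classical in
theorem block_down (Λ : ℕ) (B P : Subgroup G) (A : ℕ → Subgroup G) (hP : P ≤ B) (h0 : A 0 ≤ B)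
    (hA : ∀ q, A (q + 1) ≤ A q) :
    (((Finset.range Λ).filter (fun q => ¬ A q ≤ (P ⊓ A q) ⊔ A (q + 1))).card : ℝ) ≤
      lg B - lg P := by
  rw [Finset.card_filter]
  push_cast
  have h₁ := Finset.sum_le_sum (s := Finset.range Λ)
    fun q _ => slope_aux3 P (A q) (A (q + 1)) (hA q)
  rw [Finset.sum_range_sub' (fun q => lg (A q) - lg (P ⊓ A q))] at h₁
  have h₂ := (slope_aux4 B P (A 0) hP h0).2
  have h₃ : lg (P ⊓ A Λ) ≤ lg (A Λ) := lg_mono inf_le_right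
  linarith only [h₁, h₂, h₃]

open Classical in
theorem block_up (Λ : ℕ) (B P : Subgroup G) (A : ℕ → Subgroup G) (hP : P ≤ B) (h0 : A Λ ≤ B)
    (hA : ∀ q, A q ≤ A (q + 1)) :
    (((Finset.range Λ).filter (fun q => ¬ A (q + 1) ≤ (P ⊓ A (q + 1)) ⊔ A q)).card : ℝ) ≤
      lg B - lg P := by
  rw [Finset.card_filter]
  push_cast
  have h₁ := Finset.sum_le_sum (s := Finset.range Λ)
    fun q _ => slope_aux3 P (A (q + 1)) (A q) (hA q)
  rw [Finset.sum_range_sub (fun q => lg (A q) - lg (P ⊓ A q))] at h₁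
  have h₂ := (slope_aux4 B P (A Λ) hP h0).2
  have h₃ : lg (P ⊓ A 0) ≤ lg (A 0) := lg_mono inf_le_right
  linarith only [h₁, h₂, h₃]

/-- one block serves all indices -/
theorem block_common (Λ : ℕ) (I : Finset ℕ) (B B' : Subgroup G) (P P' : ℕ → Subgroup G)
    (A A' : ℕ → Subgroup G) (hP : ∀ i ∈ I, P i ≤ B) (hP' : ∀ i ∈ I, P' i ≤ B')
    (h0 : A 0 ≤ B) (h0' : A' Λ ≤ B') (hA : ∀ q, A (q + 1) ≤ A q) (hA' : ∀ q, A' q ≤ A' (q + 1))
    (hsum : ∑ i ∈ I, ((lg B - lg (P i)) + (lg B' - lg (P' i))) < Λ) :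
    ∃ q, q < Λ ∧ ∀ i ∈ I, A q ≤ (P i ⊓ A q) ⊔ A (q + 1) ∧
      A' (q + 1) ≤ (P' i ⊓ A' (q + 1)) ⊔ A' q := by
  classical
  by_contra hcon
  let S : ℕ → Finset ℕ := fun i =>
    (Finset.range Λ).filter (fun q => ¬ A q ≤ (P i ⊓ A q) ⊔ A (q + 1))
  let S' : ℕ → Finset ℕ := fun i =>
    (Finset.range Λ).filter (fun q => ¬ A' (q + 1) ≤ (P' i ⊓ A' (q + 1)) ⊔ A' q)
  have hsub : Finset.range Λ ⊆ I.biUnion fun i => S i ∪ S' i := fun q hq => by
    by_contra hq'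
    refine hcon ⟨q, Finset.mem_range.1 hq, fun i hi => ?_⟩
    by_contra hb
    refine hq' (Finset.mem_biUnion.2 ⟨i, hi, Finset.mem_union.2 ?_⟩)
    rcases not_and_or.1 hb with h | h
    · exact Or.inl (Finset.mem_filter.2 ⟨hq, h⟩)
    · exact Or.inr (Finset.mem_filter.2 ⟨hq, h⟩)
  have h₁ : Λ ≤ ∑ i ∈ I, ((S i).card + (S' i).card) := by
    calc Λ = (Finset.range Λ).card := (Finset.card_range Λ).symm
      _ ≤ _ := Finset.card_le_card hsub
      _ ≤ ∑ i ∈ I, (S i ∪ S' i).card := Finset.card_biUnion_le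
      _ ≤ _ := Finset.sum_le_sum fun i _ => Finset.card_union_le _ _
  have h₂ : (Λ : ℝ) ≤ ∑ i ∈ I, (((S i).card : ℝ) + ((S' i).card : ℝ)) := by exact_mod_cast h₁
  have h₃ : ∑ i ∈ I, (((S i).card : ℝ) + ((S' i).card : ℝ)) ≤
      ∑ i ∈ I, ((lg B - lg (P i)) + (lg B' - lg (P' i))) :=
    Finset.sum_le_sum fun i hi => add_le_add
      (by convert block_down Λ B (P i) A (hP i hi) h0 hA)
      (by convert block_up Λ B' (P' i) A' (hP' i hi) h0' hA')
  linarith only [hsum, h₂, h₃]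

/-- an increasing chain inside a small group stalls early -/
theorem chain_stall (B : Subgroup G) (C : ℕ → Subgroup G) (hC : ∀ s, C s ≤ C (s + 1))
    (hB : ∀ s, C s ≤ B) (n : ℕ) (hn : lg B ≤ n) : ∃ s, s ≤ n ∧ C (s + 1) ≤ C s := by
  by_contra hcon
  have h : ∀ s, s ≤ n + 1 → (s : ℝ) ≤ lg (C s) := by
    intro s
    induction s with
    | zero => intro _; simpa using lg_nonneg (C 0)
    | succ s ih =>
      intro hs
      have h₁ := ih (by omega)
      have h₂ := lg_lt (hC s) fun h => hcon ⟨s, by omega, h⟩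
      push_cast
      linarith only [h₁, h₂]
  have h₁ := h (n + 1) le_rfl
  have h₂ := lg_mono (hB (n + 1))
  push_cast at h₁
  linarith

end Pool.Agent.Work.MP_6078fc_co
end

-- merged part: Pool.Agent.Work.MP_6078fc_co.Lines
section
set_option autoImplicit false

namespace Pool.Agent.Work.MP_6078fc_co

theorem la_zero (M i : ℕ) : la M 0 i = 0 := by
  simp [la]

theorem lines_succ (M j i : ℕ) : la M (j + 1) i = la M j i + 2 * ((i + M - 1 - j) / M) := by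
  simp only [la, Finset.sum_range_succ]
  ring

theorem lines_term_mono (M j : ℕ) {i k : ℕ} (hi : i ≤ k) :
    (i + M - 1 - j) / M ≤ (k + M - 1 - j) / M :=
  Nat.div_le_div_right (by omega)

theorem lines_hermite (M : ℕ) (hM : 1 ≤ M) (i : ℕ) :
    ∑ l ∈ Finset.range M, (i + M - 1 - l) / M = i := by
  induction i with
  | zero =>
    apply Finset.sum_eq_zero
    intro l hl
    apply Nat.div_eq_of_lt
    omega
  | succ i ih =>
    obtain ⟨N, rfl⟩ : ∃ N, M = N + 1 := ⟨M - 1, by omega⟩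
    rw [Finset.sum_range_succ] at ih
    rw [Finset.sum_range_succ']
    have e1 : ∑ l ∈ Finset.range N, (i + 1 + (N + 1) - 1 - (l + 1)) / (N + 1) =
        ∑ l ∈ Finset.range N, (i + (N + 1) - 1 - l) / (N + 1) := by
      apply Finset.sum_congr rfl
      intro l hl
      congr 1
      omega
    have e2 : i + 1 + (N + 1) - 1 - 0 = i + (N + 1) := by omega
    have e3 : i + (N + 1) - 1 - N = i := by omega
    rw [e1, e2, Nat.add_div_right _ (by omega)]
    rw [e3] at ih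
    omega

theorem la_top (M i : ℕ) (hM : 1 ≤ M) : la M M i = 2 * i := by
  have := lines_hermite M hM i
  simp only [la]
  rw [this]

theorem la_mono (M : ℕ) {j j' i k : ℕ} (hj : j ≤ j') (hi : i ≤ k) :
    la M j k + la M j' i ≤ la M j' k + la M j i := by
  induction j', hj using Nat.le_induction with
  | base => omega
  | succ j' _ ih =>
    rw [lines_succ, lines_succ]
    have := lines_term_mono M j' hi
    omega

theorem la_lip (M : ℕ) (hM : 1 ≤ M) {j i k : ℕ} (hj : j ≤ M) (hi : i ≤ k) :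
    la M j i ≤ la M j k ∧ la M j k + 2 * i ≤ la M j i + 2 * k := by
  have h1 := la_mono M (Nat.zero_le j) hi
  have h2 := la_mono M hj hi
  rw [la_zero, la_zero] at h1
  rw [la_top M i hM, la_top M k hM] at h2
  omega

theorem la_le (M : ℕ) (hM : 1 ≤ M) {j : ℕ} (hj : j ≤ M) (i : ℕ) : la M j i ≤ 2 * i := by
  have h2 := (la_lip M hM hj (Nat.zero_le i)).2
  have h3 := la_mono M hj (le_refl 0)
  have h4 : la M j 0 = 0 := by
    simp only [la]
    have : ∑ l ∈ Finset.range j, (0 + M - 1 - l) / M = 0 := by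
      apply Finset.sum_eq_zero
      intro l hl
      apply Nat.div_eq_of_lt
      omega
    rw [this]
  omega

theorem lines_gain (M j : ℕ) (hM : 1 ≤ M) (hj : j < M) {i k : ℕ} (hi : i ≤ k) :
    (i + M - 1 - j) / M + (k - i) / M ≤ (k + M - 1 - j) / M := by
  have e : k + M - 1 - j = (i + M - 1 - j) + (k - i) := by omega
  rw [e]
  exact Nat.add_div_le_add_div _ _ _

theorem lines_loss (M j : ℕ) (hM : 1 ≤ M) {i k : ℕ} (hi : i ≤ k) :
    (k + M - 1 - j) / M ≤ (i + M - 1 - j) / M + (k - i) / M + 1 := by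
  have e : k + M - 1 - j ≤ (i + M - 1 - j) + (k - i) := by omega
  refine (Nat.div_le_div_right e).trans ?_
  rw [Nat.add_div (by omega)]
  split_ifs <;> omega

theorem la_gap_lower (M : ℕ) (hM : 1 ≤ M) {j j' i k : ℕ} (hj : j < j') (hj' : j' ≤ M) (hi : i ≤ k) :
    la M j k + la M j' i + 2 * ((k - i) / M) ≤ la M j' k + la M j i := by
  have h1 := la_mono M (show j + 1 ≤ j' from hj) hi
  rw [lines_succ, lines_succ] at h1
  have h2 := lines_gain M j hM (by omega) hi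
  omega

theorem la_gap_upper (M : ℕ) (hM : 1 ≤ M) {j j' i k : ℕ} (hj : j' ≤ j + 2) (hi : i ≤ k) :
    la M j' k + la M j i ≤ la M j k + la M j' i + 4 * ((k - i) / M + 1) := by
  have h1 := la_mono M hj hi
  have e1 : ∀ x, la M (j + 2) x =
      la M j x + 2 * ((x + M - 1 - j) / M) + 2 * ((x + M - 1 - (j + 1)) / M) := by
    intro x
    rw [show j + 2 = (j + 1) + 1 from rfl, lines_succ, lines_succ]
  rw [e1, e1] at h1
  have h2 := lines_loss M j hM hi
  have h3 := lines_loss M (j + 1) hM hi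
  omega

end Pool.Agent.Work.MP_6078fc_co
end

-- merged part: Pool.Agent.Work.MP_6078fc_co.Step7
section
set_option autoImplicit false

namespace Pool.Agent.Work.MP_6078fc_co

variable {G : Type} {V : Type} [Group G] [Finite G] [Finite V] [MulAction G V] {Γ : SimpleGraph V}
  {e b : ℕ}

/-- slope decomposition at one centre `c` and one resolution point `i` -/
theorem Data.slope_pair (h : Data G Γ e b) (x : ℕ → V) (hx : ∀ i, Γ.dist (x i) (x (i + 1)) ≤ 1)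
    (M Λ t c B f W i : ℕ) (hM : 1 ≤ M) (hic : i ≤ c) (hcB : c ≤ B) (hBt : B ≤ t)
    (htb : t + B + W + 4 * Λ ≤ b) (hgap : 4 * Λ + 1 ≤ 2 * ((B - c) / M))
    (hW : 4 * Λ + 4 * ((c - i) / M + 1) ≤ W)
    (hf : ∀ (y : V) (α : ℕ), t ≤ α + c → α ≤ t + c →
      (1 + (e : ℝ)) * (lg (U G Γ (α + W + 1) y) - lg (U G Γ (α - 1) y)) ≤ f) :
    ∃ P P' : Subgroup G, P ≤ K G Γ t (x c) ∧ P' ≤ U G Γ (t + 4 * Λ) (x c) ∧
      ⁅P, P'⁆ ≤ K G Γ (b - f) (x i) ∧
      (lg (K G Γ t (x c)) - lg P) + (lg (U G Γ (t + 4 * Λ) (x c)) - lg P') ≤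
        ∑ j ∈ Finset.range (M + 1), (tri (FK G Γ x M (t + c - la M j c) j) i c B +
          tri (FU G Γ x M (t + 4 * Λ + c - la M j c) j) i c B) := by
  have hS := h.toSetup
  have lc : ∀ j, j ≤ M → la M j c ≤ 2 * c := fun j hj => la_le M hM hj c
  have dic := hS.dist_path x hx hic
  have dcB := hS.dist_path x hx hcB
  have eK : ∀ j, j ≤ M → FK G Γ x M (t + c - la M j c) j c = K G Γ t (x c) := by
    intro j hj
    have := lc j hj
    have e : lev M (t + c - la M j c) j c = t := by unfold lev; omega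
    simp only [FK, e]
  have eU : ∀ j, j ≤ M →
      FU G Γ x M (t + 4 * Λ + c - la M j c) j c = U G Γ (t + 4 * Λ) (x c) := by
    intro j hj
    have := lc j hj
    have e : lev M (t + 4 * Λ + c - la M j c) j c = t + 4 * Λ := by unfold lev; omega
    simp only [FU, e]
  have c1 := class_lemma M hM (K G Γ t (x c)) (fun j => FK G Γ x M (t + c - la M j c) j B)
    (fun j => FK G Γ x M (t + c - la M j c) j i)
    (fun j hj => by
      refine K_anti ?_ _
      have h1 := lc j hj.le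
      have h2 := lc (j + 1) hj
      have h3 := la_mono M (Nat.le_succ j) hcB
      simp only [Nat.succ_eq_add_one] at h3
      unfold lev; omega)
    (by
      refine hS.K_shift ?_
      have := dcB.1
      unfold lev; rw [la_zero, la_zero]; omega)
    (by
      refine hS.K_shift ?_
      have := dic.2
      unfold lev; rw [la_top M _ hM, la_top M _ hM]; omega)
  have c2 := class_lemma M hM (U G Γ (t + 4 * Λ) (x c))
    (fun j => FU G Γ x M (t + 4 * Λ + c - la M j c) j i)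
    (fun j => FU G Γ x M (t + 4 * Λ + c - la M j c) j B)
    (fun j hj => by
      refine U_mono ?_ _
      have h1 := lc j hj.le
      have h2 := lc (j + 1) hj
      have h3 := la_mono M (Nat.le_succ j) hic
      simp only [Nat.succ_eq_add_one] at h3
      unfold lev; omega)
    (by
      refine hS.U_shift ?_
      have := dic.1
      unfold lev; rw [la_zero, la_zero]; omega)
    (by
      refine hS.U_shift ?_
      have := dcB.2
      unfold lev; rw [la_top M _ hM, la_top M _ hM]; omega)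
  have hKH : K G Γ t (x c) ≤ K G Γ 0 (x i) := hS.K_shift (by have := dic.2; omega)
  have hUH : U G Γ (t + 4 * Λ) (x c) ≤ K G Γ 0 (x i) :=
    (h.U_le_K (k := c - i) (by omega) _).trans (hS.K_shift (by have := dic.2; omega))
  have hΞ := hS.nm (hS.eqv_K (b - f)) (x i)
  refine ⟨_, _, ?_, ?_, ?_, (add_le_add c1 c2).trans (le_of_eq ?_)⟩
  · exact iSup_le fun j => inf_le_left.trans inf_le_left
  · exact iSup_le fun j => inf_le_left.trans inf_le_left
  rotate_left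
  · rw [← Finset.sum_add_distrib]
    refine Finset.sum_congr rfl fun j hj => ?_
    have hj' : j ≤ M := by have := Finset.mem_range.mp hj; omega
    unfold tri
    rw [eK j hj', eU j hj', dm_comm (FU G Γ x M (t + 4 * Λ + c - la M j c) j B)
      (U G Γ (t + 4 * Λ) (x c)), dm_comm (U G Γ (t + 4 * Λ) (x c))
      (FU G Γ x M (t + 4 * Λ + c - la M j c) j i),
      dm_comm (FU G Γ x M (t + 4 * Λ + c - la M j c) j B)]
    ring
  refine comm_iSup_left _ _ _ hΞ _ (fun j => (inf_le_left.trans inf_le_left).trans hKH) fun j => ?_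
  rw [Subgroup.commutator_comm]
  refine comm_iSup_left _ _ _ hΞ _ (fun j => (inf_le_left.trans inf_le_left).trans hUH) fun j' => ?_
  rw [Subgroup.commutator_comm]
  obtain ⟨j, hj⟩ := j
  obtain ⟨j', hj'⟩ := j'
  dsimp only
  have l1 := lc j hj.le
  have l2 := lc (j + 1) hj
  have l3 := lc j' hj'.le
  have l4 := lc (j' + 1) hj'
  by_cases hjj : j' + 1 < j
  · refine (Subgroup.commutator_mono (inf_le_left.trans inf_le_right) inf_le_right).trans ?_
    have g1 := la_gap_lower M hM hjj hj.le hcB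
    have g2 := la_lip M hM (show j' + 1 ≤ M from hj') hcB
    have := hS.comm_K_U (s := lev M (t + 4 * Λ + c - la M (j' + 1) c) (j' + 1) B)
      (t := lev M (t + c - la M j c) j B) (by unfold lev; omega) (x B)
    exact le_of_eq_of_le this bot_le
  · have g1 := la_gap_upper M hM (show j + 1 ≤ j' + 2 by omega) hic
    have g2 := la_lip M hM (show j + 1 ≤ M from hj) hic
    have g3 := la_lip M hM hj'.le hic
    refine (Subgroup.commutator_mono inf_le_right ((inf_le_left.trans inf_le_right).trans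
      (U_mono (s' := lev M (t + c - la M (j + 1) c) (j + 1) i + W) ?_ _))).trans ?_
    · unfold lev; omega
    · refine h.deep_comm (Nat.le_add_right _ _) ?_ _ (hf _ _ ?_ ?_) <;> (unfold lev; omega)

theorem Data.step7 (h : Data G Γ e b) (x : ℕ → V) (hx : ∀ i, Γ.dist (x i) (x (i + 1)) ≤ 1)
    (M Λ t c B f W : ℕ) (I : Finset ℕ) (hM : 1 ≤ M) (hI : ∀ i ∈ I, i ≤ c) (hcB : c ≤ B)
    (hBt : B ≤ t) (htb : t + B + W + 4 * Λ ≤ b) (hgap : 4 * Λ + 1 ≤ 2 * ((B - c) / M))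
    (hW : ∀ i ∈ I, 4 * Λ + 4 * ((c - i) / M + 1) ≤ W)
    (hf : ∀ (y : V) (α : ℕ), t ≤ α + c → α ≤ t + c →
      (1 + (e : ℝ)) * (lg (U G Γ (α + W + 1) y) - lg (U G Γ (α - 1) y)) ≤ f)
    (hsum : ∑ i ∈ I, ∑ j ∈ Finset.range (M + 1), (tri (FK G Γ x M (t + c - la M j c) j) i c B +
          tri (FU G Γ x M (t + 4 * Λ + c - la M j c) j) i c B) < Λ) :
    ∃ T, t ≤ T ∧ T + 4 ≤ t + 4 * Λ ∧ ∀ i ∈ I,
      ⁅K G Γ (T + 1) (x c), U G Γ (T + 4) (x c)⁆ ≤ K G Γ (b - f) (x i) := by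
  have hS := h.toSetup
  have hex : ∀ i, ∃ P P' : Subgroup G, i ∈ I → P ≤ K G Γ t (x c) ∧ P' ≤ U G Γ (t + 4 * Λ) (x c) ∧
      ⁅P, P'⁆ ≤ K G Γ (b - f) (x i) ∧
      (lg (K G Γ t (x c)) - lg P) + (lg (U G Γ (t + 4 * Λ) (x c)) - lg P') ≤
        ∑ j ∈ Finset.range (M + 1), (tri (FK G Γ x M (t + c - la M j c) j) i c B +
          tri (FU G Γ x M (t + 4 * Λ + c - la M j c) j) i c B) := by
    intro i
    by_cases hi : i ∈ I
    · obtain ⟨P, P', hP⟩ :=
        h.slope_pair x hx M Λ t c B f W i hM (hI i hi) hcB hBt htb hgap (hW i hi) hf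
      exact ⟨P, P', fun _ => hP⟩
    · exact ⟨⊥, ⊥, fun h' => absurd h' hi⟩
  choose P P' hP using hex
  obtain ⟨q, hq, hgood⟩ := block_common Λ I (K G Γ t (x c)) (U G Γ (t + 4 * Λ) (x c)) P P'
    (fun q => K G Γ (t + 4 * q + 1) (x c)) (fun q => U G Γ (t + 4 * q) (x c))
    (fun i hi => (hP i hi).1) (fun i hi => (hP i hi).2.1) (K_anti (by omega) _) le_rfl
    (fun q => K_anti (by omega) _) (fun q => U_mono (by omega) _)
    (lt_of_le_of_lt (Finset.sum_le_sum fun i hi => (hP i hi).2.2.2) hsum)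
  refine ⟨t + 4 * q, by omega, by omega, fun i hi => ?_⟩
  obtain ⟨g1, g2⟩ := hgood i hi
  have e4 : t + 4 * (q + 1) = t + 4 * q + 4 := by ring
  simp only [e4] at g1 g2
  have hic := hI i hi
  have dic := hS.dist_path x hx hic
  have hKH : K G Γ (t + 4 * q + 1) (x c) ≤ K G Γ 0 (x i) := hS.K_shift (by have := dic.2; omega)
  have hUH : U G Γ (t + 4 * q + 4) (x c) ≤ K G Γ 0 (x i) :=
    (h.U_le_K (k := c - i) (by omega) _).trans (hS.K_shift (by have := dic.2; omega))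
  have hΞ := hS.nm (hS.eqv_K (b - f)) (x i)
  refine (Subgroup.commutator_mono g1 le_rfl).trans (comm_sup_left _ _ _ _ _ hΞ
    (inf_le_right.trans hKH) ((K_anti (by omega) _).trans hKH) ?_ ?_)
  · refine (Subgroup.commutator_mono le_rfl g2).trans ?_
    rw [Subgroup.commutator_comm]
    refine comm_sup_left _ _ _ _ _ hΞ (inf_le_right.trans hUH)
      ((U_mono (by omega) _).trans hUH) ?_ ?_
    · rw [Subgroup.commutator_comm]
      exact (Subgroup.commutator_mono inf_le_left inf_le_left).trans (hP i hi).2.2.1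
    · rw [Subgroup.commutator_comm]
      refine (Subgroup.commutator_mono inf_le_right le_rfl).trans ?_
      exact le_of_eq_of_le (hS.comm_K_U le_rfl _) bot_le
  · exact le_of_eq_of_le (hS.comm_K_U le_rfl _) bot_le

end Pool.Agent.Work.MP_6078fc_co
end

-- merged part: Pool.Agent.Work.MP_6078fc_co.Pigeon
section
set_option autoImplicit false

namespace Pool.Agent.Work.MP_6078fc_co

theorem pigeon_tele (w : ℕ → ℝ) (s0 u : ℕ) (n : ℕ) :
    w (s0 + n * u) - w s0 = ∑ k ∈ Finset.range n, (w (s0 + (k + 1) * u) - w (s0 + k * u)) := by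
  induction n with
  | zero => simp
  | succ n ih => rw [Finset.sum_range_succ, ← ih]; ring

theorem pigeon_tele_le (w : ℕ → ℝ) (s0 u q : ℕ) (c : ℝ)
    (hb : ∀ k < q, w (s0 + (k + 1) * u) - w (s0 + k * u) ≤ c) (k : ℕ) :
    ∀ d : ℕ, k + d ≤ q → w (s0 + (k + d) * u) - w (s0 + k * u) ≤ d * c := by
  intro d
  induction d with
  | zero => intro _; simp
  | succ d ih =>
    intro hd
    have h1 := ih (by omega)
    have h2 := hb (k + d) (by omega)
    have e : k + (d + 1) = k + d + 1 := by ring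
    rw [e]
    push_cast
    linarith only [h1, h2]

theorem pigeon_blocks (w : ℕ → ℝ) (hw : Monotone w) (q : ℕ) (hq : 2 ≤ q) (ρ : ℝ) (hρ : 0 ≤ ρ) :
    ∀ i : ℕ, i ≤ q → ∀ s : ℕ, w (s + q ^ (i + 1)) - w s ≤ i * ρ * (q : ℝ) ^ i →
      ∃ s0 u : ℕ, 1 ≤ u ∧ s ≤ s0 ∧ s0 + q * u ≤ s + q ^ (i + 1) ∧
        ∀ k < q, w (s0 + (k + 1) * u) - w (s0 + k * u) ≤ 2 * ρ * u := by
  intro i
  induction i with
  | zero =>
    intro _ s hs
    refine ⟨s, 1, le_rfl, le_rfl, by simp, fun k hk => ?_⟩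
    have h1 : w (s + (k + 1) * 1) ≤ w (s + q ^ (0 + 1)) := hw (by simp; omega)
    have h2 : w s ≤ w (s + k * 1) := hw (by omega)
    simp only [Nat.cast_zero, zero_mul] at hs
    push_cast
    linarith only [hρ, h1, h2, hs]
  | succ i ih =>
    intro hi s hs
    have hq0 : 0 < q := by omega
    have hu : 1 ≤ q ^ (i + 1) := Nat.one_le_pow _ _ hq0
    have hqu : q * q ^ (i + 1) = q ^ (i + 1 + 1) := by ring
    by_cases hall : ∀ k < q, w (s + (k + 1) * q ^ (i + 1)) - w (s + k * q ^ (i + 1))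
        ≤ 2 * ρ * ((q ^ (i + 1) : ℕ) : ℝ)
    · exact ⟨s, q ^ (i + 1), hu, le_rfl, by rw [hqu], hall⟩
    · push Not at hall
      obtain ⟨k0, hk0, hbig⟩ := hall
      have hex : ∃ k < q, w (s + (k + 1) * q ^ (i + 1)) - w (s + k * q ^ (i + 1))
          ≤ i * ρ * (q : ℝ) ^ i := by
        by_contra hne
        push Not at hne
        have ht := pigeon_tele w s (q ^ (i + 1)) q
        rw [hqu] at ht
        have hmem : k0 ∈ Finset.range q := Finset.mem_range.2 hk0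
        rw [← Finset.add_sum_erase _ _ hmem] at ht
        have hlow : ∑ k ∈ (Finset.range q).erase k0, (i * ρ * (q : ℝ) ^ i)
            ≤ ∑ k ∈ (Finset.range q).erase k0,
              (w (s + (k + 1) * q ^ (i + 1)) - w (s + k * q ^ (i + 1))) :=
          Finset.sum_le_sum fun k hk =>
            (hne k (Finset.mem_range.1 (Finset.mem_of_mem_erase hk))).le
        rw [Finset.sum_const, Finset.card_erase_of_mem hmem, Finset.card_range, nsmul_eq_mul,
          Nat.cast_sub (by omega)] at hlow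
        have hiq : (i : ℝ) ≤ q := by exact_mod_cast (by omega : i ≤ q)
        have hp : 0 ≤ ρ * (q : ℝ) ^ i := by positivity
        have hkey : 0 ≤ ((q : ℝ) - i) * (ρ * (q : ℝ) ^ i) := mul_nonneg (by linarith only [hiq]) hp
        push_cast at hs hbig hlow
        have e1 : (q : ℝ) ^ (i + 1) = q * (q : ℝ) ^ i := by ring
        rw [e1] at hs hbig
        linarith only [ht, hkey, hs, hbig, hlow]
      obtain ⟨k, hk, hsm⟩ := hex
      have e : s + (k + 1) * q ^ (i + 1) = s + k * q ^ (i + 1) + q ^ (i + 1) := by ring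
      rw [e] at hsm
      obtain ⟨s0, u, hu1, hs0, hend, hb⟩ := ih (by omega) _ hsm
      refine ⟨s0, u, hu1, by omega, ?_, hb⟩
      have h3 : (k + 1) * q ^ (i + 1) ≤ q * q ^ (i + 1) := Nat.mul_le_mul_right _ hk
      rw [← e] at hend
      rw [← hqu]
      omega

theorem regular_range (w : ℕ → ℝ) (hw : Monotone w) (q : ℕ) (hq : 2 ≤ q) (ρ : ℝ) (hρ : 0 ≤ ρ)
    (h : w (q ^ (q + 1)) - w 0 ≤ ρ * (q : ℝ) ^ (q + 1)) :
    ∃ s0 u : ℕ, 1 ≤ u ∧ s0 + q * u ≤ q ^ (q + 1) ∧ ∀ s s' : ℕ, s0 ≤ s → s ≤ s' →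
      s' ≤ s0 + q * u → w s' - w s ≤ 2 * ρ * ((s' : ℝ) - s + 2 * u) := by
  obtain ⟨s0, u, hu, -, hend, hb⟩ := pigeon_blocks w hw q hq ρ hρ q le_rfl 0
    (by rw [zero_add]; calc _ ≤ ρ * (q : ℝ) ^ (q + 1) := h
      _ = q * ρ * (q : ℝ) ^ q := by ring)
  refine ⟨s0, u, hu, by simpa using hend, fun s s' h0 hss h1 => ?_⟩
  obtain ⟨a, rfl⟩ := Nat.exists_eq_add_of_le h0
  obtain ⟨b, rfl⟩ := Nat.exists_eq_add_of_le (h0.trans hss)
  have hab : a ≤ b := by omega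
  have hbq : b ≤ q * u := by omega
  have hu0 : 0 < u := hu
  set k := a / u with hk
  set k' := min q (b / u + 1) with hk'
  have hka : k * u ≤ a := Nat.div_mul_le_self a u
  have hak : a < k * u + u := by
    have := Nat.lt_div_mul_add (a := a) hu0
    exact this
  have hkq : k ≤ q := by
    rw [hk]
    exact Nat.div_le_of_le_mul (by rw [mul_comm]; omega)
  have hkb : k ≤ b / u := Nat.div_le_div_right hab
  have hkk : k ≤ k' := le_min hkq (by omega)
  have hbk : b ≤ k' * u := by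
    rcases le_total q (b / u + 1) with hc | hc
    · rw [hk', min_eq_left hc]; exact hbq
    · rw [hk', min_eq_right hc]
      have := Nat.lt_div_mul_add (a := b) hu0
      have e : (b / u + 1) * u = b / u * u + u := by ring
      omega
  have hk'b : k' * u ≤ b + u := by
    have h2 : k' * u ≤ (b / u + 1) * u := Nat.mul_le_mul_right _ (min_le_right _ _)
    have h3 : b / u * u ≤ b := Nat.div_mul_le_self b u
    have e : (b / u + 1) * u = b / u * u + u := by ring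
    omega
  obtain ⟨d, hd⟩ := Nat.exists_eq_add_of_le hkk
  have hT := pigeon_tele_le w s0 u q _ hb k d (by rw [← hd]; exact min_le_left _ _)
  rw [← hd] at hT
  have m1 : w (s0 + b) ≤ w (s0 + k' * u) := hw (by omega)
  have m2 : w (s0 + k * u) ≤ w (s0 + a) := hw (by omega)
  have hdu : d * u + a ≤ b + 2 * u := by
    have e : k' * u = k * u + d * u := by rw [hd]; ring
    omega
  have hdu' : (d : ℝ) * u + a ≤ b + 2 * u := by exact_mod_cast hdu
  have h5 : (d : ℝ) * (2 * ρ * u) ≤ 2 * ρ * ((b : ℝ) - a + 2 * u) := by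
    have := mul_le_mul_of_nonneg_left (show (d : ℝ) * u ≤ (b : ℝ) - a + 2 * u by linarith only [hdu'])
      (show 0 ≤ 2 * ρ by linarith only [hρ])
    linarith only [this]
  push_cast
  have e : (s0 : ℝ) + b - (s0 + a) + 2 * u = (b : ℝ) - a + 2 * u := by ring
  rw [e]
  linarith only [hT, m1, m2, h5]

theorem exists_tile (m : ℕ → ℝ) (hm : ∀ i k, i ≤ k → m i ≤ m k) (b L : ℕ) (hL : 1 ≤ L)
    (hLb : L ≤ b) (h : (b : ℝ) / 2 ≤ m b - m 0) : ∃ a, (L : ℝ) / 4 ≤ m (a + L) - m a := by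
  by_contra hne
  push Not at hne
  have hL0 : 0 < L := hL
  have key : ∀ n : ℕ, m ((n + 1) * L) - m 0 < ((n : ℝ) + 1) * ((L : ℝ) / 4) := by
    intro n
    induction n with
    | zero => simpa using hne 0
    | succ n ih =>
      have h1 := hne ((n + 1) * L)
      have e : (n + 1 + 1) * L = (n + 1) * L + L := by ring
      rw [e]
      push_cast
      linarith only [ih, h1]
  have h1 := key (b / L)
  have h2 : b ≤ (b / L + 1) * L := by
    have := Nat.lt_div_mul_add (a := b) hL0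
    have e : (b / L + 1) * L = b / L * L + L := by ring
    omega
  have h3 : (b / L + 1) * L ≤ 2 * b := by
    have h4 : b / L * L ≤ b := Nat.div_mul_le_self b L
    have e : (b / L + 1) * L = b / L * L + L := by ring
    omega
  have h3' : (((b / L : ℕ) : ℝ) + 1) * L ≤ 2 * b := by exact_mod_cast h3
  have h4 := hm _ _ h2
  linarith only [h, h1, h3', h4]

theorem pigeon_inj (R R' : Finset ℕ) (f : ℕ → ℝ) (hf : ∀ t, 0 ≤ f t) (σ : ℕ → ℕ)
    (hσ : Set.InjOn σ R' ∧ ∀ t ∈ R', σ t ∈ R) : ∑ t ∈ R', f (σ t) ≤ ∑ t ∈ R, f t := by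
  rw [← Finset.sum_image (f := f) (g := σ) (s := R') hσ.1]
  refine Finset.sum_le_sum_of_subset_of_nonneg ?_ fun t _ _ => hf t
  intro t ht
  obtain ⟨x, hx, rfl⟩ := Finset.mem_image.1 ht
  exact hσ.2 x hx

theorem avg_lemma (I J R R' : Finset ℕ) (g g' : ℕ → ℕ → ℕ → ℝ) (hg : ∀ i j t, 0 ≤ g i j t)
    (hg' : ∀ i j t, 0 ≤ g' i j t) (hR' : R'.Nonempty) (σ σ' : ℕ → ℕ → ℕ)
    (hσ : ∀ j ∈ J, Set.InjOn (σ j) R' ∧ ∀ t ∈ R', σ j t ∈ R)
    (hσ' : ∀ j ∈ J, Set.InjOn (σ' j) R' ∧ ∀ t ∈ R', σ' j t ∈ R) (β : ℝ)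
    (hβ : ∀ i ∈ I, ∑ j ∈ J, ∑ t ∈ R, (g i j t + g' i j t) ≤ β) :
    ∃ t ∈ R', ∑ i ∈ I, ∑ j ∈ J, (g i j (σ j t) + g' i j (σ' j t)) ≤ I.card * β / R'.card := by
  apply Finset.exists_le_of_sum_le hR'
  have hc : (0 : ℝ) < R'.card := by exact_mod_cast hR'.card_pos
  rw [Finset.sum_const, nsmul_eq_mul, mul_div_cancel₀ _ hc.ne', Finset.sum_comm]
  calc ∑ i ∈ I, ∑ t ∈ R', ∑ j ∈ J, (g i j (σ j t) + g' i j (σ' j t))
      ≤ ∑ i ∈ I, β := by
        refine Finset.sum_le_sum fun i hi => le_trans ?_ (hβ i hi)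
        rw [Finset.sum_comm]
        refine Finset.sum_le_sum fun j hj => ?_
        rw [Finset.sum_add_distrib, Finset.sum_add_distrib]
        exact add_le_add (pigeon_inj R R' (g i j) (hg i j) (σ j) (hσ j hj))
          (pigeon_inj R R' (g' i j) (hg' i j) (σ' j) (hσ' j hj))
    _ = I.card * β := by rw [Finset.sum_const, nsmul_eq_mul]

end Pool.Agent.Work.MP_6078fc_co
end

-- merged part: Pool.Agent.Work.MP_6078fc_co.Centre
section
set_option autoImplicit false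

namespace Pool.Agent.Work.MP_6078fc_co

variable {G : Type} {V : Type} [Group G] [Finite G] [Finite V] [MulAction G V] {Γ : SimpleGraph V}
  {e b : ℕ}

/-- all centres of an efficient interval -/
theorem Data.centre (h : Data G Γ e b) (x : ℕ → V) (hx : ∀ i, Γ.dist (x i) (x (i + 1)) ≤ 1)
    (M Z2 s0 L u Λ A c : ℕ) (C : ℕ) (hM : 7 ≤ M) (hZ2 : 1 ≤ Z2) (hu : 1 ≤ u) (huΛ : u ≤ Λ)
    (hb : 2 * (s0 + 10 * L) ≤ b) (hL : A + 4 * Z2 * M * Λ ≤ L)
    (hfb : 28 * (1 + e) * C * Z2 * Λ + Λ ≤ b)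
    (hreg : ∀ (y : V) (s s' : ℕ), s0 ≤ s → s ≤ s' → s' ≤ s0 + 10 * L →
      lg (U G Γ s' y) - lg (U G Γ s y) ≤ C * ((s' : ℝ) - s + 2 * u))
    (β : ℝ) (hβ : (4 * Z2 * M + 1) * β < Λ * L)
    (hdef : ∀ i, A ≤ i → i ≤ c → ∑ j ∈ Finset.range (M + 1),
      ∑ t0 ∈ Finset.Ico (s0 + 3 * L) (s0 + 7 * L),
        (tri (FK G Γ x M t0 j) i c (A + 4 * Z2 * M * Λ) +
          tri (FU G Γ x M t0 j) i c (A + 4 * Z2 * M * Λ)) ≤ β)
    (hAc : A ≤ c) (hcB : c + 4 * M * Λ ≤ A + 4 * Z2 * M * Λ) :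
    ∃ T, 1 ≤ T ∧ T + 3 ≤ b ∧ ∀ i, A ≤ i → i ≤ c →
      ⁅K G Γ (T + 1) (x c), U G Γ (T + 4) (x c)⁆ ≤
        K G Γ (b - (28 * (1 + e) * C * Z2 * Λ + Λ)) (x i) := by
  classical
  have hM1 : 1 ≤ M := by omega
  have hΛ : 1 ≤ Λ := by omega
  obtain ⟨z, hz⟩ : ∃ z, z = Z2 * Λ := ⟨_, rfl⟩
  obtain ⟨n, hn⟩ : ∃ n, n = 4 * Z2 * M * Λ := ⟨_, rfl⟩
  obtain ⟨f, hf⟩ : ∃ f, f = 28 * (1 + e) * C * Z2 * Λ := ⟨_, rfl⟩
  have z1 : Λ ≤ z := hz ▸ Nat.le_mul_of_pos_left _ hZ2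
  have n1 : n = 4 * z * M := by rw [hn, hz]; ring
  have n2 : 28 * z ≤ n := by rw [n1]; nlinarith only [hM]
  rw [← hn] at hL hdef hcB
  rw [← hf] at hfb ⊢
  have g1 : 4 * Λ ≤ (A + n - c) / M := (Nat.le_div_iff_mul_le hM1).2 (by
    have : 4 * Λ * M = 4 * M * Λ := by ring
    omega)
  have cn : c ≤ A + n := le_trans (Nat.le_add_right _ _) hcB
  set I := ((Finset.range (4 * Z2 * M + 1)).filter fun k => k * Λ ≤ c - A).image
    fun k => c - k * Λ with hI
  have i1 : ∀ i ∈ I, A ≤ i ∧ i ≤ c := fun i hi => by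
    obtain ⟨k, hk, rfl⟩ := Finset.mem_image.1 hi
    have := (Finset.mem_filter.1 hk).2
    omega
  have i2 : I.card ≤ 4 * Z2 * M + 1 := Finset.card_image_le.trans
    ((Finset.card_filter_le _ _).trans (Finset.card_range _).le)
  have b0 : 0 ≤ β := le_trans (Finset.sum_nonneg fun j _ => Finset.sum_nonneg fun t _ =>
    add_nonneg (tri_nonneg _ _ _ _) (tri_nonneg _ _ _ _)) (hdef c hAc le_rfl)
  have l1 : ∀ j ∈ Finset.range (M + 1), la M j c ≤ 2 * c := fun j hj =>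
    la_le M hM1 (Nat.lt_succ_iff.1 (Finset.mem_range.1 hj)) c
  obtain ⟨t, ht, hs⟩ := avg_lemma I (Finset.range (M + 1)) (Finset.Ico (s0 + 3 * L) (s0 + 7 * L))
    (Finset.Ico (s0 + 4 * L) (s0 + 5 * L)) (fun i j t0 => tri (FK G Γ x M t0 j) i c (A + n))
    (fun i j t0 => tri (FU G Γ x M t0 j) i c (A + n)) (fun _ _ _ => tri_nonneg _ _ _ _)
    (fun _ _ _ => tri_nonneg _ _ _ _) (Finset.nonempty_Ico.2 (by omega))
    (fun j t => t + c - la M j c) (fun j t => t + 4 * Λ + c - la M j c)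
    (fun j hj => ⟨fun t ht t' ht' k => by
        have := l1 j hj
        simp only [Finset.coe_Ico, Set.mem_Ico] at ht ht' k
        omega, fun t ht => by
        have := l1 j hj
        simp only [Finset.mem_Ico] at ht ⊢
        omega⟩)
    (fun j hj => ⟨fun t ht t' ht' k => by
        have := l1 j hj
        simp only [Finset.coe_Ico, Set.mem_Ico] at ht ht' k
        omega, fun t ht => by
        have := l1 j hj
        simp only [Finset.mem_Ico] at ht ⊢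
        omega⟩) β fun i hi => hdef i (i1 i hi).1 (i1 i hi).2
  rw [Finset.mem_Ico] at ht
  refine Exists.elim (h.step7 x hx M Λ t c (A + n) f (4 * Λ + 16 * z + 4) I hM1
    (fun i hi => (i1 i hi).2) cn (by omega) (by omega) (by omega) (fun i hi => ?_)
    (fun y α a1 a2 => ?_) (hs.trans_lt ?_)) ?_
  rotate_right
  · rintro T ⟨t1, t2, t3⟩
    refine ⟨T, by omega, by omega, fun i hi hi' => ?_⟩
    have k1 := Nat.div_add_mod (c - i) Λ
    have k2 := Nat.mod_lt (c - i) hΛ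
    have k3 : (c - i) / Λ ≤ 4 * Z2 * M := Nat.div_le_of_le_mul (by
      have : Λ * (4 * Z2 * M) = n := by rw [hn]; ring
      omega)
    rw [mul_comm] at k1
    have k4 : i ≤ c - (c - i) / Λ * Λ := by omega
    have k5 := (h.toSetup.dist_path x hx k4).2
    exact (t3 _ (Finset.mem_image.2 ⟨(c - i) / Λ, Finset.mem_filter.2
      ⟨Finset.mem_range.2 (by omega), by omega⟩, rfl⟩)).trans (h.toSetup.K_shift (by omega))
  · have k1 := i1 i hi
    have k2 : (c - i) / M ≤ 4 * z := Nat.div_le_of_le_mul (by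
      have : M * (4 * z) = n := by rw [n1]; ring
      omega)
    omega
  · have k1 := hreg y (α - 1) (α + (4 * Λ + 16 * z + 4) + 1) (by omega) (by omega) (by omega)
    have k2 : ((α + (4 * Λ + 16 * z + 4) + 1 : ℕ) : ℝ) - (α - 1 : ℕ) + 2 * u ≤ 28 * z := by
      have k3 : α + (4 * Λ + 16 * z + 4) + 1 + 2 * u ≤ 28 * z + (α - 1) := by omega
      have k4 := (Nat.cast_le (α := ℝ)).2 k3
      rw [Nat.cast_add _ (2 * u), Nat.cast_add (28 * z)] at k4
      push_cast at k4 ⊢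
      linarith only [k4]
    have k3 : (f : ℝ) = (1 + e) * (C * (28 * z)) := by
      rw [hf, hz]
      push_cast
      ring
    rw [k3]
    exact mul_le_mul_of_nonneg_left (k1.trans (mul_le_mul_of_nonneg_left k2 (Nat.cast_nonneg _)))
      (by positivity)
  · have k1 : (Finset.Ico (s0 + 4 * L) (s0 + 5 * L)).card = L := by
      rw [Nat.card_Ico]
      omega
    have k2 : (0 : ℝ) < L := Nat.cast_pos.2 (by omega)
    rw [k1, div_lt_iff₀ k2]
    refine lt_of_le_of_lt (mul_le_mul_of_nonneg_right ?_ b0) hβ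
    exact_mod_cast i2

end Pool.Agent.Work.MP_6078fc_co
end

-- merged part: Pool.Agent.Work.MP_6078fc_co.Lip
section
set_option autoImplicit false

namespace Pool.Agent.Work.MP_6078fc_co

variable {G : Type} {V : Type} [Group G] [Finite G] [Finite V] [MulAction G V] {Γ : SimpleGraph V}
  {e b : ℕ}

theorem lip_aux1 (h : Data G Γ e b) (s0 L u : ℕ) (C : ℝ) (hC : 0 ≤ C) (hu : 1 ≤ u)
    (hreg : ∀ (y : V) (s s' : ℕ), s0 ≤ s → s ≤ s' → s' ≤ s0 + 10 * L →
      lg (U G Γ s' y) - lg (U G Γ s y) ≤ C * ((s' : ℝ) - s + 2 * u))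
    {x y : V} {α β δ : ℕ} (hd : Γ.dist x y ≤ δ) (h₁ : α ≤ β + δ) (h₂ : β ≤ α + δ)
    (h₃ : s0 + 1 ≤ α) (h₄ : β + δ ≤ s0 + 10 * L) :
    lg (K G Γ α x) - lg (K G Γ α x ⊓ K G Γ β y) ≤ 2 * e * C * ((δ : ℝ) + 2 * u) := by
  have a₁ : lg (K G Γ (β + δ) x) ≤ lg (K G Γ α x ⊓ K G Γ β y) :=
    lg_mono (le_inf (K_anti h₁ x) (h.toSetup.K_shift (by omega)))
  have a₂ := h.top_growth h₁ x
  have a₃ := hreg x (α - 1) (β + δ) (by omega) (by omega) h₄
  have a₄ : (((β + δ : ℕ) : ℝ) - ((α - 1 : ℕ) : ℝ) + 2 * u) ≤ 2 * ((δ : ℝ) + 2 * u) := by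
    have : β + δ + 2 * u ≤ 2 * (δ + 2 * u) + (α - 1) := by omega
    have : ((β + δ + 2 * u : ℕ) : ℝ) ≤ ((2 * (δ + 2 * u) + (α - 1) : ℕ) : ℝ) := by
      exact_mod_cast this
    push_cast at this ⊢
    linarith only [this]
  have a₅ := a₃.trans (mul_le_mul_of_nonneg_left a₄ hC)
  have a₆ := mul_le_mul_of_nonneg_left a₅ (Nat.cast_nonneg (α := ℝ) e)
  linarith only [a₁, a₂, a₆]

theorem lip_aux2 (h : Data G Γ e b) (s0 L u : ℕ) (C : ℝ) (hC : 0 ≤ C)
    (hreg : ∀ (y : V) (s s' : ℕ), s0 ≤ s → s ≤ s' → s' ≤ s0 + 10 * L →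
      lg (U G Γ s' y) - lg (U G Γ s y) ≤ C * ((s' : ℝ) - s + 2 * u))
    {x y : V} {α β δ : ℕ} (hd : Γ.dist y x ≤ δ) (h₁ : α ≤ β + δ) (h₂ : β ≤ α + δ)
    (h₃ : s0 + δ ≤ β) (h₄ : α ≤ s0 + 10 * L) :
    lg (U G Γ α x) - lg (U G Γ α x ⊓ U G Γ β y) ≤ 2 * e * C * ((δ : ℝ) + 2 * u) := by
  have a₁ : lg (U G Γ (β - δ) x) ≤ lg (U G Γ α x ⊓ U G Γ β y) :=
    lg_mono (le_inf (U_mono (by omega) x) (h.toSetup.U_shift (by omega)))
  have a₃ := hreg x (β - δ) α (by omega) (by omega) h₄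
  have a₄ : ((α : ℝ) - ((β - δ : ℕ) : ℝ) + 2 * u) ≤ 2 * ((δ : ℝ) + 2 * u) := by
    have : α + 2 * u ≤ 2 * (δ + 2 * u) + (β - δ) := by omega
    have : ((α + 2 * u : ℕ) : ℝ) ≤ ((2 * (δ + 2 * u) + (β - δ) : ℕ) : ℝ) := by
      exact_mod_cast this
    push_cast at this ⊢
    linarith only [this]
  have a₅ := a₃.trans (mul_le_mul_of_nonneg_left a₄ hC)
  have he : (1 : ℝ) ≤ e := by exact_mod_cast h.he1
  have a₆ : C * (2 * ((δ : ℝ) + 2 * u)) ≤ e * (C * (2 * ((δ : ℝ) + 2 * u))) :=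
    le_mul_of_one_le_left (by positivity) he
  linarith only [a₁, a₅, a₆]

/-- Lipschitz bound for the lines inside a regular range -/
theorem Data.line_lip (h : Data G Γ e b) (x : ℕ → V) (hx : ∀ i, Γ.dist (x i) (x (i + 1)) ≤ 1)
    (M s0 L u : ℕ) (C : ℝ) (hC : 0 ≤ C) (hM : 1 ≤ M) (hu : 1 ≤ u) (hL : 1 ≤ L)
    (hreg : ∀ (y : V) (s s' : ℕ), s0 ≤ s → s ≤ s' → s' ≤ s0 + 10 * L →
      lg (U G Γ s' y) - lg (U G Γ s y) ≤ C * ((s' : ℝ) - s + 2 * u))
    {j t0 i k : ℕ} (hj : j ≤ M) (ht0 : s0 + 3 * L ≤ t0) (ht0' : t0 ≤ s0 + 7 * L) (hik : i ≤ k)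
    (hk : k ≤ L) :
    dm (FK G Γ x M t0 j i) (FK G Γ x M t0 j k) ≤ 4 * e * C * ((k : ℝ) - i + 2 * u) ∧
    dm (FU G Γ x M t0 j i) (FU G Γ x M t0 j k) ≤ 4 * e * C * ((k : ℝ) - i + 2 * u) := by
  obtain ⟨d₁, d₂⟩ := h.toSetup.dist_path x hx hik
  obtain ⟨l₁, l₂⟩ := la_lip M hM hj hik
  have l₃ := la_le M hM hj i
  have l₄ := la_le M hM hj k
  have hδ : ((k - i : ℕ) : ℝ) = (k : ℝ) - i := by push_cast [hik]; ring
  have b₁ : lev M t0 j i ≤ lev M t0 j k + (k - i) := by unfold lev; omega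
  have b₂ : lev M t0 j k ≤ lev M t0 j i + (k - i) := by unfold lev; omega
  have b₃ : s0 + 2 * L ≤ lev M t0 j i := by unfold lev; omega
  have b₄ : s0 + 2 * L ≤ lev M t0 j k := by unfold lev; omega
  have b₅ : lev M t0 j i ≤ s0 + 8 * L := by unfold lev; omega
  have b₆ : lev M t0 j k ≤ s0 + 8 * L := by unfold lev; omega
  have c₁ := lip_aux1 h s0 L u C hC hu hreg d₁ b₁ b₂ (by omega) (by omega)
  have c₂ := lip_aux1 h s0 L u C hC hu hreg d₂ b₂ b₁ (by omega) (by omega)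
  have c₃ := lip_aux2 h s0 L u C hC hreg d₂ b₁ b₂ (by omega) (by omega)
  have c₄ := lip_aux2 h s0 L u C hC hreg d₁ b₂ b₁ (by omega) (by omega)
  rw [inf_comm] at c₂ c₄
  rw [hδ] at c₁ c₂ c₃ c₄
  unfold dm FK FU
  constructor <;> linarith only [c₁, c₂, c₃, c₄]

end Pool.Agent.Work.MP_6078fc_co
end

-- merged part: Pool.Agent.Work.MP_6078fc_co.Gap
section
set_option autoImplicit false

namespace Pool.Agent.Work.MP_6078fc_co

variable {G : Type} {V : Type} [Group G] [Finite G] [Finite V] [MulAction G V] {Γ : SimpleGraph V}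
  {e b : ℕ}

theorem Data.noncentral (h : Data G Γ e b) {T : ℕ} (hT : 1 ≤ T) (hTb : T + 3 ≤ b) (x : V) :
    K G Γ 0 x ⊓ Cz (⁅K G Γ (T + 1) x, U G Γ (T + 4) x⁆ ⊓ D G Γ x) ≤ K G Γ 1 x := by
  have hS := h.toSetup
  have hY : Eqv (fun y : V => ⁅K G Γ (T + 1) y, U G Γ (T + 4) y⁆) :=
    (hS.eqv_K (T + 1)).comm (hS.eqv_U (T + 4))
  have hYK : ∀ y : V, ⁅K G Γ (T + 1) y, U G Γ (T + 4) y⁆ ≤ K G Γ 2 y := by
    intro y
    refine (Nm.comm_le_left ?_).trans (K_anti (by omega) y)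
    intro g hg a ha
    exact hS.nm (hS.eqv_K (T + 1)) y g (h.U_le_K (k := 0) (by omega) y hg) a ha
  obtain ⟨v, hv⟩ := hS.exists_adj (x := x)
    (fun e0 => h.K3 x (le_bot_iff.1 (e0 ▸ K_anti (Nat.zero_le 3) x)))
  have d1 : Γ.dist x v = 1 := SimpleGraph.dist_eq_one_iff_adj.2 hv
  have d2 : Γ.dist v x = 1 := SimpleGraph.dist_eq_one_iff_adj.2 hv.symm
  have hne : ⁅K G Γ (T + 1) x, U G Γ (T + 4) x⁆ ⊓ ⁅K G Γ (T + 1) v, U G Γ (T + 4) v⁆ ≠ ⊥ := by
    intro e0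
    have h1 : ⁅K G Γ (T + 2) x, U G Γ (T + 3) x⁆ ≤ ⊥ := by
      rw [← e0]
      exact le_inf (Subgroup.commutator_mono (K_anti (by omega) x) (U_mono (by omega) x))
        (Subgroup.commutator_mono (hS.K_shift (by omega)) (hS.U_shift (by omega)))
    have h2 := Subgroup.commutator_eq_bot_iff_le_centralizer.1 (le_bot_iff.1 h1)
    exact hS.K_succ_ne h.K_ne (t := T + 2) (by omega) x
      ((le_inf (K_anti (Nat.zero_le _) x) h2).trans (h.cent_U (T + 3) x))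
  have hX := hS.D_inf_ne h.pgrp hv _ hne (inf_le_left.trans (hYK x)) (inf_le_right.trans (hYK v))
    (fun g hg a ha => ⟨hS.nm hY x g hg.1 a ha.1, hS.nm hY v g hg.2 a ha.2⟩)
  intro g hg
  refine hS.crit (hY.inf hS.eqv_D) eqv_bot
    (fun y => inf_le_left.trans ((hYK y).trans (K_anti (Nat.zero_le _) y))) hv _ hX bot_le bot_le
    (inf_le_inf inf_le_left inf_le_left) (inf_le_inf inf_le_right inf_le_right) x g hg.1 ?_
  intro a ha
  have h1 : a * g = g * a := Subgroup.mem_centralizer_iff.1 hg.2 a ha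
  rw [Subgroup.mem_bot, ← h1]
  group

theorem Data.step9 (h : Data G Γ e b) (x : ℕ → V) (hx : ∀ i, Γ.dist (x i) (x (i + 1)) ≤ 1)
    (A B f : ℕ) (hfb : f + 1 ≤ b)
    (hc : ∀ c, A ≤ c → c < B → ∃ T, 1 ≤ T ∧ T + 3 ≤ b ∧ ∀ i, A ≤ i → i ≤ c →
      ⁅K G Γ (T + 1) (x c), U G Γ (T + 4) (x c)⁆ ≤ K G Γ (b - f) (x i)) :
    ∃ s, s ≤ 2 + 2 * e ^ 2 * (f + 2) ∧ ∀ i, A ≤ i → i ≤ B → K G Γ s (x A) ≤ K G Γ 0 (x i) := by
  have hS := h.toSetup
  have hcz : ∀ {X Y : Subgroup G}, X ≤ Y → Cz Y ≤ Cz X := fun hXY => Subgroup.centralizer_le hXY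
  obtain ⟨s, hs, hst⟩ := chain_stall (K G Γ (b - f) (x A))
    (fun s => K G Γ (b - f) (x A) ⊓ Cz (K G Γ (s + 2) (x A)))
    (fun s => inf_le_inf le_rfl (hcz (K_anti (by omega) _))) (fun s => inf_le_left)
    (2 * e ^ 2 * (f + 2)) (by
      have := h.mass (s := b - f) (by omega) (by omega) (x A)
      rw [Nat.cast_sub (by omega)] at this
      push_cast
      linarith only [this])
  have hall : ∀ y : V, K G Γ (b - f) y ⊓ Cz (K G Γ (s + 1 + 2) y)
      ≤ K G Γ (b - f) y ⊓ Cz (K G Γ (s + 2) y) := fun y =>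
    hS.le_transfer ((hS.eqv_K _).inf (hS.eqv_K _).cz) ((hS.eqv_K _).inf (hS.eqv_K _).cz) hst y
  refine ⟨s + 2, by omega, fun i hi => ?_⟩
  induction i, hi using Nat.le_induction with
  | base => exact fun _ => K_anti (Nat.zero_le _) _
  | succ c hc' ih =>
    intro hB
    obtain ⟨T, hT, hTb, hcomm⟩ := hc c hc' (by omega)
    have key : ∀ j, A + j ≤ c → ⁅K G Γ (T + 1) (x c), U G Γ (T + 4) (x c)⁆ ⊓ D G Γ (x c)
        ≤ Cz (K G Γ (s + 2) (x (c - j))) := by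
      intro j
      induction j with
      | zero =>
        intro _
        exact inf_le_right.trans (inf_le_right.trans (hcz (K_anti (by omega) _)))
      | succ j ihj =>
        intro hj
        have e1 : c - j = c - (j + 1) + 1 := by omega
        have h1 := ihj (by omega)
        rw [e1] at h1
        have h2 := hx (c - (j + 1))
        refine le_trans (le_inf ?_ ?_) ((hall _).trans inf_le_right)
        · exact inf_le_left.trans (hcomm _ (by omega) (by omega))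
        · exact h1.trans (hcz (hS.K_shift (by omega)))
    have h3 := key (c - A) (by omega)
    have e2 : c - (c - A) = A := by omega
    rw [e2] at h3
    have h4 := Subgroup.le_centralizer_iff.1 h3
    have h5 := hx c
    exact ((le_inf (ih (by omega)) h4).trans (h.noncentral hT hTb (x c))).trans
      (hS.K_shift (by omega))

theorem Data.exists_path (h : Data G Γ e b) :
    ∃ (x : ℕ → V) (m : ℕ → ℝ), (∀ i, Γ.dist (x i) (x (i + 1)) ≤ 1) ∧
      (∀ i k, i ≤ k → m i ≤ m k) ∧ (∀ i k, i ≤ k → m k - m i ≤ e * ((k : ℝ) - i)) ∧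
      (∀ A B s, A ≤ B → (∀ i, A ≤ i → i ≤ B → K G Γ s (x A) ≤ K G Γ 0 (x i)) →
        m B - m A ≤ lg (K G Γ 0 (x A)) - lg (K G Γ s (x A))) ∧
      (b : ℝ) - e ≤ m b - m 0 := by
  have hS := h.toSetup
  obtain ⟨x0⟩ := hS.conn.nonempty
  obtain ⟨y, a, hy, haD, ha0, ha1⟩ := h.critical x0
  obtain ⟨p, hp⟩ := hS.conn.exists_walk_length_eq_dist x0 y
  have hx : ∀ i, Γ.dist (p.getVert i) (p.getVert (i + 1)) ≤ 1 := by
    intro i
    by_cases hi : i < p.length
    · exact (SimpleGraph.dist_eq_one_iff_adj.2 (p.adj_getVert_succ hi)).le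
    · rw [p.getVert_of_length_le (by omega), p.getVert_of_length_le (by omega),
        SimpleGraph.dist_self]
      exact Nat.zero_le _
  set S : ℕ → Subgroup G := fun j => ⨅ i, ⨅ (_ : i ≤ j), K G Γ 0 (p.getVert i) with hSd
  have hle : ∀ {i j}, i ≤ j → S j ≤ K G Γ 0 (p.getVert i) := fun {i j} hij =>
    iInf_le_of_le i (iInf_le _ hij)
  have hge : ∀ {j} {H : Subgroup G}, (∀ i, i ≤ j → H ≤ K G Γ 0 (p.getVert i)) → H ≤ S j :=
    fun hH => le_iInf fun i => le_iInf fun hi => hH i hi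
  have hanti : ∀ {i k}, i ≤ k → S k ≤ S i := fun hik => hge fun j hj => hle (hj.trans hik)
  refine ⟨p.getVert, fun j => -lg (S j), hx, fun i k hik => neg_le_neg (lg_mono (hanti hik)),
    fun i k hik => ?_, fun A B s hAB hs => ?_, ?_⟩
  · induction k, hik using Nat.le_induction with
    | base => simp
    | succ k hik ih =>
      have h1 := h.co_dist 1 (hle (le_refl k)) (hx k)
      have h2 : S k ⊓ K G Γ 0 (p.getVert (k + 1)) ≤ S (k + 1) := hge fun j hj => by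
        rcases Nat.lt_or_ge j (k + 1) with c | c
        · exact inf_le_left.trans (hle (by omega))
        · rw [show j = k + 1 by omega]; exact inf_le_right
      have h3 := lg_mono h2
      push_cast at h1 ⊢
      linarith only [ih, h3, h1]
  · have h1 : S A ⊓ K G Γ s (p.getVert A) ≤ S B := hge fun j hj => by
      rcases le_total j A with c | c
      · exact inf_le_left.trans (hle c)
      · exact inf_le_right.trans (hs j c hj)
    have h2 := lg_mono h1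
    have h3 := co_mono (K G Γ s (p.getVert A)) (hle (le_refl A))
    rw [inf_eq_right.2 (K_anti (Nat.zero_le s) _)] at h3
    linarith only [h2, h3]
  · have h1 := hS.lemmaA h.K_ne (Nat.zero_le b) ha0 ha1
    have e0 : p.getVert 0 = x0 := p.getVert_zero
    have eb : p.getVert b = y := p.getVert_of_length_le (by omega)
    have h2 := h.co_K2 (H := S b) (x := y) (eb ▸ hle (le_refl b))
    have h3 : S b ⊓ K G Γ 2 y ≤ K G Γ 0 x0 ⊓ Ce a := by
      refine inf_le_inf (e0 ▸ hle (Nat.zero_le b)) fun g hg => ?_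
      rw [Subgroup.mem_centralizer_iff]
      intro a' ha'
      rw [Set.mem_singleton_iff.1 ha']
      exact (Subgroup.mem_centralizer_iff.1 haD.2 g hg).symm
    have h4 := lg_mono h3
    have h5 : K G Γ 0 x0 ≤ S 0 := hge fun i hi => by rw [Nat.le_zero.1 hi, e0]
    have h6 := lg_mono h5
    simp only [Nat.cast_zero, sub_zero] at h1
    linarith only [h2, h4, h6, h1]

end Pool.Agent.Work.MP_6078fc_co
end

-- merged part: Pool.Agent.Work.MP_6078fc_co.Coarse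
section
set_option autoImplicit false

namespace Pool.Agent.Work.MP_6078fc_co

theorem coarse_aux_sum (F : ℕ → ℝ) (Q N : ℕ) :
    ∑ k ∈ Finset.range (N * Q), F k =
      ∑ k ∈ Finset.range N, ∑ l ∈ Finset.range Q, F (k * Q + l) := by
  induction N with
  | zero => simp
  | succ N ih => rw [Nat.succ_mul, Finset.sum_range_add, ih, Finset.sum_range_succ]

theorem coarse_aux_tri (Φ : ℕ → ℕ → ℝ) (htri : ∀ i j k, Φ i k ≤ Φ i j + Φ j k)
    (h0 : ∀ i, Φ i i = 0) (a : ℕ → ℕ) (l l' : ℕ) (h : l ≤ l') :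
    Φ (a l) (a l') ≤ ∑ j ∈ Finset.range l', Φ (a j) (a (j + 1)) -
      ∑ j ∈ Finset.range l, Φ (a j) (a (j + 1)) := by
  induction l', h using Nat.le_induction with
  | base => simp [h0]
  | succ l' hl ih =>
    rw [Finset.sum_range_succ]
    have := htri (a l) (a l') (a (l' + 1))
    linarith only [ih, this]

/-- one interval with a small defect is almost geodesic -/
theorem coarse_aux_cell (Φ : ℕ → ℕ → ℝ) (E δ : ℝ) (Q u L A n' : ℕ) (hE : 0 < E) (hn' : 1 ≤ n')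
    (hun : u ≤ n') (hsymm : ∀ i k, Φ i k = Φ k i) (htri : ∀ i j k, Φ i k ≤ Φ i j + Φ j k)
    (h0 : ∀ i, Φ i i = 0)
    (hlip : ∀ i k, i ≤ k → k ≤ L → Φ i k ≤ E * ((k : ℝ) - i + 2 * u))
    (hAL : A + Q * n' ≤ L)
    (hdef : ∑ l ∈ Finset.range Q, Φ (A + l * n') (A + (l + 1) * n') - Φ A (A + Q * n') ≤ δ)
    (i c : ℕ) (hi : A ≤ i) (hic : i ≤ c) (hc : c ≤ A + Q * n') :
    Φ i c + Φ c (A + Q * n') - Φ i (A + Q * n') ≤ δ + 12 * E * n' := by
  have hnear : ∀ x, A ≤ x → x ≤ A + Q * n' → Φ (A + (x - A) / n' * n') x ≤ 3 * E * n' := by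
    intro x hx hxB
    have h1 : (x - A) / n' * n' ≤ x - A := Nat.div_mul_le_self _ _
    have h2 : x - A < (x - A) / n' * n' + n' := Nat.lt_div_mul_add hn'
    have h3 := hlip (A + (x - A) / n' * n') x (by omega) (by omega)
    have h4 : x ≤ A + (x - A) / n' * n' + n' := by omega
    have h5 : (x : ℝ) ≤ ((A + (x - A) / n' * n' : ℕ) : ℝ) + n' := by exact_mod_cast h4
    have h6 : (u : ℝ) ≤ n' := by exact_mod_cast hun
    have h7 : (x : ℝ) - ((A + (x - A) / n' * n' : ℕ) : ℝ) + 2 * u ≤ 3 * n' := by linarith only [h5, h6]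
    have h8 := mul_le_mul_of_nonneg_left h7 hE.le
    linarith only [h3, h8]
  have hll : (i - A) / n' ≤ (c - A) / n' := Nat.div_le_div_right (by omega)
  have hlQ : (c - A) / n' ≤ Q := by
    apply Nat.div_le_of_le_mul
    rw [Nat.mul_comm]
    omega
  have t1 := coarse_aux_tri Φ htri h0 (fun l => A + l * n') 0 ((i - A) / n') (Nat.zero_le _)
  have t2 := coarse_aux_tri Φ htri h0 (fun l => A + l * n') _ _ hll
  have t3 := coarse_aux_tri Φ htri h0 (fun l => A + l * n') _ _ hlQ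
  simp only [Nat.zero_mul, Nat.add_zero, Finset.range_zero, Finset.sum_empty, sub_zero] at t1 t2 t3
  have n1 := hnear i hi (le_trans hic hc)
  have n2 := hnear c (le_trans hi hic) hc
  generalize A + (i - A) / n' * n' = a at *
  generalize A + (c - A) / n' * n' = b at *
  have s1 := htri i a c
  have s2 := htri a b c
  have s3 := htri c b (A + Q * n')
  have s4 := htri a i (A + Q * n')
  have s5 := htri A a (A + Q * n')
  have s6 := hsymm i a
  have s7 := hsymm c b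
  linarith only [hdef, t1, n1, t3, n2, t2, s1, s2, s3, s4, s5, s6, s7]

theorem coarse_aux_main (Φ : ℕ → ℕ → ℝ) (m : ℕ → ℝ) (E : ℝ) (e Q R u Z : ℕ) (hu : 1 ≤ u)
    (hZ : 1 ≤ Z) (hE : 0 < E) (he : 1 ≤ e) (hQ : 24 * Z ≤ Q) (hR : 48 * e * Z ≤ R)
    (hsymm : ∀ i k, Φ i k = Φ k i) (htri : ∀ i j k, Φ i k ≤ Φ i j + Φ j k)
    (hnn : ∀ i k, 0 ≤ Φ i k) (h0 : ∀ i, Φ i i = 0)
    (hlip : ∀ i k, i ≤ k → k ≤ Q ^ R * u → Φ i k ≤ E * ((k : ℝ) - i + 2 * u))
    (hm : ∀ i k, i ≤ k → m k - m i ≤ e * ((k : ℝ) - i))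
    (hmL : ((Q ^ R * u : ℕ) : ℝ) / 4 ≤ m (Q ^ R * u) - m 0) :
    ∃ A r n : ℕ, n = Q ^ (r + 1) * u ∧ A + n ≤ Q ^ R * u ∧ (n : ℝ) / 8 ≤ m (A + n) - m A ∧
      ∀ i c, A ≤ i → i ≤ c → c ≤ A + n →
        Φ i c + Φ c (A + n) - Φ i (A + n) ≤ E * n / Z := by
  have hR1 : 1 ≤ R := le_trans (Nat.succ_le_of_lt (by positivity)) hR
  have hQ1 : 1 ≤ Q := by omega
  have hZr : (0 : ℝ) < Z := by exact_mod_cast hZ
  have her : (0 : ℝ) < e := by exact_mod_cast he
  have hRr : (0 : ℝ) < R := by exact_mod_cast hR1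
  let V : ℕ → ℝ := fun r =>
    ∑ k ∈ Finset.range (Q ^ (R - r)), Φ (k * (Q ^ r * u)) ((k + 1) * (Q ^ r * u))
  have hV0 : V 0 ≤ 3 * E * ((Q ^ R * u : ℕ) : ℝ) := by
    have h1 : V 0 ≤ ∑ _k ∈ Finset.range (Q ^ R), 3 * E * (u : ℝ) := by
      simp only [V, Nat.sub_zero, pow_zero, one_mul]
      apply Finset.sum_le_sum
      intro k hk
      have hk' : k + 1 ≤ Q ^ R := Finset.mem_range.1 hk
      have h2 := hlip (k * u) ((k + 1) * u) (Nat.mul_le_mul_right _ (Nat.le_succ k))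
        (Nat.mul_le_mul_right _ hk')
      push_cast at h2
      linarith only [h2]
    rw [Finset.sum_const, Finset.card_range, nsmul_eq_mul] at h1
    push_cast at h1 ⊢
    linarith only [h1]
  have hVR : 0 ≤ V R := Finset.sum_nonneg fun _ _ => hnn _ _
  have htel : ∑ r ∈ Finset.range R, (V r - V (r + 1)) ≤
      ∑ _r ∈ Finset.range R, 3 * E * ((Q ^ R * u : ℕ) : ℝ) / R := by
    rw [Finset.sum_range_sub', Finset.sum_const, Finset.card_range, nsmul_eq_mul,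
      mul_div_cancel₀ _ hRr.ne']
    linarith only [hV0, hVR]
  obtain ⟨r, hr, hVr⟩ := Finset.exists_le_of_sum_le (Finset.nonempty_range_iff.2 (by omega)) htel
  have hrR : r < R := Finset.mem_range.1 hr
  obtain ⟨t, rfl⟩ : ∃ t, R = r + 1 + t := ⟨R - (r + 1), by omega⟩
  have e1 : r + 1 + t - r = t + 1 := by omega
  have e2 : r + 1 + t - (r + 1) = t := by omega
  simp only [V, e1, e2] at hVr
  clear htel hV0 hVR V
  have e3 : Q ^ (r + 1) * u = Q * (Q ^ r * u) := by ring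
  have e4 : Q ^ (r + 1 + t) * u = Q ^ t * (Q * (Q ^ r * u)) := by ring
  have hn' : 1 ≤ Q ^ r * u := Nat.succ_le_of_lt (by positivity)
  have hun : u ≤ Q ^ r * u := Nat.le_mul_of_pos_left _ (by positivity)
  have hN : 1 ≤ Q ^ t := Nat.succ_le_of_lt (by positivity)
  rw [pow_succ Q t, coarse_aux_sum, e3, e4, ← Finset.sum_sub_distrib] at hVr
  rw [e4] at hlip hmL
  suffices h : ∃ A : ℕ, A + Q * (Q ^ r * u) ≤ Q ^ t * (Q * (Q ^ r * u)) ∧
      ((Q * (Q ^ r * u) : ℕ) : ℝ) / 8 ≤ m (A + Q * (Q ^ r * u)) - m A ∧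
      ∀ i c, A ≤ i → i ≤ c → c ≤ A + Q * (Q ^ r * u) →
        Φ i c + Φ c (A + Q * (Q ^ r * u)) - Φ i (A + Q * (Q ^ r * u)) ≤
          E * ((Q * (Q ^ r * u) : ℕ) : ℝ) / Z by
    obtain ⟨A, h1, h2, h3⟩ := h
    exact ⟨A, r, Q * (Q ^ r * u), e3.symm, by rw [e4]; exact h1, h2, h3⟩
  generalize Q ^ r * u = n' at *
  generalize Q ^ t = N at *
  generalize r + 1 + t = R at *
  -- the defects
  let d : ℕ → ℝ := fun k =>
    ∑ l ∈ Finset.range Q, Φ (k * (Q * n') + l * n') (k * (Q * n') + (l + 1) * n') -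
      Φ (k * (Q * n')) (k * (Q * n') + Q * n')
  have hd0 : ∀ k, 0 ≤ d k := by
    intro k
    have t1 := coarse_aux_tri Φ htri h0 (fun l => k * (Q * n') + l * n') 0 Q (Nat.zero_le _)
    simp only [Nat.zero_mul, Nat.add_zero, Finset.range_zero, Finset.sum_empty, sub_zero] at t1
    simp only [d]
    linarith only [t1]
  have hdsum : ∑ k ∈ Finset.range N, d k ≤ 3 * E * ((N * (Q * n') : ℕ) : ℝ) / R := by
    refine le_trans (le_of_eq ?_) hVr
    apply Finset.sum_congr rfl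
    intro k _
    simp only [d]
    congr 1
    · apply Finset.sum_congr rfl
      intro l _
      congr 1 <;> ring
    · congr 1
      ring
  have hRr' : 48 * (e : ℝ) * Z ≤ R := by exact_mod_cast hR
  have hlam : 2 * e * Z / E * ∑ k ∈ Finset.range N, d k ≤ ((N * (Q * n') : ℕ) : ℝ) / 8 := by
    have hL0 : (0 : ℝ) ≤ ((N * (Q * n') : ℕ) : ℝ) := Nat.cast_nonneg _
    have h1 : 3 * E * ((N * (Q * n') : ℕ) : ℝ) / R ≤
        3 * E * ((N * (Q * n') : ℕ) : ℝ) / (48 * (e : ℝ) * Z) :=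
      div_le_div_of_nonneg_left (by positivity) (by positivity) hRr'
    have h2 := mul_le_mul_of_nonneg_left (le_trans hdsum h1)
      (show (0 : ℝ) ≤ 2 * e * Z / E by positivity)
    refine le_trans h2 (le_of_eq ?_)
    field_simp
    ring
  have hpig : ∑ _k ∈ Finset.range N, ((Q * n' : ℕ) : ℝ) / 8 ≤
      ∑ k ∈ Finset.range N, (m ((k + 1) * (Q * n')) - m (k * (Q * n')) - 2 * e * Z / E * d k) := by
    rw [Finset.sum_sub_distrib, Finset.sum_range_sub (fun k => m (k * (Q * n'))),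
      ← Finset.mul_sum, Finset.sum_const, Finset.card_range, nsmul_eq_mul, Nat.zero_mul]
    push_cast at hmL hlam ⊢
    linarith only [hmL, hlam]
  obtain ⟨k, hk, hkk⟩ := Finset.exists_le_of_sum_le (Finset.nonempty_range_iff.2 (by omega)) hpig
  have hkN : k + 1 ≤ N := Finset.mem_range.1 hk
  have e5 : (k + 1) * (Q * n') = k * (Q * n') + Q * n' := by ring
  have hAL : k * (Q * n') + Q * n' ≤ N * (Q * n') := by
    rw [← e5]
    exact Nat.mul_le_mul_right _ hkN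
  rw [e5] at hkk
  have hld : 0 ≤ 2 * e * Z / E * d k := mul_nonneg (by positivity) (hd0 k)
  refine ⟨k * (Q * n'), hAL, by linarith only [hkk, hld], ?_⟩
  intro i c hi hic hc
  have hinc := hm (k * (Q * n')) (k * (Q * n') + Q * n') (Nat.le_add_right _ _)
  have hn0 : (0 : ℝ) ≤ ((Q * n' : ℕ) : ℝ) := Nat.cast_nonneg _
  have hdk : d k ≤ E * ((Q * n' : ℕ) : ℝ) / (2 * Z) := by
    have h1 : 2 * e * Z / E * d k ≤ e * ((Q * n' : ℕ) : ℝ) := by
      rw [Nat.cast_add] at hinc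
      have : (e : ℝ) * (((k * (Q * n') : ℕ) : ℝ) + ((Q * n' : ℕ) : ℝ) - ((k * (Q * n') : ℕ) : ℝ)) =
        e * ((Q * n' : ℕ) : ℝ) := by ring
      linarith only [hkk, hinc]
    have h2 := mul_le_mul_of_nonneg_left h1 (show (0 : ℝ) ≤ E / (2 * e * Z) by positivity)
    have h3 : E / (2 * e * Z) * (2 * e * Z / E * d k) = d k := by field_simp
    have h4 : E / (2 * e * Z) * (e * ((Q * n' : ℕ) : ℝ)) = E * ((Q * n' : ℕ) : ℝ) / (2 * Z) := by
      field_simp
    linarith only [h2, h3, h4]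
  have hcell := coarse_aux_cell Φ E (d k) Q u (N * (Q * n')) (k * (Q * n')) n' hE hn' hun hsymm htri
    h0 hlip hAL le_rfl i c hi hic hc
  have hQr : 24 * (Z : ℝ) ≤ Q := by exact_mod_cast hQ
  have hn'r : (0 : ℝ) ≤ n' := Nat.cast_nonneg _
  have h12 : 12 * E * n' ≤ E * ((Q * n' : ℕ) : ℝ) / (2 * Z) := by
    rw [le_div_iff₀ (by positivity)]
    push_cast
    have := mul_le_mul_of_nonneg_left hQr (show (0 : ℝ) ≤ E * n' by positivity)
    linarith only [this]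
  have h5 : E * ((Q * n' : ℕ) : ℝ) / Z =
      E * ((Q * n' : ℕ) : ℝ) / (2 * Z) + E * ((Q * n' : ℕ) : ℝ) / (2 * Z) := by
    field_simp
    ring
  linarith only [hdk, hcell, h12, h5]

/-- coarse differentiation with a density condition -/
theorem coarse_diff (Φ : ℕ → ℕ → ℝ) (m : ℕ → ℝ) (E : ℝ) (e Q R u Z : ℕ) (hu : 1 ≤ u) (hZ : 1 ≤ Z)
    (hE : 0 < E) (he : 1 ≤ e) (hQ : 24 * Z ≤ Q) (hR : 48 * e * Z ≤ R)
    (hsymm : ∀ i k, Φ i k = Φ k i) (htri : ∀ i j k, Φ i k ≤ Φ i j + Φ j k)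
    (hnn : ∀ i k, 0 ≤ Φ i k)
    (hlip : ∀ i k, i ≤ k → k ≤ Q ^ R * u → Φ i k ≤ E * ((k : ℝ) - i + 2 * u))
    (hm : ∀ i k, i ≤ k → m k - m i ≤ e * ((k : ℝ) - i))
    (hmL : ((Q ^ R * u : ℕ) : ℝ) / 4 ≤ m (Q ^ R * u) - m 0) :
    ∃ A r n : ℕ, n = Q ^ (r + 1) * u ∧ A + n ≤ Q ^ R * u ∧ (n : ℝ) / 8 ≤ m (A + n) - m A ∧
      ∀ i c, A ≤ i → i ≤ c → c ≤ A + n →
        Φ i c + Φ c (A + n) - Φ i (A + n) ≤ E * n / Z := by
  let Ψ : ℕ → ℕ → ℝ := fun i k => if i = k then 0 else Φ i k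
  have hle : ∀ i k, Ψ i k ≤ Φ i k := by
    intro i k
    simp only [Ψ]
    split_ifs
    · exact hnn i k
    · exact le_rfl
  have hne : ∀ i k, i ≠ k → Ψ i k = Φ i k := fun i k h => if_neg h
  have h0 : ∀ i, Ψ i i = 0 := fun i => if_pos rfl
  have hnn' : ∀ i k, 0 ≤ Ψ i k := by
    intro i k
    simp only [Ψ]
    split_ifs
    · exact le_rfl
    · exact hnn i k
  have hsymm' : ∀ i k, Ψ i k = Ψ k i := by
    intro i k
    by_cases h : i = k
    · rw [h]
    · rw [hne i k h, hne k i (Ne.symm h), hsymm]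
  have htri' : ∀ i j k, Ψ i k ≤ Ψ i j + Ψ j k := by
    intro i j k
    by_cases h1 : i = j
    · rw [h1, h0, zero_add]
    · by_cases h2 : j = k
      · rw [h2, h0, add_zero]
      · rw [hne i j h1, hne j k h2]
        exact le_trans (hle i k) (htri i j k)
  obtain ⟨A, r, n, hn, hAL, hmm, hfin⟩ := coarse_aux_main Ψ m E e Q R u Z hu hZ hE he hQ hR hsymm'
    htri' hnn' h0 (fun i k h1 h2 => le_trans (hle i k) (hlip i k h1 h2)) hm hmL
  refine ⟨A, r, n, hn, hAL, hmm, ?_⟩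
  intro i c hi hic hc
  have hZr : (0 : ℝ) < Z := by exact_mod_cast hZ
  have hdiag : ∀ x, x ≤ A + n → Φ x x ≤ E * n / Z := by
    intro x hx
    have h1 := hlip x x le_rfl (le_trans hx hAL)
    have h2 : 2 * Z * u ≤ n := by
      rw [hn, pow_succ]
      apply Nat.mul_le_mul_right
      have h3 : 1 ≤ Q ^ r := Nat.one_le_pow _ _ (by omega)
      calc 2 * Z ≤ 1 * Q := by omega
        _ ≤ Q ^ r * Q := Nat.mul_le_mul_right _ h3
    have h3 : 2 * (Z : ℝ) * u ≤ n := by exact_mod_cast h2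
    rw [le_div_iff₀ hZr]
    have h4 := mul_le_mul_of_nonneg_right h1 hZr.le
    have h5 := mul_le_mul_of_nonneg_left h3 hE.le
    linarith only [h4, h5]
  by_cases h1 : i = c
  · rw [h1]
    have := hdiag c hc
    linarith only [this]
  · by_cases h2 : c = A + n
    · rw [h2]
      have := hdiag (A + n) le_rfl
      linarith only [this]
    · have h3 := hfin i c hi hic hc
      rwa [hne i c h1, hne c _ h2, hne i (A + n) (by omega)] at h3

end Pool.Agent.Work.MP_6078fc_co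
end

-- merged part: Pool.Agent.Work.MP_6078fc_co.Tile
section
set_option autoImplicit false

namespace Pool.Agent.Work.MP_6078fc_co

variable {G : Type} {V : Type} [Group G] [Finite G] [Finite V] [MulAction G V] {Γ : SimpleGraph V}
  {e b : ℕ}

lemma tile_aux1 {e Λ : ℕ} (he : 1 ≤ e) (hΛ : 1 ≤ Λ) :
    e ^ 2 * (3 + 2 * e ^ 2 * (28 * (1 + e) * (8 * e ^ 2) * (16 * e) * Λ + Λ + 2)) < 2 * pM e * Λ := by
  have h1 : e ^ 2 ≤ e ^ 4 := Nat.pow_le_pow_right he (by norm_num)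
  have h2 : e ^ 4 ≤ e ^ 7 := Nat.pow_le_pow_right he (by norm_num)
  have h3 : e ^ 2 ≤ e ^ 7 * Λ := h1.trans (h2.trans (Nat.le_mul_of_pos_right _ hΛ))
  have h4 : e ^ 4 ≤ e ^ 7 * Λ := h2.trans (Nat.le_mul_of_pos_right _ hΛ)
  have h5 : e ^ 4 * Λ ≤ e ^ 7 * Λ := Nat.mul_le_mul_right _ h2
  have e1 : e ^ 2 * (3 + 2 * e ^ 2 * (28 * (1 + e) * (8 * e ^ 2) * (16 * e) * Λ + Λ + 2))
      = 3 * e ^ 2 + 7168 * (e ^ 7 * Λ) + 7168 * (e ^ 8 * Λ) + 2 * (e ^ 4 * Λ) + 4 * e ^ 4 := by ring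
  have e2 : 2 * pM e * Λ = 8704 * (e ^ 7 * Λ) + 8704 * (e ^ 8 * Λ) + 14 * Λ := by
    unfold pM; ring
  omega

theorem Data.main_tile (h : Data G Γ e b) (x : ℕ → V) (hx : ∀ i, Γ.dist (x i) (x (i + 1)) ≤ 1)
    (m : ℕ → ℝ) (hm : ∀ i k, i ≤ k → m k - m i ≤ e * ((k : ℝ) - i))
    (hm' : ∀ A B s, A ≤ B → (∀ i, A ≤ i → i ≤ B → K G Γ s (x A) ≤ K G Γ 0 (x i)) →
        m B - m A ≤ lg (K G Γ 0 (x A)) - lg (K G Γ s (x A)))
    (s0 u : ℕ) (hu : 1 ≤ u) (hb : 2 * (s0 + 10 * (pQ e ^ pR e * u)) ≤ b)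
    (hreg : ∀ (y : V) (s s' : ℕ), s0 ≤ s → s ≤ s' → s' ≤ s0 + 10 * (pQ e ^ pR e * u) →
      lg (U G Γ s' y) - lg (U G Γ s y) ≤ ((8 * e ^ 2 : ℕ) : ℝ) * ((s' : ℝ) - s + 2 * u))
    (hmL : ((pQ e ^ pR e * u : ℕ) : ℝ) / 4 ≤ m (pQ e ^ pR e * u) - m 0) : False := by
  have he := h.he1
  have heR : (1 : ℝ) ≤ e := by exact_mod_cast he
  have hM7 : 7 ≤ pM e := Nat.le_add_left _ _
  have hZ1 : 1 ≤ pZ e := Nat.le_add_left _ _
  have hZ1' : 1 ≤ pZ1 e := Nat.mul_pos (by omega) (by omega)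
  have hQ : 24 * pZ e ≤ pQ e := Nat.le_mul_of_pos_right _ hZ1'
  have hQ1 : 1 ≤ pQ e := by omega
  have hZ : (pZ e : ℝ) = 8 * (pM e + 1) * (32 * e ^ 3) * (64 * e * pM e) * (64 * e * pM e + 1) + 1 := by
    simp only [pZ, pZ1]; push_cast; ring
  have hQe : pQ e = 24 * pZ e * (64 * e * pM e) := rfl
  have hR : 48 * e * pZ e ≤ pR e := le_rfl
  have hA1 := fun Λ hΛ => tile_aux1 (e := e) (Λ := Λ) he hΛ
  generalize pR e = R at *
  generalize pQ e = Q at *
  generalize pZ e = Z at *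
  generalize pM e = M at *
  have hL1 : 1 ≤ Q ^ R * u := Nat.mul_pos (Nat.pow_pos hQ1) hu
  set Φ : ℕ → ℕ → ℝ := fun i k => ∑ j ∈ Finset.range (M + 1),
    ∑ t0 ∈ Finset.Ico (s0 + 3 * (Q ^ R * u)) (s0 + 7 * (Q ^ R * u)),
      (dm (FK G Γ x M t0 j i) (FK G Γ x M t0 j k) + dm (FU G Γ x M t0 j i) (FU G Γ x M t0 j k))
    with hΦ
  have hLR : (1 : ℝ) ≤ (Q ^ R * u : ℕ) := by exact_mod_cast hL1
  obtain ⟨A, r, n, hn, hAn, hmn, hdef⟩ := coarse_diff Φ m
    (8 * (M + 1) * (Q ^ R * u : ℕ) * (32 * e ^ 3)) e Q R u Z hu hZ1 (by positivity) he hQ hR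
    (fun i k => Finset.sum_congr rfl fun j _ => Finset.sum_congr rfl fun t _ => by
      rw [dm_comm (FK G Γ x M t j i), dm_comm (FU G Γ x M t j i)])
    (fun i l k => by
      simp only [hΦ, ← Finset.sum_add_distrib]
      refine Finset.sum_le_sum fun j _ => Finset.sum_le_sum fun t _ => ?_
      linarith [dm_triangle (FK G Γ x M t j i) (FK G Γ x M t j l) (FK G Γ x M t j k),
        dm_triangle (FU G Γ x M t j i) (FU G Γ x M t j l) (FU G Γ x M t j k)])
    (fun i k => Finset.sum_nonneg fun j _ => Finset.sum_nonneg fun t _ =>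
      add_nonneg (dm_nonneg _ _) (dm_nonneg _ _))
    (fun i k hik hk => by
      calc Φ i k ≤ ∑ _j ∈ Finset.range (M + 1),
            ∑ _t0 ∈ Finset.Ico (s0 + 3 * (Q ^ R * u)) (s0 + 7 * (Q ^ R * u)),
              (64 * (e : ℝ) ^ 3 * ((k : ℝ) - i + 2 * u)) := by
            refine Finset.sum_le_sum fun j hj => Finset.sum_le_sum fun t ht => ?_
            have := h.line_lip x hx M s0 (Q ^ R * u) u _ (by positivity) (by omega) hu hL1 hreg
              (Nat.lt_succ_iff.1 (Finset.mem_range.1 hj)) (Finset.mem_Ico.1 ht).1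
              (Finset.mem_Ico.1 ht).2.le hik hk
            push_cast at this
            linarith only [this, this.1, this.2]
        _ = _ := by
            rw [Finset.sum_const, Finset.sum_const, Finset.card_range, Nat.card_Ico,
              show s0 + 7 * (Q ^ R * u) - (s0 + 3 * (Q ^ R * u)) = 4 * (Q ^ R * u) by omega]
            simp only [nsmul_eq_mul]
            push_cast; ring)
    hm hmL
  obtain ⟨Λ, hΛ⟩ : ∃ Λ, Λ = 24 * Z * (Q ^ r * u) := ⟨_, rfl⟩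
  have hnΛ : n = 4 * (16 * e) * M * Λ := by rw [hn, hΛ, pow_succ, mul_assoc, mul_comm Q, ← mul_assoc, hQe]; ring
  have huΛ : u ≤ Λ := by
    rw [hΛ]
    exact (Nat.le_mul_of_pos_left u (Nat.pow_pos hQ1)).trans (Nat.le_mul_of_pos_left _ (by omega))
  have hΛ1 : 1 ≤ Λ := hu.trans huΛ
  have h1 := hA1 Λ hΛ1
  set f := 28 * (1 + e) * (8 * e ^ 2) * (16 * e) * Λ + Λ with hf
  have h2 : 4 * (M * Λ) ≤ n := by
    rw [hnΛ]
    calc 4 * (M * Λ) = 4 * 1 * M * Λ := by ring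
      _ ≤ _ := by gcongr; omega
  have he2 : 1 ≤ e ^ 2 := Nat.pow_pos he
  have h3 : 3 + 2 * e ^ 2 * (f + 2) ≤ b := by
    have : 3 + 2 * e ^ 2 * (f + 2) ≤ e ^ 2 * (3 + 2 * e ^ 2 * (f + 2)) :=
      Nat.le_mul_of_pos_left _ he2
    rw [mul_assoc 2 M] at h1
    omega
  have h4 : f + 2 ≤ 2 * e ^ 2 * (f + 2) := Nat.le_mul_of_pos_left _ (by omega)
  have hZ0 : (0 : ℝ) < Z := by exact_mod_cast hZ1
  have hΛR : (1 : ℝ) ≤ Λ := by exact_mod_cast hΛ1
  have hnR : (n : ℝ) = 64 * e * M * Λ := by rw [hnΛ]; push_cast; ring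
  obtain ⟨s, hs, hK⟩ := h.step9 x hx A (A + n - 4 * (M * Λ)) f (by omega) fun c hAc hc =>
    h.centre x hx M (16 * e) s0 (Q ^ R * u) u Λ A c (8 * e ^ 2) hM7 (by omega) hu huΛ hb
      (hnΛ ▸ hAn) (by omega) hreg
      (8 * (M + 1) * (Q ^ R * u : ℕ) * (32 * e ^ 3) * n / Z) (by
        rw [← mul_div_assoc, div_lt_iff₀ hZ0, hZ, hnR]
        generalize ((Q ^ R * u : ℕ) : ℝ) = L at hLR ⊢
        have : (0 : ℝ) < Λ * L := by positivity
        push_cast
        linarith only [this])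
      (fun i hAi hic => by
        refine le_of_eq_of_le ?_ (hdef i c hAi hic (by omega))
        simp only [hΦ, tri, ← hnΛ, ← Finset.sum_add_distrib, ← Finset.sum_sub_distrib]
        exact Finset.sum_congr rfl fun j _ => Finset.sum_congr rfl fun t _ => by ring)
      hAc (by rw [← hnΛ, mul_assoc 4 M]; omega)
  have h5 := hm' A _ s (by omega) hK
  have h6 := h.top_growth (Nat.zero_le s) (x A)
  rw [Nat.zero_sub, U_zero, lg_bot, sub_zero] at h6
  have h7 := h.lg_U (s := s) (by omega) (x A)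
  have h8 := hm (A + n - 4 * (M * Λ)) (A + n) (Nat.sub_le _ _)
  rw [Nat.cast_sub (by omega)] at h8
  have h9 : (e : ℝ) ^ 2 * (s + 1) < 2 * M * Λ := by
    have : e ^ 2 * (s + 1) < 2 * M * Λ := lt_of_le_of_lt (Nat.mul_le_mul_left _ (by omega)) h1
    exact_mod_cast this
  have h10 := mul_le_mul_of_nonneg_left h7 (by positivity : (0 : ℝ) ≤ e)
  have h11 := mul_lt_mul_of_pos_left h9 (by positivity : (0 : ℝ) < e)
  push_cast at h8
  linarith only [h5, h6, h8, h10, h11, hmn, hnR, h5, h6, h8, h10, h11, hmn, hnR, hΛR]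

end Pool.Agent.Work.MP_6078fc_co
end

-- merged part: Pool.Agent.Work.MP_6078fc_co.TW
section
set_option autoImplicit false

namespace Pool.Agent.Work.MP_6078fc_co

section Pure
variable {G : Type} [Group G]

/-- subnormal subgroups -/
inductive TWSub (C : Subgroup G) : Subgroup G → Prop
  | refl : TWSub C C
  | step {H H' : Subgroup G} : TWSub C H → H ≤ H' → Nm H' H → TWSub C H'

theorem TWSub.le {C H : Subgroup G} (h : TWSub C H) : C ≤ H := by
  induction h with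
  | refl => exact le_rfl
  | step _ h2 _ ih => exact ih.trans h2

theorem TWSub.trans {C H H' : Subgroup G} (h : TWSub C H) (h' : TWSub H H') : TWSub C H' := by
  induction h' with
  | refl => exact h
  | step _ h2 h3 ih => exact ih.step h2 h3

theorem TWSub.restrict {C H M : Subgroup G} (h : TWSub C H) (hM : C ≤ M) : TWSub C (H ⊓ M) := by
  induction h with
  | refl => rw [inf_eq_left.mpr hM]; exact .refl
  | step _ h2 h3 ih =>
    refine ih.step (inf_le_inf_right _ h2) fun g hg a ha => ⟨h3 g hg.1 a ha.1, ?_⟩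
    exact M.mul_mem (M.mul_mem hg.2 ha.2) (M.inv_mem hg.2)

theorem tw_perfect {C H N : Subgroup G} (h : TWSub C H) (hp : ⁅C, C⁆ = C) (hN : Nm C N)
    (hC : C ⊓ N = ⊥) : ⁅C, N ⊓ H⁆ = ⊥ := by
  induction h with
  | refl => rw [inf_comm, hC, Subgroup.commutator_bot_right]
  | @step H H' h1 h2 h3 ih =>
    have key : ⁅C, N ⊓ H'⁆ ≤ N ⊓ H := by
      rw [Subgroup.commutator_le]
      intro c hc n hn
      refine ⟨?_, ?_⟩
      · rw [commutatorElement_def]
        exact N.mul_mem (hN c hc n hn.1) (N.inv_mem hn.1)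
      · have e : c * n * c⁻¹ * n⁻¹ = c * (n * c⁻¹ * n⁻¹) := by group
        rw [commutatorElement_def, e]
        exact H.mul_mem (h1.le hc) (h3 n hn.2 _ (H.inv_mem (h1.le hc)))
    have k1 : ⁅⁅C, N ⊓ H'⁆, C⁆ = ⊥ := by
      rw [eq_bot_iff, ← ih, Subgroup.commutator_comm C (N ⊓ H)]
      exact Subgroup.commutator_mono key le_rfl
    have k2 : ⁅⁅N ⊓ H', C⁆, C⁆ = ⊥ := by rw [Subgroup.commutator_comm (N ⊓ H') C]; exact k1
    have := Subgroup.commutator_commutator_eq_bot_of_rotate k1 k2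
    rwa [hp] at this

theorem tw_pgroup_sup {p : ℕ} {H X Y : Subgroup G} (hX : IsPGroup p X) (hY : IsPGroup p Y)
    (hXH : X ≤ H) (hN : Nm H Y) : IsPGroup p (X ⊔ Y : Subgroup G) := by
  refine hX.to_sup_of_normal_right' hY fun g hg => ?_
  rw [Subgroup.mem_normalizer_iff]
  intro a
  refine ⟨fun ha => hN g (hXH hg) a ha, fun ha => ?_⟩
  have := hN g⁻¹ (H.inv_mem (hXH hg)) _ ha
  simpa [mul_assoc] using this

theorem tw_nm_sup {H X Y : Subgroup G} (hX : Nm H X) (hY : Nm H Y) : Nm H (X ⊔ Y) := by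
  intro g hg a ha
  have : X ⊔ Y ≤ (X ⊔ Y).comap (MulAut.conj g).toMonoidHom := by
    refine sup_le (fun b hb => ?_) (fun b hb => ?_)
    · exact Subgroup.mem_sup_left (hX g hg b hb)
    · exact Subgroup.mem_sup_right (hY g hg b hb)
  exact this ha

theorem tw_exists_op [Finite G] (p : ℕ) (H : Subgroup G) : ∃ O : Subgroup G,
    (O ≤ H ∧ Nm H O ∧ IsPGroup p O) ∧ ∀ P : Subgroup G, P ≤ H → Nm H P → IsPGroup p P → P ≤ O := by
  obtain ⟨O, hO⟩ := (Set.toFinite {O : Subgroup G | O ≤ H ∧ Nm H O ∧ IsPGroup p O}).exists_maximal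
    ⟨⊥, bot_le, fun g _ a ha => by simp [Subgroup.mem_bot.mp ha], IsPGroup.of_bot⟩
  refine ⟨O, hO.prop, fun P h1 h2 h3 => ?_⟩
  have : O ⊔ P ≤ O := hO.le_of_ge (y := O ⊔ P)
    ⟨sup_le hO.prop.1 h1, tw_nm_sup hO.prop.2.1 h2, tw_pgroup_sup hO.prop.2.2 h3 hO.prop.1 h2⟩
    le_sup_left
  exact le_sup_right.trans this

/-- largest normal `p`-subgroup -/
noncomputable def twOp [Finite G] (p : ℕ) (H : Subgroup G) : Subgroup G := (tw_exists_op p H).choose

theorem twOp_spec [Finite G] (p : ℕ) (H : Subgroup G) :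
    (twOp p H ≤ H ∧ Nm H (twOp p H) ∧ IsPGroup p (twOp p H)) ∧
      ∀ P : Subgroup G, P ≤ H → Nm H P → IsPGroup p P → P ≤ twOp p H :=
  (tw_exists_op p H).choose_spec

theorem twOp_conj [Finite G] (p : ℕ) {H H' : Subgroup G} (g : G)
    (h1 : ∀ a ∈ H, g * a * g⁻¹ ∈ H') (h2 : ∀ a ∈ H', g⁻¹ * a * g ∈ H) :
    ∀ a ∈ twOp p H, g * a * g⁻¹ ∈ twOp p H' := by
  obtain ⟨⟨s1, s2, s3⟩, -⟩ := twOp_spec p H
  have : (twOp p H).map (MulAut.conj g).toMonoidHom ≤ twOp p H' := by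
    refine (twOp_spec p H').2 _ ?_ ?_ (s3.map _)
    · rintro _ ⟨a, ha, rfl⟩
      exact h1 a (s1 ha)
    · rintro k hk _ ⟨a, ha, rfl⟩
      refine ⟨_, s2 _ (h2 k hk) a ha, ?_⟩
      simp [mul_assoc]
  exact fun a ha => this ⟨a, ha, rfl⟩

theorem tw_le_op [Finite G] (p : ℕ) {C H : Subgroup G} (h : TWSub C H) (hC : IsPGroup p C) :
    C ≤ twOp p H := by
  induction h with
  | refl =>
    exact (twOp_spec p C).2 C le_rfl (fun g hg a ha => C.mul_mem (C.mul_mem hg ha) (C.inv_mem hg)) hC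
  | @step H H' _ h2 h3 ih =>
    refine ih.trans ((twOp_spec p H').2 _ ((twOp_spec p H).1.1.trans h2) ?_ (twOp_spec p H).1.2.2)
    intro g hg
    refine twOp_conj p g (h3 g hg) fun a ha => ?_
    simpa using h3 g⁻¹ (H'.inv_mem hg) a ha

theorem tw_coprime_mem [Finite G] {p : ℕ} {P Q : Subgroup G} (hQ : IsPGroup p Q) (hN : Nm Q P)
    {q k : G} (hq : q ∈ Q) (hk : k ∈ P) (hc : (orderOf (q * k)).Coprime p) : q * k ∈ P := by
  have key : ∀ m : ℕ, (q * k) ^ m * (q ^ m)⁻¹ ∈ P := by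
    intro m
    induction m with
    | zero => simp
    | succ m ih =>
      have e : (q * k) ^ (m + 1) * (q ^ (m + 1))⁻¹ =
          ((q * k) ^ m * (q ^ m)⁻¹) * (q ^ (m + 1) * k * (q ^ (m + 1))⁻¹) := by
        rw [pow_succ (q * k), pow_succ q]; group
      rw [e]
      exact P.mul_mem ih (hN _ (Q.pow_mem hq _) k hk)
  obtain ⟨n, hn⟩ := hQ ⟨q, hq⟩
  have hn' : q ^ p ^ n = 1 := by simpa using congrArg Subtype.val hn
  have h1 := key (p ^ n)
  rw [hn', inv_one, mul_one] at h1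
  obtain ⟨m, hm⟩ := exists_pow_eq_self_of_coprime (x := q * k) (n := p ^ n)
    (Nat.Coprime.pow_left n hc.symm)
  rw [← hm]
  exact P.pow_mem h1 m

theorem tw_pgroup_of [Finite G] {p : ℕ} (hp : p.Prime) (P : Subgroup G)
    (h : ∀ k ∈ P, (orderOf k).Coprime p → k = 1) : IsPGroup p P := by
  rintro ⟨g, hg⟩
  obtain ⟨a, m, hm, e⟩ := Nat.exists_eq_pow_mul_and_not_dvd (orderOf_pos g).ne' p hp.ne_one
  refine ⟨a, Subtype.ext ?_⟩
  refine h (g ^ p ^ a) (P.pow_mem hg _) ?_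
  have : orderOf (g ^ p ^ a) ∣ m := by
    rw [orderOf_dvd_iff_pow_eq_one, ← pow_mul, ← e, pow_orderOf_eq_one]
  exact Nat.Coprime.coprime_dvd_left this ((hp.coprime_iff_not_dvd.mpr hm).symm)

end Pure

variable {G : Type} {V : Type} [Group G] [Finite G] [MulAction G V] {Γ : SimpleGraph V}

omit [Finite G] in
theorem tw_K10 (h : Setup G Γ) {x y : V} (hxy : Γ.Adj x y) : K G Γ 1 x ≤ K G Γ 0 y :=
  h.K_shift (by rw [SimpleGraph.dist_eq_one_iff_adj.mpr hxy])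

omit [Finite G] in
theorem tw_K21 (h : Setup G Γ) {x y : V} (hxy : Γ.Adj x y) : K G Γ 2 x ≤ K G Γ 1 y :=
  h.K_shift (by rw [SimpleGraph.dist_eq_one_iff_adj.mpr hxy])

omit [Finite G] in
theorem tw_nm_of_le {H H' X : Subgroup G} (h : Nm H X) (hle : H' ≤ H) : Nm H' X :=
  fun g hg => h g (hle hg)

omit [Finite G] in
theorem tw_nm_edge (h : Setup G Γ) {x y : V} {H : Subgroup G} (hx : H ≤ K G Γ 0 x)
    (hy : H ≤ K G Γ 0 y) : Nm H (K G Γ 1 x ⊓ K G Γ 1 y) := fun g hg a ha =>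
  ⟨h.nm (h.eqv_K 1) x g (hx hg) a ha.1, h.nm (h.eqv_K 1) y g (hy hg) a ha.2⟩

omit [Finite G] in
theorem tw_no_perfect (h : Setup G Γ) (h2 : ∀ x : V, K G Γ 2 x ≠ ⊥) {C : Subgroup G}
    (hp : ⁅C, C⁆ = C) (hs : ∀ X : Subgroup G, X ≤ C → Nm C X → X = ⊥ ∨ X = C) {x0 : V}
    (h0 : TWSub C (K G Γ 1 x0)) : C = ⊥ := by
  have step : ∀ x y, Γ.Adj x y → TWSub C (K G Γ 1 x) → TWSub C (K G Γ 1 y) := by
    intro x y hxy hx
    have hC0 : C ≤ K G Γ 0 y := hx.le.trans (tw_K10 h hxy)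
    have hN : Nm C (K G Γ 1 y) := tw_nm_of_le (h.nm (h.eqv_K 1) y) hC0
    have hle : C ≤ K G Γ 1 y := by
      rcases hs (C ⊓ K G Γ 1 y) inf_le_left (fun g hg a ha =>
        ⟨C.mul_mem (C.mul_mem hg ha.1) (C.inv_mem hg), hN g hg a ha.2⟩) with hb | hb
      · have hsub : TWSub C (K G Γ 0 x ⊓ K G Γ 0 y) :=
          hx.step (le_inf (K_anti (by omega) x) (tw_K10 h hxy))
            (tw_nm_of_le (h.nm (h.eqv_K 1) x) inf_le_left)
        have hc := tw_perfect hsub hp hN hb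
        rw [inf_eq_left.mpr (le_inf (tw_K10 h hxy.symm) (K_anti (by omega) y))] at hc
        intro c hcC
        refine h.crit (h.eqv_K 1) eqv_bot (fun z => K_anti (by omega) z) hxy
          (K G Γ 1 x ⊓ K G Γ 1 y) ?_ bot_le bot_le inf_le_left inf_le_right y c (hC0 hcC) ?_
        · intro hb'
          exact h2 x (le_bot_iff.mp (hb' ▸ le_inf (K_anti (by omega) x) (tw_K21 h hxy)))
        · intro a ha
          have := Subgroup.commutator_mem_commutator hcC ha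
          rw [hc] at this
          exact this
      · exact inf_eq_left.mp hb
    exact (hx.restrict hle).step inf_le_right
      (tw_nm_edge h (tw_K10 h hxy.symm) (K_anti (by omega) y))
  have all : ∀ z, TWSub C (K G Γ 1 z) := by
    intro z
    obtain ⟨w⟩ := h.conn.preconnected x0 z
    induction w with
    | nil => exact h0
    | cons ha _ ih => exact ih (step _ _ ha h0)
  rw [eq_bot_iff]
  intro c hc
  exact h.faith c fun z => h.mem_K_zero.mp (K_anti (by omega) z ((all z).le hc))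

theorem tw_pcase (h : Setup G Γ) {p : ℕ} (hp : p.Prime) {x0 : V}
    (h0 : twOp p (K G Γ 1 x0) ≠ ⊥) {u v : V} (huv : Γ.Adj u v) :
    IsPGroup p (K G Γ 1 u ⊓ K G Γ 1 v : Subgroup G) := by
  have hQ : Eqv (fun x => twOp p (K G Γ 1 x)) := by
    intro g x
    refine twOp_conj p g (h.eqv_K 1 g x) fun a ha => ?_
    simpa using h.eqv_K 1 g⁻¹ _ a ha
  have hQ1 : ∀ x, twOp p (K G Γ 1 x) ≤ K G Γ 1 x := fun x => (twOp_spec p _).1.1
  have hQi : ∀ x y, Γ.Adj x y → twOp p (K G Γ 1 x) ⊓ K G Γ 1 y ≤ twOp p (K G Γ 1 y) := by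
    intro x y hxy
    refine (twOp_spec p _).2 _ inf_le_right (fun g hg a ha => ⟨?_, ?_⟩)
      ((twOp_spec p _).1.2.2.to_le inf_le_left)
    · exact h.nm hQ x g (tw_K10 h hxy.symm hg) a ha.1
    · exact h.nm (h.eqv_K 1) y g (K_anti (by omega) y hg) a ha.2
  rcases h.dichotomy (h.eqv_K 1) hQ with hd | hd
  · exfalso
    refine h0 (h.eq_bot_of_adj (fun x => twOp p (K G Γ 1 x))
      (fun x => (hQ1 x).trans (K_anti (by omega) x)) (fun x y hxy q hq => ?_) x0)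
    refine hQi x y hxy ⟨hq, hd y q (tw_K10 h hxy (hQ1 x hq)) fun a ha => hQi x y hxy ⟨?_, ?_⟩⟩
    · have e : q * a * q⁻¹ * a⁻¹ = q * (a * q⁻¹ * a⁻¹) := by group
      rw [e]
      exact Subgroup.mul_mem _ hq (h.nm hQ x a (tw_K10 h hxy.symm ha) _ (Subgroup.inv_mem _ hq))
    · exact Subgroup.mul_mem _ (h.nm (h.eqv_K 1) y q (tw_K10 h hxy (hQ1 x hq)) a ha)
        (Subgroup.inv_mem _ ha)
  · set P := K G Γ 1 u ⊓ K G Γ 1 v with hP
    set X := Subgroup.closure {k : G | k ∈ P ∧ (orderOf k).Coprime p} with hX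
    have hXP : X ≤ P := (Subgroup.closure_le _).mpr fun k hk => hk.1
    have key : ∀ (z : V) (H : Subgroup G), P ≤ K G Γ 1 z → Nm (K G Γ 1 z) P →
        (∀ g ∈ H, ∀ a ∈ K G Γ 1 z, g * a * g⁻¹ * a⁻¹ ∈ twOp p (K G Γ 1 z)) → Nm H X := by
      intro z H hPz hN hH g hg a ha
      have : X ≤ X.comap (MulAut.conj g).toMonoidHom := by
        rw [hX, Subgroup.closure_le]
        intro k hk
        have ho : orderOf (g * k * g⁻¹) = orderOf k :=
          orderOf_injective (MulAut.conj g).toMonoidHom (MulAut.conj g).injective k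
        refine Subgroup.subset_closure ⟨?_, ?_⟩
        · have e : g * k * g⁻¹ = (g * k * g⁻¹ * k⁻¹) * k := by group
          change g * k * g⁻¹ ∈ P
          rw [e]
          refine tw_coprime_mem (twOp_spec p _).1.2.2 (tw_nm_of_le hN (hQ1 z))
            (hH g hg k (hPz hk.1)) hk.1 ?_
          rw [← e, ho]
          exact hk.2
        · change (orderOf (g * k * g⁻¹)).Coprime p
          rw [ho]
          exact hk.2
      exact this ha
    obtain ⟨Hu, u1, u2, u3⟩ := hd u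
    obtain ⟨Hv, v1, v2, v3⟩ := hd v
    have hb := h.lemma0 huv X Hu Hv (hXP.trans (inf_le_left.trans (K_anti (by omega) u)))
      (hXP.trans (inf_le_right.trans (K_anti (by omega) v)))
      (key u Hu inf_le_left (tw_nm_edge h (K_anti (by omega) u) (tw_K10 h huv)) u3)
      (key v Hv inf_le_right (tw_nm_edge h (tw_K10 h huv.symm) (K_anti (by omega) v)) v3)
      u1 v1 u2 v2
    refine tw_pgroup_of hp P fun k hk hc => ?_
    have : k ∈ X := Subgroup.subset_closure ⟨hk, hc⟩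
    rwa [hb] at this

/-- Thompson-Wielandt theorem for locally quasiprimitive actions -/
theorem Setup.tw (h : Setup G Γ) (h2 : ∀ x : V, K G Γ 2 x ≠ ⊥) :
    ∃ p : ℕ, p.Prime ∧
      ∀ u v : V, Γ.Adj u v → IsPGroup p (K G Γ 1 u ⊓ K G Γ 1 v : Subgroup G) := by
  obtain ⟨x0⟩ := h.conn.nonempty
  have h1 : K G Γ 1 x0 ≠ ⊥ := fun hb => h2 x0 (le_bot_iff.mp (hb ▸ K_anti (by omega) x0))
  obtain ⟨C, hC⟩ := (Set.toFinite {C : Subgroup G | TWSub C (K G Γ 1 x0) ∧ C ≠ ⊥}).exists_minimal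
    ⟨_, .refl, h1⟩
  have hs : ∀ X : Subgroup G, X ≤ C → Nm C X → X = ⊥ ∨ X = C := by
    intro X hX hN
    by_cases hb : X = ⊥
    · exact Or.inl hb
    · exact Or.inr (le_antisymm hX (hC.le_of_le (y := X)
        ⟨(TWSub.refl.step hX hN).trans hC.prop.1, hb⟩ hX))
  have hCC : Nm C C := fun g hg a ha => C.mul_mem (C.mul_mem hg ha) (C.inv_mem hg)
  rcases hs ⁅C, C⁆ hCC.comm_le_left (hCC.comm hCC) with hc | hc
  · have hcard : Nat.card C ≠ 1 := fun h1 => hC.prop.2 (Subgroup.card_eq_one.mp h1)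
    obtain ⟨p, hp, hdvd⟩ := Nat.exists_prime_and_dvd hcard
    have : Fact p.Prime := ⟨hp⟩
    obtain ⟨g, hg⟩ := exists_prime_orderOf_dvd_card' p hdvd
    have hg' : orderOf (g : G) = p := by rw [Subgroup.orderOf_coe, hg]
    have hz : Subgroup.zpowers (g : G) ≤ C := (Subgroup.zpowers_le).mpr g.2
    have hN : Nm C (Subgroup.zpowers (g : G)) := by
      intro c hc' a ha
      have := Subgroup.commutator_mem_commutator hc' (hz ha)
      rw [hc, Subgroup.mem_bot, commutatorElement_def, mul_inv_eq_one] at this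
      rwa [this]
    have hP : IsPGroup p (Subgroup.zpowers (g : G)) :=
      IsPGroup.of_card (n := 1) (by rw [Nat.card_zpowers, hg', pow_one])
    have hle := tw_le_op p ((TWSub.refl.step hz hN).trans hC.prop.1) hP
    refine ⟨p, hp, fun u v huv => tw_pcase h hp (x0 := x0) (fun hb => ?_) huv⟩
    have : (g : G) = 1 := by
      have := hle (Subgroup.mem_zpowers _)
      rwa [hb] at this
    rw [this, orderOf_one] at hg'
    exact hp.ne_one hg'.symm
  · exact absurd (tw_no_perfect h h2 hc hs hC.prop.1) hC.prop.2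

end Pool.Agent.Work.MP_6078fc_co
end

-- merged part: Pool.Agent.Work.MP_6078fc_co.Index
section
set_option autoImplicit false

namespace Pool.Agent.Work.MP_6078fc_co

variable {G : Type} {V : Type} [Group G] [Finite G] [MulAction G V] {Γ : SimpleGraph V}

theorem index_pred (hc : Γ.Connected) {x y : V} {k : ℕ} (hy : Γ.dist x y = k + 1) :
    ∃ z, Γ.dist x z ≤ k ∧ Γ.Adj z y := by
  obtain ⟨p, hp⟩ := hc.exists_walk_length_eq_dist y x
  rw [SimpleGraph.dist_comm, hy] at hp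
  cases p with
  | nil => simp at hp
  | cons hadj q =>
    rename_i z
    refine ⟨z, ?_, hadj.symm⟩
    have h1 := SimpleGraph.dist_le q
    rw [SimpleGraph.dist_comm] at h1
    simp only [SimpleGraph.Walk.length_cons] at hp
    omega

open Classical in
theorem index_ball [Fintype V] (hc : Γ.Connected) (d : ℕ)
    (hd : ∀ v : V, (Γ.neighborSet v).ncard = d) (x : V) (k : ℕ) :
    (Finset.univ.filter (fun y => Γ.dist x y ≤ k)).card ≤ (d + 1) ^ k := by
  induction k with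
  | zero =>
    rw [pow_zero, Finset.card_le_one]
    intro a ha b hb
    simp only [Finset.mem_filter, Finset.mem_univ, true_and, Nat.le_zero] at ha hb
    rw [hc.dist_eq_zero_iff] at ha hb
    rw [← ha, ← hb]
  | succ k ih =>
    have hsub : Finset.univ.filter (fun y => Γ.dist x y ≤ k + 1) ⊆
        (Finset.univ.filter (fun y => Γ.dist x y ≤ k)).biUnion
          (fun z => insert z (Finset.univ.filter (fun y => Γ.Adj z y))) := by
      intro y hy
      simp only [Finset.mem_filter, Finset.mem_univ, true_and, Finset.mem_biUnion,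
        Finset.mem_insert] at hy ⊢
      by_cases h1 : Γ.dist x y ≤ k
      · exact ⟨y, h1, Or.inl rfl⟩
      · obtain ⟨z, hz1, hz2⟩ := index_pred hc (show Γ.dist x y = k + 1 by omega)
        exact ⟨z, hz1, Or.inr hz2⟩
    refine (Finset.card_le_card hsub).trans ?_
    refine (Finset.card_biUnion_le_card_mul _ _ (d + 1) ?_).trans ?_
    · intro z _
      refine (Finset.card_insert_le _ _).trans ?_
      have : (Finset.univ.filter (fun y => Γ.Adj z y)).card = d := by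
        rw [← hd z, ← Set.ncard_coe_finset]
        congr 1
        ext y
        simp
      omega
    · rw [pow_succ]
      exact Nat.mul_le_mul_right _ ih

theorem Setup.index_bound [Finite V] (h : Setup G Γ) (d : ℕ)
    (hd : ∀ v : V, (Γ.neighborSet v).ncard = d) (k : ℕ) (x : V) :
    lg (K G Γ 0 x) ≤ lg (K G Γ k x) + (((d + 1) ^ (2 * k) : ℕ) : ℝ) := by
  classical
  haveI := Fintype.ofFinite V
  set B : Finset V := Finset.univ.filter (fun y => Γ.dist x y ≤ k) with hB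
  have hcard : B.card ≤ (d + 1) ^ k := index_ball h.conn d hd x k
  have hmem : ∀ y, y ∈ B ↔ Γ.dist x y ≤ k := by intro y; simp [hB]
  have h1 := card_fiber (K G Γ 0 x) (K G Γ k x) (Fintype.piFinset (fun _ : B => B))
    (fun g => fun y : B => g • (y : V)) ?_ ?_
  · rw [inf_eq_right.2 (K_anti (Nat.zero_le k) x)] at h1
    refine lg_le_of_card _ _ _ _ ?_ h1
    rw [Fintype.card_piFinset, Finset.prod_const, Finset.card_univ, Fintype.card_coe]
    calc B.card ^ B.card ≤ (2 ^ B.card) ^ B.card :=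
          Nat.pow_le_pow_left (Nat.lt_two_pow_self).le _
      _ = 2 ^ (B.card * B.card) := by rw [← pow_mul]
      _ ≤ 2 ^ ((d + 1) ^ (2 * k)) := by
          apply Nat.pow_le_pow_right (by norm_num)
          rw [two_mul, pow_add]
          exact Nat.mul_le_mul hcard hcard
  · intro g hg
    rw [Fintype.mem_piFinset]
    intro y
    rw [hmem]
    have hx := h.mem_K_zero.1 hg
    have := h.dist_smul g x y
    rw [hx] at this
    rw [this]
    exact (hmem _).1 y.2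
  · intro g _ g' _ hgg
    rw [mem_K]
    intro y hy
    have := congrFun hgg ⟨y, (hmem y).2 hy⟩
    simp only at this
    rw [mul_smul, ← this, inv_smul_smul]

end Pool.Agent.Work.MP_6078fc_co
end

-- merged part: Pool.Agent.Work.MP_6078fc_co.Final
section
set_option autoImplicit false

namespace Pool.Agent.Work.MP_6078fc_co

variable {G : Type} {V : Type} [Group G] [Finite G] [Finite V] [MulAction G V] {Γ : SimpleGraph V}

theorem final_pQ {e : ℕ} (he : 1 ≤ e) : e ≤ pQ e ∧ 1 ≤ pR e := by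
  have h1 : 1 ≤ pM e := by unfold pM; omega
  have h2 : 1 ≤ pZ e := by unfold pZ; omega
  have h3 : e ≤ pZ1 e := by
    unfold pZ1
    calc e = 1 * e * 1 := by ring
      _ ≤ 64 * e * pM e := by gcongr; omega
  constructor
  · unfold pQ
    calc e = 1 * 1 * e := by ring
      _ ≤ 24 * pZ e * pZ1 e := by gcongr; omega
  · unfold pR
    calc 1 = 1 * 1 * 1 := by ring
      _ ≤ 48 * e * pZ e := by gcongr; omega

theorem final_pq {e : ℕ} (he : 1 ≤ e) : 10 * e ≤ pq e := by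
  obtain ⟨h1, h2⟩ := final_pQ he
  unfold pq
  have : pQ e ≤ pQ e ^ pR e := Nat.le_self_pow (by omega) _
  omega

theorem Data.b_lt {e b : ℕ} (h : Data G Γ e b) : b < pB e := by
  by_contra hb
  push Not at hb
  have he := h.he1
  have hq := final_pq he
  obtain ⟨x0⟩ := h.conn.nonempty
  have hN : pq e ≤ pq e ^ (pq e + 1) := Nat.le_self_pow (by omega) _
  unfold pB at hb
  have hw : Monotone (fun s => lg (U G Γ s x0)) := fun s s' hs => lg_mono (U_mono hs x0)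
  have he' : (1 : ℝ) ≤ e := by exact_mod_cast he
  have hN1 : (1 : ℝ) ≤ (pq e : ℝ) ^ (pq e + 1) := by
    have : 1 ≤ pq e ^ (pq e + 1) := by omega
    exact_mod_cast this
  obtain ⟨s0, u, hu, hs0, hreg⟩ := regular_range _ hw (pq e) (by omega) (4 * (e : ℝ) ^ 2)
    (by positivity) (by
      have h1 := h.lg_U (s := pq e ^ (pq e + 1)) (by omega) x0
      have h2 := lg_nonneg (U G Γ 0 x0)
      push_cast at h1
      have h3 : (0 : ℝ) ≤ (e : ℝ) ^ 2 := by positivity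
      linarith only [h2, h1, hN1, mul_nonneg_of_nonpos_of_nonpos (Mathlib.Tactic.Linarith.sub_nonpos_of_le (sq_nonneg ↑e)) (Mathlib.Tactic.Linarith.sub_nonpos_of_le hN1)])
  obtain ⟨x, m, hx, hm0, hm1, hm2, hm3⟩ := h.exists_path
  have hqu : pq e * u = 10 * (pQ e ^ pR e * u) := by unfold pq; ring
  have hL1 : 1 ≤ pQ e ^ pR e * u := by
    have : 10 * e * 1 ≤ pq e * u := Nat.mul_le_mul hq hu
    omega
  obtain ⟨a, ha⟩ := exists_tile m hm0 b (pQ e ^ pR e * u) hL1 (by omega) (by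
    have : 2 * e ≤ b := by omega
    have h' : 2 * (e : ℝ) ≤ b := by exact_mod_cast this
    linarith only [hm3, h'])
  refine h.main_tile (fun i => x (a + i)) (fun i => hx (a + i)) (fun i => m (a + i)) ?_ ?_ s0 u hu
    (by omega) ?_ ?_
  · intro i k hik
    have := hm1 (a + i) (a + k) (by omega)
    push_cast at this
    have e2 : (a : ℝ) + k - (a + i) = k - i := by ring
    rwa [e2] at this
  · intro A B s hAB hs
    refine hm2 (a + A) (a + B) s (by omega) fun i hi hi' => ?_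
    have := hs (i - a) (by omega) (by omega)
    have e2 : a + (i - a) = i := by omega
    simpa [e2] using this
  · intro y s s' h1 h2 h3
    have := hreg s s' h1 h2 (by omega)
    rw [h.toSetup.lg_eq (h.toSetup.eqv_U s') y x0, h.toSetup.lg_eq (h.toSetup.eqv_U s) y x0]
    push_cast
    have e2 : 2 * (4 * (e : ℝ) ^ 2) = 8 * (e : ℝ) ^ 2 := by ring
    rw [e2] at this
    exact this
  · simpa using ha

/-- the final bound -/
def bound (d : ℕ) : ℕ :=
  2 ^ ((d + 1) ^ 6 + (d + 1) ^ 4 + 2 * ((d + 1) ^ 4) ^ 2 * (pB ((d + 1) ^ 4) + 1))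

theorem Setup.card_le (h : Setup G Γ) (d : ℕ) (hd : ∀ v : V, (Γ.neighborSet v).ncard = d) (x : V) :
    Nat.card (K G Γ 0 x) ≤ bound d := by
  unfold bound
  apply card_le_of_lg
  by_cases h3 : ∀ y : V, K G Γ 3 y ≠ ⊥
  · have h2 : ∀ y : V, K G Γ 2 y ≠ ⊥ := fun y hy =>
      h3 y (le_bot_iff.mp (hy ▸ K_anti (by omega) y))
    have he1 : 1 ≤ (d + 1) ^ 4 := Nat.one_le_pow _ _ (by omega)
    obtain ⟨b, hb⟩ := h.exists_data he1 (fun y => h.index_bound d hd 2 y) (h.tw h2) h3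
    generalize (d + 1) ^ 4 = e at *
    have hlt := hb.b_lt
    have h1 := hb.he x
    have h4 := hb.mass (s := 1) le_rfl (by omega) x
    have h5 : lg (K G Γ 2 x) ≤ lg (K G Γ 1 x) := lg_mono (K_anti (by omega) x)
    have h6 : (b : ℝ) ≤ pB e := by exact_mod_cast hlt.le
    have h7 : (0 : ℝ) ≤ (((d + 1) ^ 6 : ℕ) : ℝ) := by positivity
    have h8 : (0 : ℝ) ≤ (e : ℝ) ^ 2 := by positivity
    push_cast at h4 h7 ⊢
    linarith only [h1, h5, h4, h7, h6, mul_nonneg_of_nonpos_of_nonpos (Mathlib.Tactic.Linarith.sub_nonpos_of_le (sq_nonneg ↑e)) (Mathlib.Tactic.Linarith.sub_nonpos_of_le h6)]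
  · push Not at h3
    obtain ⟨y, hy⟩ := h3
    have hx : K G Γ 3 x = ⊥ :=
      le_bot_iff.mp (h.le_transfer (h.eqv_K 3) eqv_bot (le_of_eq hy) x)
    have h1 := h.index_bound d hd 3 x
    rw [hx, lg_bot] at h1
    rw [add_assoc]
    generalize (d + 1) ^ 4 + 2 * ((d + 1) ^ 4) ^ 2 * (pB ((d + 1) ^ 4) + 1) = r
    have h7 : (0 : ℝ) ≤ (r : ℝ) := by positivity
    rw [Nat.cast_add]
    have e6 : 2 * 3 = 6 := rfl
    rw [e6] at h1
    linarith only [h1]

end Pool.Agent.Work.MP_6078fc_co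
end
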