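import Pool.Agent.Work.MP_6078fc_co.Final

/-! A closed form upper estimate for the function `bound`. -/

set_option autoImplicit false

namespace Pool.Agent.Work.MP_6078fc_co

theorem tower_c {t c k : ℕ} (ht : 2 ≤ t) (h : c ≤ 2 ^ k) : c ≤ t ^ k :=
  h.trans (Nat.pow_le_pow_left ht k)

theorem tower_mul {t a b i j : ℕ} (ha : a ≤ t ^ i) (hb : b ≤ t ^ j) : a * b ≤ t ^ (i + j) := by
  rw [pow_add]; exact Nat.mul_le_mul ha hb

theorem tower_pow {t a i : ℕ} (ha : a ≤ t ^ i) (j : ℕ) : a ^ j ≤ t ^ (i * j) := by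
  rw [pow_mul]; exact Nat.pow_le_pow_left ha j

theorem tower_add {t a b i j : ℕ} (ht : 2 ≤ t) (ha : a ≤ t ^ i) (hb : b ≤ t ^ j) (h : j ≤ i) :
    a + b ≤ t ^ (i + 1) := by
  have h1 : t ^ j ≤ t ^ i := Nat.pow_le_pow_right (by omega) h
  have h2 : t ^ i * 2 ≤ t ^ i * t := Nat.mul_le_mul_left _ ht
  rw [pow_succ]
  omega

theorem tower_up {t a i j : ℕ} (ht : 2 ≤ t) (ha : a ≤ t ^ i) (h : i ≤ j) : a ≤ t ^ j :=
  ha.trans (Nat.pow_le_pow_right (by omega) h)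

theorem tower_QR {t e : ℕ} (ht : 2 ≤ t) (he : e ≤ t ^ 4) : pQ e ≤ t ^ 250 ∧ pR e ≤ t ^ 200 := by
  have c1 : 1 ≤ t ^ 0 := by simp
  have c2 : 2 ≤ t ^ 1 := by simpa using ht
  have c8 : 8 ≤ t ^ 3 := tower_c ht (by norm_num)
  have c7 : 7 ≤ t ^ 3 := tower_c ht (by norm_num)
  have c32 : 32 ≤ t ^ 5 := tower_c ht (by norm_num)
  have c24 : 24 ≤ t ^ 5 := tower_c ht (by norm_num)
  have c64 : 64 ≤ t ^ 6 := tower_c ht (by norm_num)
  have c48 : 48 ≤ t ^ 6 := tower_c ht (by norm_num)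
  have c136 : 136 ≤ t ^ 8 := tower_c ht (by norm_num)
  have e1 : 1 + e ≤ t ^ 5 := by
    rw [add_comm]; exact tower_add ht he c1 (by norm_num)
  have hM : pM e ≤ t ^ 47 :=
    tower_up ht (tower_add ht (tower_mul (tower_mul (tower_mul (tower_mul c136 he) e1)
      (tower_pow (tower_mul c2 (tower_pow he 2)) 2)) (tower_mul c8 (tower_pow he 2))) c7
      (by norm_num)) (by norm_num)
  have hZ1 : pZ1 e ≤ t ^ 57 := tower_up ht (tower_mul (tower_mul c64 he) hM) (by norm_num)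
  have hZ : pZ e ≤ t ^ 185 :=
    tower_up ht (tower_add ht (tower_mul (tower_mul (tower_mul (tower_mul c8
      (tower_add ht hM c1 (by norm_num))) (tower_mul c32 (tower_pow he 3))) hZ1)
      (tower_add ht hZ1 c1 (by norm_num))) c1 (by norm_num)) (by norm_num)
  exact ⟨tower_up ht (tower_mul (tower_mul c24 hZ) hZ1) (by norm_num),
    tower_up ht (tower_mul (tower_mul c48 he) hZ) (by norm_num)⟩

theorem tower_B {q N : ℕ} (hq : q ≤ 2 ^ N) : 2 * q ^ (q + 1) ≤ 2 ^ 2 ^ (2 * N + 2) := by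
  have h1 : q ≤ 2 ^ q := Nat.lt_two_pow_self.le
  have h2 : 2 * q ^ (q + 1) ≤ 2 ^ (1 + q * (q + 1)) :=
    tower_mul (by simp) (tower_pow h1 (q + 1))
  refine tower_up le_rfl h2 ?_
  have h3 : 1 ≤ 2 ^ N := Nat.one_le_two_pow
  have h4 : 2 ^ (2 * N + 2) = 4 * (2 ^ N * 2 ^ N) := by ring
  rw [h4]
  generalize 2 ^ N = m at hq h3
  nlinarith

theorem bound_le_tower (d : ℕ) : bound d ≤ 2 ^ 2 ^ 2 ^ (d + 2) ^ 500 := by
  have ht : 2 ≤ d + 2 := by omega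
  have hd : d + 1 ≤ (d + 2) ^ 1 := by simp
  have h4 : (d + 1) ^ 4 ≤ (d + 2) ^ 4 := tower_pow hd 4
  have h6 : (d + 1) ^ 6 ≤ (d + 2) ^ 6 := tower_pow hd 6
  unfold bound
  generalize (d + 1) ^ 4 = e at h4 ⊢
  generalize (d + 1) ^ 6 = f at h6 ⊢
  generalize d + 2 = t at ht h4 h6 ⊢
  obtain ⟨hQ, hR⟩ := tower_QR ht h4
  have c1 : 1 ≤ t ^ 0 := by simp
  have c2 : 2 ≤ t ^ 1 := by simpa using ht
  have hq : pq e ≤ 2 ^ t ^ 451 := by
    have a1 : pQ e ≤ 2 ^ pQ e := Nat.lt_two_pow_self.le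
    have a2 : pq e ≤ 2 ^ (4 + pQ e * pR e) :=
      tower_mul (by norm_num) (tower_pow a1 (pR e))
    refine tower_up le_rfl a2 ?_
    rw [add_comm]
    exact tower_add ht (tower_mul hQ hR) (tower_c (k := 2) ht (by norm_num)) (by norm_num)
  have hB : pB e ≤ 2 ^ 2 ^ (2 * t ^ 451 + 2) := tower_B hq
  have hN : t ^ 9 ≤ t ^ 451 := Nat.pow_le_pow_right (by omega) (by norm_num)
  have hf : f ≤ t ^ 451 := tower_up ht h6 (by norm_num)
  have he : e ≤ t ^ 451 := tower_up ht h4 (by norm_num)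
  have h2e : 2 * e ^ 2 ≤ t ^ 451 := tower_up ht (tower_mul c2 (tower_pow h4 2)) (by norm_num)
  have hlast : 2 * t ^ 451 + 2 + 2 ≤ t ^ 500 :=
    tower_up ht (tower_add ht (tower_add ht (tower_mul c2 le_rfl) c2 (by norm_num)) c2
      (by norm_num)) (by norm_num)
  generalize t ^ 500 = L at hlast ⊢
  generalize t ^ 451 = N at hB hf he h2e hlast
  refine Nat.pow_le_pow_right (by norm_num) ?_
  have hA : N ≤ 2 ^ (2 * N + 2) := by
    have := Nat.lt_two_pow_self (n := 2 * N + 2)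
    omega
  have hA1 : 4 ≤ 2 ^ (2 * N + 2) := by
    have : 2 ^ 2 ≤ 2 ^ (2 * N + 2) := Nat.pow_le_pow_right (by norm_num) (by omega)
    omega
  have hL : 4 * 2 ^ (2 * N + 2) ≤ 2 ^ L := by
    have : 2 ^ (2 * N + 2 + 2) ≤ 2 ^ L := Nat.pow_le_pow_right (by norm_num) hlast
    rw [pow_add _ _ 2] at this
    omega
  generalize 2 ^ (2 * N + 2) = A at hA hA1 hB hL
  have hN2 : N ≤ 2 ^ A := hA.trans Nat.lt_two_pow_self.le
  have k1 : f + e ≤ 2 ^ (A + 1) := tower_add le_rfl (hf.trans hN2) (he.trans hN2) le_rfl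
  have k2 : 2 * e ^ 2 * (pB e + 1) ≤ 2 ^ (A + (A + 1)) :=
    tower_mul (h2e.trans hN2) (tower_add (j := 0) le_rfl hB (by simp) (by omega))
  rw [add_comm]
  exact tower_up le_rfl (tower_add le_rfl k2 k1 (by omega)) (by omega)

end Pool.Agent.Work.MP_6078fc_co
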